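import Pool.Agent.Lib.MP_67663b_nt.Odd.Defs

set_option autoImplicit false
open Filter Topology
namespace Pool.MP_67663b_nt.Odd

/-- the unnormalised logarithmic sum -/
private noncomputable def me_S (f : ℕ → ℝ) (N : ℕ) : ℝ := ∑ n ∈ Finset.Icc 1 N, (1 / (n : ℝ)) * f n

private theorem me_logMean_eq (f : ℕ → ℝ) (N : ℕ) : logMean f N = (1 / Real.log (N : ℝ)) * me_S f N :=
  rfl

private theorem me_S_succ (f : ℕ → ℝ) (N : ℕ) :
    me_S f (N + 1) = me_S f N + (1 / ((N : ℝ) + 1)) * f (N + 1) := by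
  unfold me_S
  rw [Finset.sum_Icc_succ_top (by omega)]
  push_cast
  rfl

private theorem me_S_zero (f : ℕ → ℝ) : me_S f 0 = 0 := by
  simp [me_S]

private theorem me_log_tendsto : Tendsto (fun N : ℕ => Real.log (N : ℝ)) atTop atTop :=
  Real.tendsto_log_atTop.comp tendsto_natCast_atTop_atTop

private theorem me_logMean_zero_of_bdd {f : ℕ → ℝ} {C : ℝ} (h : ∀ N, |me_S f N| ≤ C) :
    Tendsto (logMean f) atTop (𝓝 0) := by
  have h1 : Tendsto (fun N : ℕ => C / Real.log (N : ℝ)) atTop (𝓝 0) :=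
    tendsto_const_nhds.div_atTop me_log_tendsto
  refine squeeze_zero_norm (fun N => ?_) h1
  rw [me_logMean_eq, Real.norm_eq_abs, abs_mul, abs_of_nonneg
    (one_div_nonneg.mpr (Real.log_natCast_nonneg N)), one_div, inv_mul_eq_div]
  exact div_le_div_of_nonneg_right (h N) (Real.log_natCast_nonneg N)

private theorem me_S_sub (f g : ℕ → ℝ) (N : ℕ) :
    me_S (fun n => f n - g n) N = me_S f N - me_S g N := by
  unfold me_S
  rw [← Finset.sum_sub_distrib]
  exact Finset.sum_congr rfl fun n _ => by ring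

private theorem me_S_add (f g : ℕ → ℝ) (N : ℕ) :
    me_S (fun n => f n + g n) N = me_S f N + me_S g N := by
  unfold me_S
  rw [← Finset.sum_add_distrib]
  exact Finset.sum_congr rfl fun n _ => by ring

private theorem me_S_smul (c : ℝ) (f : ℕ → ℝ) (N : ℕ) :
    me_S (fun n => c * f n) N = c * me_S f N := by
  unfold me_S
  rw [Finset.mul_sum]
  exact Finset.sum_congr rfl fun n _ => by ring

private theorem me_diff {f g : ℕ → ℝ} {C : ℝ} (h : ∀ N, |me_S f N - me_S g N| ≤ C) :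
    Tendsto (fun N => logMean f N - logMean g N) atTop (𝓝 0) := by
  have h1 : Tendsto (logMean (fun n => f n - g n)) atTop (𝓝 0) :=
    me_logMean_zero_of_bdd (C := C) fun N => by rw [me_S_sub]; exact h N
  refine h1.congr fun N => ?_
  rw [me_logMean_eq, me_logMean_eq, me_logMean_eq, me_S_sub]
  ring

private theorem me_harmonic (N : ℕ) : me_S (fun _ => 1) N = (harmonic N : ℝ) := by
  induction N with
  | zero => simp [me_S_zero]
  | succ k ih =>
    rw [me_S_succ, ih, harmonic_succ]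
    push_cast
    ring

private theorem me_S_le {f : ℕ → ℝ} {B : ℝ} (hB : ∀ n, |f n| ≤ B) (N : ℕ) :
    |me_S f N| ≤ B * (harmonic N : ℝ) := by
  rw [← me_harmonic, ← me_S_smul]
  unfold me_S
  refine (Finset.abs_sum_le_sum_abs _ _).trans (Finset.sum_le_sum fun n _ => ?_)
  rw [abs_mul, abs_of_nonneg (by positivity : (0:ℝ) ≤ 1 / (n:ℝ))]
  have := hB n
  have h0 : (0:ℝ) ≤ 1 / (n:ℝ) := by positivity
  nlinarith [mul_le_mul_of_nonneg_left this h0]

private theorem me_logMean_bdd {f : ℕ → ℝ} (hf : Bdd f) : ∃ C : ℝ, ∀ N, |logMean f N| ≤ C := by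
  obtain ⟨B, hB⟩ := hf
  have hB0 : 0 ≤ B := (abs_nonneg _).trans (hB 0)
  refine ⟨B * (1 / Real.log 2 + 1), fun N => ?_⟩
  have hlog2 : 0 < Real.log 2 := Real.log_pos (by norm_num)
  rcases Nat.lt_or_ge N 2 with hN | hN
  · have : Real.log (N : ℝ) = 0 := by
      interval_cases N <;> simp
    rw [me_logMean_eq, this]
    simp only [div_zero, zero_mul, abs_zero]
    positivity
  · have hl : Real.log 2 ≤ Real.log (N : ℝ) := Real.log_le_log (by norm_num) (by exact_mod_cast hN)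
    have hl0 : 0 < Real.log (N : ℝ) := hlog2.trans_le hl
    rw [me_logMean_eq, abs_mul, abs_of_pos (one_div_pos.mpr hl0)]
    have h1 := me_S_le hB N
    have h2 : (harmonic N : ℝ) ≤ 1 + Real.log N := harmonic_le_one_add_log N
    calc 1 / Real.log (N:ℝ) * |me_S f N| ≤ 1 / Real.log (N:ℝ) * (B * (1 + Real.log N)) := by
          refine mul_le_mul_of_nonneg_left (h1.trans ?_) (by positivity)
          exact mul_le_mul_of_nonneg_left h2 hB0
      _ = B * (1 / Real.log (N:ℝ) + 1) := by field_simp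
      _ ≤ B * (1 / Real.log 2 + 1) := by
          refine mul_le_mul_of_nonneg_left ?_ hB0
          have := one_div_le_one_div_of_le hlog2 hl
          linarith

private theorem me_exists_lim (U : Ultrafilter ℕ) {f : ℕ → ℝ} (hf : Bdd f) :
    ∃ x, Tendsto (logMean f) U (𝓝 x) := by
  obtain ⟨C, hC⟩ := me_logMean_bdd hf
  have hc : IsCompact (Set.Icc (-C) C) := isCompact_Icc
  obtain ⟨x, -, hx⟩ := hc.ultrafilter_le_nhds' (U.map (logMean f)) (by
    rw [Ultrafilter.mem_map]
    refine Filter.mem_of_superset Filter.univ_mem fun N _ => ?_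
    exact abs_le.mp (hC N))
  exact ⟨x, hx⟩

private theorem me_one : Tendsto (logMean (fun _ => 1)) atTop (𝓝 1) := by
  have h1 : Tendsto (fun N : ℕ => 1 + ((harmonic N : ℝ) - Real.log N) / Real.log N) atTop
      (𝓝 (1 + 0)) :=
    tendsto_const_nhds.add (Real.tendsto_harmonic_sub_log.div_atTop me_log_tendsto)
  rw [add_zero] at h1
  refine h1.congr' ?_
  filter_upwards [eventually_ge_atTop 2] with N hN
  have hl0 : 0 < Real.log (N : ℝ) := Real.log_pos (by exact_mod_cast hN)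
  rw [me_logMean_eq, me_harmonic]
  field_simp
  ring

private theorem me_nonneg (U : Ultrafilter ℕ) (hU : (U : Filter ℕ) ≤ atTop) {f : ℕ → ℝ}
    (h : ∀ᶠ n in atTop, 0 ≤ f n) {x : ℝ} (hx : Tendsto (logMean f) U (𝓝 x)) : 0 ≤ x := by
  obtain ⟨n0, hn0⟩ := eventually_atTop.mp h
  set g : ℕ → ℝ := fun n => if n < n0 then 0 else f n with hg
  have hfg : ∀ N, |me_S f N - me_S g N| ≤ ∑ n ∈ Finset.range n0, |(1 / (n:ℝ)) * f n| := by
    intro N
    rw [← me_S_sub]
    unfold me_S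
    have h1 : ∀ n ∈ Finset.Icc 1 N, (1 / (n:ℝ)) * (f n - g n) =
        if n ∈ Finset.range n0 then (1 / (n:ℝ)) * f n else 0 := by
      intro n _
      by_cases hn : n < n0
      · simp [hg, hn]
      · simp [hg, hn]
    rw [Finset.sum_congr rfl h1, ← Finset.sum_filter]
    refine (Finset.abs_sum_le_sum_abs _ _).trans ?_
    refine Finset.sum_le_sum_of_subset_of_nonneg ?_ (fun _ _ _ => abs_nonneg _)
    intro n hn
    exact (Finset.mem_filter.mp hn).2
  have h2 := (me_diff hfg).mono_left hU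
  have h3 : Tendsto (logMean g) U (𝓝 x) := by
    have := hx.sub h2
    rw [sub_zero] at this
    refine this.congr fun N => ?_
    ring
  refine ge_of_tendsto' h3 fun N => ?_
  rw [me_logMean_eq]
  refine mul_nonneg (one_div_nonneg.mpr (Real.log_natCast_nonneg N)) ?_
  unfold me_S
  refine Finset.sum_nonneg fun n _ => mul_nonneg (by positivity) ?_
  by_cases hn : n < n0
  · simp [hg, hn]
  · simp only [hg, hn, if_false]
    exact hn0 n (not_lt.mp hn)

private theorem me_shift {f : ℕ → ℝ} {B : ℝ} (hB : ∀ n, |f n| ≤ B) (N : ℕ) :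
    |me_S (fun n => f (n + 1)) N - me_S f N| ≤ 3 * B := by
  have hB0 : 0 ≤ B := (abs_nonneg _).trans (hB 0)
  -- exact formula
  have key : ∀ N : ℕ, |me_S (fun n => f (n + 1)) N - me_S f N
      - ((1 / ((N:ℝ) + 1)) * f (N + 1) - f 1)| ≤ B * (1 - 1 / ((N:ℝ) + 1)) := by
    intro N
    induction N with
    | zero => simp [me_S_zero]
    | succ k ih =>
      rw [me_S_succ, me_S_succ]
      have hk : (0:ℝ) < (k:ℝ) + 1 := by positivity
      have hk2 : (0:ℝ) < (k:ℝ) + 1 + 1 := by positivity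
      have e : me_S (fun n => f (n + 1)) k + 1 / ((k:ℝ) + 1) * f (k + 1 + 1) -
            (me_S f k + 1 / ((k:ℝ) + 1) * f (k + 1)) -
            (1 / (((k + 1 : ℕ) : ℝ) + 1) * f (k + 1 + 1) - f 1)
          = (me_S (fun n => f (n + 1)) k - me_S f k - (1 / ((k:ℝ) + 1) * f (k + 1) - f 1))
            + (1 / ((k:ℝ) + 1) - 1 / ((k:ℝ) + 1 + 1)) * f (k + 1 + 1) := by
        push_cast
        ring
      rw [e]
      refine (abs_add_le _ _).trans ?_
      have h0 : (0:ℝ) ≤ 1 / ((k:ℝ) + 1) - 1 / ((k:ℝ) + 1 + 1) := by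
        rw [sub_nonneg]
        exact one_div_le_one_div_of_le hk (by linarith)
      have h1 : |(1 / ((k:ℝ) + 1) - 1 / ((k:ℝ) + 1 + 1)) * f (k + 1 + 1)|
          ≤ (1 / ((k:ℝ) + 1) - 1 / ((k:ℝ) + 1 + 1)) * B := by
        rw [abs_mul, abs_of_nonneg h0]
        exact mul_le_mul_of_nonneg_left (hB _) h0
      have e2 : B * (1 - 1 / (((k + 1 : ℕ) : ℝ) + 1)) =
          B * (1 - 1 / ((k:ℝ) + 1)) + (1 / ((k:ℝ) + 1) - 1 / ((k:ℝ) + 1 + 1)) * B := by
        push_cast
        ring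
      rw [e2]
      exact add_le_add ih h1
  have h1 := key N
  have hN : (0:ℝ) < (N:ℝ) + 1 := by positivity
  have h2 : |(1 / ((N:ℝ) + 1)) * f (N + 1)| ≤ B := by
    rw [abs_mul, abs_of_nonneg (by positivity : (0:ℝ) ≤ 1 / ((N:ℝ) + 1))]
    have h3 : 1 / ((N:ℝ) + 1) ≤ 1 := by
      rw [div_le_one hN]
      have : (0:ℝ) ≤ (N:ℝ) := Nat.cast_nonneg N
      linarith
    calc 1 / ((N:ℝ) + 1) * |f (N + 1)| ≤ 1 * B :=
          mul_le_mul h3 (hB _) (abs_nonneg _) (by norm_num)
      _ = B := one_mul B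
  have h4 := hB 1
  have h5 : B * (1 - 1 / ((N:ℝ) + 1)) ≤ B := by
    have : 0 ≤ 1 / ((N:ℝ) + 1) := by positivity
    nlinarith
  have h6 := abs_le.mp (h1.trans h5)
  have h7 := abs_le.mp h2
  have h8 := abs_le.mp h4
  rw [abs_le]
  constructor <;> linarith [h6.1, h6.2, h7.1, h7.2, h8.1, h8.2]

private theorem me_dil_eq {p : ℕ} (hp : 0 < p) (f : ℕ → ℝ) (N : ℕ) :
    me_S (fun n => if p ∣ n then (p : ℝ) * f (n / p) else 0) N = me_S f (N / p) := by
  induction N with
  | zero => simp [me_S_zero]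
  | succ k ih =>
    rw [me_S_succ, ih, Nat.succ_div]
    by_cases hd : p ∣ k + 1
    · rw [if_pos hd, if_pos hd, me_S_succ]
      have h1 : (k + 1) / p = k / p + 1 := by rw [Nat.succ_div, if_pos hd]
      have h2 : (k + 1 : ℕ) = p * (k / p + 1) := by
        rw [← h1]
        exact (Nat.mul_div_cancel' hd).symm
      have h3 : ((k:ℝ) + 1) = (p:ℝ) * (((k / p : ℕ) : ℝ) + 1) := by
        have : ((k + 1 : ℕ) : ℝ) = ((p * (k / p + 1) : ℕ) : ℝ) := congrArg _ h2
        push_cast at this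
        exact this
      rw [h3]
      have hp' : (p:ℝ) ≠ 0 := by exact_mod_cast hp.ne'
      have hm : (((k / p : ℕ) : ℝ) + 1) ≠ 0 := by positivity
      field_simp
    · rw [if_neg hd, if_neg hd]
      simp

private theorem me_S_gap {f : ℕ → ℝ} {B : ℝ} (hB : ∀ n, |f n| ≤ B) (m : ℕ) (j : ℕ) :
    |me_S f (m + j) - me_S f m| ≤ B * (j / ((m:ℝ) + 1)) := by
  have hB0 : 0 ≤ B := (abs_nonneg _).trans (hB 0)
  induction j with
  | zero => simp
  | succ k ih =>
    rw [← add_assoc, me_S_succ]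
    have e : me_S f (m + k) + 1 / (((m + k : ℕ) : ℝ) + 1) * f (m + k + 1) - me_S f m =
      (me_S f (m + k) - me_S f m) + 1 / (((m + k : ℕ) : ℝ) + 1) * f (m + k + 1) := by ring
    rw [e]
    refine (abs_add_le _ _).trans ?_
    have hm : (0:ℝ) < (m:ℝ) + 1 := by positivity
    have h1 : |1 / (((m + k : ℕ) : ℝ) + 1) * f (m + k + 1)| ≤ 1 / ((m:ℝ) + 1) * B := by
      rw [abs_mul, abs_of_nonneg (by positivity : (0:ℝ) ≤ 1 / (((m + k : ℕ) : ℝ) + 1))]
      refine mul_le_mul ?_ (hB _) (abs_nonneg _) (by positivity)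
      refine one_div_le_one_div_of_le hm ?_
      push_cast
      have : (0:ℝ) ≤ (k:ℝ) := Nat.cast_nonneg k
      linarith
    have e2 : B * (((k + 1 : ℕ) : ℝ) / ((m:ℝ) + 1)) =
        B * ((k:ℝ) / ((m:ℝ) + 1)) + 1 / ((m:ℝ) + 1) * B := by
      push_cast
      ring
    rw [e2]
    exact add_le_add ih h1

private theorem me_dil {p : ℕ} (hp : 0 < p) {f : ℕ → ℝ} {B : ℝ} (hB : ∀ n, |f n| ≤ B) (N : ℕ) :
    |me_S (fun n => if p ∣ n then (p : ℝ) * f (n / p) else 0) N - me_S f N| ≤ B * p := by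
  have hB0 : 0 ≤ B := (abs_nonneg _).trans (hB 0)
  rw [me_dil_eq hp]
  obtain ⟨j, hj⟩ := Nat.exists_eq_add_of_le (Nat.div_le_self N p)
  have h1 := me_S_gap hB (N / p) j
  rw [← hj] at h1
  rw [abs_sub_comm]
  refine h1.trans (mul_le_mul_of_nonneg_left ?_ hB0)
  have hm : (0:ℝ) < ((N / p : ℕ) : ℝ) + 1 := by positivity
  rw [div_le_iff₀ hm]
  have h2 : N < p * (N / p + 1) := by
    have := Nat.lt_mul_div_succ N hp
    exact this
  have h3 : j ≤ p * (N / p + 1) := by
    have h4 : j ≤ N := by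
      calc j ≤ N / p + j := Nat.le_add_left _ _
        _ = N := hj.symm
    exact h4.trans h2.le
  exact_mod_cast h3

/-- For an ultrafilter finer than `atTop` the limits of the logarithmic means form an `IMean`. -/
theorem exists_imean (U : Ultrafilter ℕ) (hU : (U : Filter ℕ) ≤ atTop) :
    ∃ M : IMean, ∀ f, Bdd f → Tendsto (logMean f) U (𝓝 (M.E f)) := by
  classical
  set L : (ℕ → ℝ) → ℝ := fun f => if h : ∃ x, Tendsto (logMean f) U (𝓝 x) then h.choose else 0
    with hL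
  have hlim : ∀ f, Bdd f → Tendsto (logMean f) U (𝓝 (L f)) := by
    intro f hf
    have h := me_exists_lim U hf
    simp only [hL, dif_pos h]
    exact h.choose_spec
  have huniq : ∀ f, Bdd f → ∀ x, Tendsto (logMean f) U (𝓝 x) → L f = x := fun f hf x hx =>
    tendsto_nhds_unique (hlim f hf) hx
  have hdiff : ∀ f g, Bdd f → Bdd g →
      Tendsto (fun N => logMean f N - logMean g N) atTop (𝓝 0) → L f = L g := by
    intro f g hf hg h
    refine huniq f hf _ ?_
    have := (hlim g hg).add (h.mono_left hU)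
    rw [add_zero] at this
    refine this.congr fun N => ?_
    ring
  refine ⟨⟨L, ?_, ?_, ?_, ?_, ?_, ?_⟩, hlim⟩
  · intro f g hf hg
    refine huniq _ (hf.add hg) _ (((hlim f hf).add (hlim g hg)).congr fun N => ?_)
    rw [me_logMean_eq, me_logMean_eq, me_logMean_eq, me_S_add]
    ring
  · intro c f hf
    refine huniq _ (hf.smul c) _ (((hlim f hf).const_mul c).congr fun N => ?_)
    rw [me_logMean_eq, me_logMean_eq, me_S_smul]
    ring
  · intro f g hf hg h
    have h1 : Tendsto (logMean (fun n => g n - f n)) U (𝓝 (L g - L f)) := by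
      refine ((hlim g hg).sub (hlim f hf)).congr fun N => ?_
      rw [me_logMean_eq, me_logMean_eq, me_logMean_eq, me_S_sub]
      ring
    have h2 := me_nonneg U hU (h.mono fun n hn => sub_nonneg.mpr hn) h1
    linarith
  · exact huniq _ (Bdd.const 1) _ (me_one.mono_left hU)
  · intro f hf
    obtain ⟨B, hB⟩ := hf
    exact hdiff _ _ ⟨B, fun n => hB (n + 1)⟩ ⟨B, hB⟩ (me_diff (me_shift hB))
  · intro p hp f hf
    obtain ⟨B, hB⟩ := hf
    have hB0 : 0 ≤ B := (abs_nonneg _).trans (hB 0)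
    refine hdiff _ _ ⟨(p:ℝ) * B, fun n => ?_⟩ ⟨B, hB⟩ (me_diff (me_dil hp hB))
    dsimp only
    split_ifs
    · rw [abs_mul, abs_of_nonneg (Nat.cast_nonneg p)]
      exact mul_le_mul_of_nonneg_left (hB _) (Nat.cast_nonneg p)
    · rw [abs_zero]
      positivity

/-- If every invariant mean kills the bounded function `f`, its log means tend to zero. -/
theorem tendsto_of_imean {f : ℕ → ℝ} (hf : Bdd f) (h : ∀ M : IMean, M.E f = 0) :
    Tendsto (logMean f) atTop (𝓝 0) := by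
  rw [Metric.tendsto_atTop]
  by_contra hcon
  push Not at hcon
  obtain ⟨ε, hε, hfreq⟩ := hcon
  set s : Set ℕ := {N | ε ≤ dist (logMean f N) 0} with hs
  have hne : (atTop ⊓ 𝓟 s : Filter ℕ).NeBot := by
    rw [inf_principal_neBot_iff]
    intro t ht
    obtain ⟨n0, hn0⟩ := mem_atTop_sets.mp ht
    obtain ⟨N, hN, hN2⟩ := hfreq n0
    exact ⟨N, hn0 N hN, hN2⟩
  set U : Ultrafilter ℕ := Ultrafilter.of (atTop ⊓ 𝓟 s) with hU
  have h1 : (U : Filter ℕ) ≤ atTop ⊓ 𝓟 s := Ultrafilter.of_le _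
  obtain ⟨M, hM⟩ := exists_imean U (h1.trans inf_le_left)
  have h2 := hM f hf
  rw [h M] at h2
  have h3 : ∀ᶠ N in (U : Filter ℕ), ε ≤ dist (logMean f N) 0 := by
    have : s ∈ (U : Filter ℕ) := h1 (mem_inf_of_right (mem_principal_self s))
    exact this
  have h4 : ∀ᶠ N in (U : Filter ℕ), dist (logMean f N) 0 < ε := h2 (Metric.ball_mem_nhds 0 hε)
  obtain ⟨N, hN1, hN2⟩ := (h3.and h4).exists
  exact absurd hN1 (not_le.mpr hN2)

end Pool.MP_67663b_nt.Odd
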