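import Pool.Agent.Lib.MP_67663b_nt.Odd.WPNT2

set_option autoImplicit false
open Filter Topology ArithmeticFunction
namespace Pool.MP_67663b_nt.Odd

theorem wpnt_fej_lower {T : ℝ} (hT : 0 < T) {u : ℝ} (hu : |u| ≤ 1 / T) :
    T * (225 / 256) ≤ fej T u := by
  unfold fej
  refine mul_le_mul_of_nonneg_left ?_ hT.le
  have hx : |T * u / 2| ≤ 1 / 2 := by
    rw [abs_div, abs_mul, abs_of_pos hT, abs_two]
    have : T * |u| ≤ 1 := by
      calc T * |u| ≤ T * (1 / T) := mul_le_mul_of_nonneg_left hu hT.le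
        _ = 1 := by field_simp
    linarith
  generalize T * u / 2 = x at hx
  have key : ∀ z : ℝ, 0 < z → z ≤ 1 / 2 → 15 / 16 ≤ Real.sinc z := by
    intro z hz0 hz1
    rw [Real.sinc_of_ne_zero hz0.ne', le_div_iff₀ hz0]
    have := Real.sin_gt_sub_cube hz0
    nlinarith [mul_pos hz0 hz0]
  have h1 : 15 / 16 ≤ Real.sinc x := by
    rcases lt_trichotomy x 0 with h | h | h
    · rw [← Real.sinc_neg]
      exact key (-x) (by linarith) (by rw [abs_of_neg h] at hx; exact hx)
    · rw [h, Real.sinc_zero]; norm_num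
    · exact key x h (by rw [abs_of_pos h] at hx; exact hx)
  nlinarith

theorem wpnt_one_summable {T : ℝ} (hT : 0 < T) (y : ℝ) :
    Summable (fun n : ℕ => 1 / (n : ℝ) * fej T (y - Real.log n)) := by
  refine Summable.of_nonneg_of_le ?_ ?_ (fej_summable hT y)
  · intro n
    exact mul_nonneg (by positivity) (wpnt1_fej_nonneg hT _)
  · intro n
    refine mul_le_mul_of_nonneg_right ?_ (wpnt1_fej_nonneg hT _)
    apply div_le_div_of_nonneg_right _ (Nat.cast_nonneg n)
    linarith [vonMangoldt_nonneg (n := n)]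

theorem wpnt_lam_summable {T : ℝ} (hT : 0 < T) (y : ℝ) :
    Summable (fun n : ℕ => vonMangoldt n / (n : ℝ) * fej T (y - Real.log n)) := by
  refine Summable.of_nonneg_of_le ?_ ?_ (fej_summable hT y)
  · intro n
    exact mul_nonneg (div_nonneg vonMangoldt_nonneg (Nat.cast_nonneg n)) (wpnt1_fej_nonneg hT _)
  · intro n
    refine mul_le_mul_of_nonneg_right ?_ (wpnt1_fej_nonneg hT _)
    apply div_le_div_of_nonneg_right _ (Nat.cast_nonneg n)
    linarith

theorem wpnt_one_lower {T : ℝ} (hT : 16 ≤ T) : ∀ᶠ y : ℝ in atTop,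
    3 / 4 ≤ ∑' n : ℕ, 1 / (n : ℝ) * fej T (y - Real.log n) := by
  have hT0 : 0 < T := by linarith
  have hev : ∀ᶠ y : ℝ in atTop, Real.exp (-y) ≤ 1 / (32 * T) :=
    (Real.tendsto_exp_neg_atTop_nhds_zero).eventually_le_const (by positivity)
  filter_upwards [hev] with y hy
  set s : Finset ℕ := Finset.Ioc ⌊Real.exp y⌋₊ ⌊Real.exp (y + 1 / T)⌋₊ with hs
  have h1 : ∑ n ∈ s, 1 / (n : ℝ) * fej T (y - Real.log n) ≤
      ∑' n : ℕ, 1 / (n : ℝ) * fej T (y - Real.log n) :=
    (wpnt_one_summable hT0 y).sum_le_tsum _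
      (fun n _ => mul_nonneg (by positivity) (wpnt1_fej_nonneg hT0 _))
  refine le_trans ?_ h1
  have hterm : ∀ n ∈ s, Real.exp (-(y + 1 / T)) * (T * (225 / 256)) ≤
      1 / (n : ℝ) * fej T (y - Real.log n) := by
    intro n hn
    rw [hs, Finset.mem_Ioc] at hn
    obtain ⟨hn1, hn2⟩ := hn
    have hn3 : Real.exp y < n := Nat.lt_of_floor_lt hn1
    have hn4 : (n : ℝ) ≤ Real.exp (y + 1 / T) := by
      refine le_trans ?_ (Nat.floor_le (Real.exp_pos _).le)
      exact_mod_cast hn2
    have hn0 : (0 : ℝ) < n := lt_trans (Real.exp_pos _) hn3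
    have hl1 : y < Real.log n := (Real.lt_log_iff_exp_lt hn0).mpr hn3
    have hl2 : Real.log n ≤ y + 1 / T := (Real.log_le_iff_le_exp hn0).mpr hn4
    have hu : |y - Real.log n| ≤ 1 / T := by
      rw [abs_sub_comm, abs_of_nonneg (by linarith)]
      linarith
    have hA : Real.exp (-(y + 1 / T)) ≤ 1 / (n : ℝ) := by
      rw [Real.exp_neg, ← one_div]
      exact one_div_le_one_div_of_le hn0 hn4
    exact mul_le_mul hA (wpnt_fej_lower hT0 hu) (by positivity) (by positivity)
  have hcard : Real.exp (y + 1 / T) - Real.exp y - 1 ≤ (s.card : ℝ) := by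
    rw [hs, Nat.card_Ioc]
    have a1 : Real.exp (y + 1 / T) < ⌊Real.exp (y + 1 / T)⌋₊ + 1 := Nat.lt_floor_add_one _
    have a2 : (⌊Real.exp y⌋₊ : ℝ) ≤ Real.exp y := Nat.floor_le (Real.exp_pos _).le
    have a3 : (⌊Real.exp (y + 1 / T)⌋₊ : ℝ) - ⌊Real.exp y⌋₊ ≤
        ((⌊Real.exp (y + 1 / T)⌋₊ - ⌊Real.exp y⌋₊ : ℕ) : ℝ) := by
      rw [sub_le_iff_le_add]
      norm_cast
      omega
    linarith
  calc (3 / 4 : ℝ) ≤ (1 - 1 / (1 + 1 / T) - 1 / (32 * T)) * (T * (225 / 256)) := by
        have e : (1 - 1 / (1 + 1 / T) - 1 / (32 * T)) * (T * (225 / 256)) =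
            (T / (T + 1) - 1 / 32) * (225 / 256) := by
          field_simp
          ring
        rw [e]
        have : 16 / 17 ≤ T / (T + 1) := by
          rw [div_le_div_iff₀ (by norm_num) (by linarith)]
          linarith
        nlinarith
    _ ≤ ((Real.exp (y + 1 / T) - Real.exp y - 1) * Real.exp (-(y + 1 / T))) *
        (T * (225 / 256)) := by
        refine mul_le_mul_of_nonneg_right ?_ (by positivity)
        have e : (Real.exp (y + 1 / T) - Real.exp y - 1) * Real.exp (-(y + 1 / T)) =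
            1 - Real.exp (-(1 / T)) - Real.exp (-(y + 1 / T)) := by
          rw [sub_mul, sub_mul, ← Real.exp_add, ← Real.exp_add]
          congr 1
          · congr 1
            · rw [add_neg_cancel, Real.exp_zero]
            · congr 1; ring
          · rw [one_mul]
        rw [e]
        have b1 : Real.exp (-(1 / T)) ≤ 1 / (1 + 1 / T) := by
          rw [Real.exp_neg, ← one_div]
          apply one_div_le_one_div_of_le (by positivity)
          linarith [Real.add_one_le_exp (1 / T)]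
        have b2 : Real.exp (-(y + 1 / T)) ≤ 1 / (32 * T) := by
          refine le_trans ?_ hy
          apply Real.exp_le_exp.mpr
          have : 0 < 1 / T := by positivity
          linarith
        linarith
    _ ≤ (s.card * Real.exp (-(y + 1 / T))) * (T * (225 / 256)) := by
        refine mul_le_mul_of_nonneg_right ?_ (by positivity)
        exact mul_le_mul_of_nonneg_right hcard (Real.exp_pos _).le
    _ = ∑ n ∈ s, Real.exp (-(y + 1 / T)) * (T * (225 / 256)) := by
        rw [Finset.sum_const, nsmul_eq_mul]; ring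
    _ ≤ ∑ n ∈ s, 1 / (n : ℝ) * fej T (y - Real.log n) := Finset.sum_le_sum hterm

theorem wpnt_psi_diff {a b : ℝ} (hab : a ≤ b) :
    Chebyshev.psi b - Chebyshev.psi a = ∑ n ∈ Finset.Ioc ⌊a⌋₊ ⌊b⌋₊, vonMangoldt n := by
  unfold Chebyshev.psi
  rw [← Finset.sum_Ioc_consecutive _ (Nat.zero_le ⌊a⌋₊) (Nat.floor_le_floor hab)]
  ring

theorem psi_window {η : ℝ} (hη : 0 < η) : ∃ c : ℝ, 0 < c ∧ ∀ᶠ x : ℝ in atTop,
    c * x ≤ Chebyshev.psi ((1 + η) * x) - Chebyshev.psi x := by
  obtain ⟨C, hC, htail⟩ := fej_tail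
  have hl : 0 < Real.log (1 + η) := Real.log_pos (by linarith)
  set δ : ℝ := min 1 (Real.log (1 + η) / 3) with hδ
  have hδ0 : 0 < δ := lt_min one_pos (by positivity)
  have hδ1 : δ ≤ 1 := min_le_left _ _
  have hδ2 : Real.exp (3 * δ) ≤ 1 + η := by
    rw [← Real.exp_log (show (0 : ℝ) < 1 + η by linarith)]
    apply Real.exp_le_exp.mpr
    have : δ ≤ Real.log (1 + η) / 3 := min_le_right _ _
    linarith
  set T : ℝ := max 16 (4 * C / δ ^ 2) with hT
  have hT16 : 16 ≤ T := le_max_left _ _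
  have hT0 : 0 < T := by linarith
  have hTC : C / (T * δ ^ 2) ≤ 1 / 4 := by
    have : 4 * C / δ ^ 2 ≤ T := le_max_right _ _
    rw [div_le_iff₀ (by positivity)] at this
    rw [div_le_div_iff₀ (by positivity) (by norm_num)]
    linarith
  have hev1 := wpnt_one_lower hT16
  have hev2 : ∀ᶠ y : ℝ in atTop,
      -(1 / 4) ≤ ∑' n : ℕ, (vonMangoldt n - 1) / (n : ℝ) * fej T (y - Real.log n) :=
    (fej_tendsto hT0).eventually_const_le (by norm_num)
  have hty : Tendsto (fun x : ℝ => Real.log x + 2 * δ) atTop atTop :=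
    tendsto_atTop_add_const_right _ _ Real.tendsto_log_atTop
  refine ⟨1 / (4 * T), by positivity, ?_⟩
  filter_upwards [hty.eventually hev1, hty.eventually hev2, eventually_gt_atTop 0]
    with x h1 h2 hx
  set y : ℝ := Real.log x + 2 * δ with hy
  have hexp1 : Real.exp (y - δ) = x * Real.exp δ := by
    rw [hy, show Real.log x + 2 * δ - δ = Real.log x + δ by ring, Real.exp_add, Real.exp_log hx]
  have hexp2 : Real.exp (y + δ) = x * Real.exp (3 * δ) := by
    rw [hy, show Real.log x + 2 * δ + δ = Real.log x + 3 * δ by ring, Real.exp_add,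
      Real.exp_log hx]
  have hS1 := wpnt_one_summable hT0 y
  have hS2 := wpnt_lam_summable hT0 y
  have hsub : ∑' n : ℕ, (vonMangoldt n - 1) / (n : ℝ) * fej T (y - Real.log n) =
      ∑' n : ℕ, vonMangoldt n / (n : ℝ) * fej T (y - Real.log n) -
        ∑' n : ℕ, 1 / (n : ℝ) * fej T (y - Real.log n) := by
    rw [← hS2.tsum_sub hS1]
    refine tsum_congr fun n => ?_
    ring
  have hlam : 1 / 2 ≤ ∑' n : ℕ, vonMangoldt n / (n : ℝ) * fej T (y - Real.log n) := by
    linarith
  -- split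
  have hSout : Summable (fun n : ℕ => if δ < |y - Real.log n| then
      vonMangoldt n / (n : ℝ) * fej T (y - Real.log n) else 0) := by
    refine Summable.of_nonneg_of_le ?_ ?_ hS2
    · intro n
      split_ifs
      · exact mul_nonneg (div_nonneg vonMangoldt_nonneg (Nat.cast_nonneg n))
          (wpnt1_fej_nonneg hT0 _)
      · exact le_rfl
    · intro n
      split_ifs
      · exact le_rfl
      · exact mul_nonneg (div_nonneg vonMangoldt_nonneg (Nat.cast_nonneg n))
          (wpnt1_fej_nonneg hT0 _)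
  have hSout' : Summable (fun n : ℕ => if δ < |y - Real.log n| then
      (vonMangoldt n + 1) / (n : ℝ) * fej T (y - Real.log n) else 0) := by
    refine Summable.of_nonneg_of_le ?_ ?_ (fej_summable hT0 y)
    · intro n
      split_ifs
      · exact mul_nonneg (div_nonneg (add_nonneg vonMangoldt_nonneg zero_le_one)
          (Nat.cast_nonneg n)) (wpnt1_fej_nonneg hT0 _)
      · exact le_rfl
    · intro n
      split_ifs
      · exact le_rfl
      · exact mul_nonneg (div_nonneg (add_nonneg vonMangoldt_nonneg zero_le_one)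
          (Nat.cast_nonneg n)) (wpnt1_fej_nonneg hT0 _)
  have hout : ∑' n : ℕ, (if δ < |y - Real.log n| then
      vonMangoldt n / (n : ℝ) * fej T (y - Real.log n) else 0) ≤ 1 / 4 := by
    refine le_trans ?_ ((htail T hT0 δ hδ0 hδ1 y).trans hTC)
    refine hSout.tsum_le_tsum (fun n => ?_) hSout'
    split_ifs
    · refine mul_le_mul_of_nonneg_right ?_ (wpnt1_fej_nonneg hT0 _)
      apply div_le_div_of_nonneg_right _ (Nat.cast_nonneg n)
      linarith
    · exact le_rfl
  have hsplit : ∑' n : ℕ, vonMangoldt n / (n : ℝ) * fej T (y - Real.log n) -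
      ∑' n : ℕ, (if δ < |y - Real.log n| then
        vonMangoldt n / (n : ℝ) * fej T (y - Real.log n) else 0) =
      ∑' n : ℕ, (if δ < |y - Real.log n| then 0 else
        vonMangoldt n / (n : ℝ) * fej T (y - Real.log n)) := by
    rw [← hS2.tsum_sub hSout]
    refine tsum_congr fun n => ?_
    split_ifs <;> ring
  have hin : 1 / 4 ≤ ∑' n : ℕ, (if δ < |y - Real.log n| then 0 else
        vonMangoldt n / (n : ℝ) * fej T (y - Real.log n)) := by
    rw [← hsplit]; linarith
  -- the inside sum is a finite sum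
  have hη1 : x ≤ (1 + η) * x := by nlinarith
  set s : Finset ℕ := Finset.Ioc ⌊x⌋₊ ⌊(1 + η) * x⌋₊ with hs
  have hfin : ∑' n : ℕ, (if δ < |y - Real.log n| then 0 else
        vonMangoldt n / (n : ℝ) * fej T (y - Real.log n)) =
      ∑ n ∈ s, (if δ < |y - Real.log n| then 0 else
        vonMangoldt n / (n : ℝ) * fej T (y - Real.log n)) := by
    apply tsum_eq_sum
    intro n hn
    split_ifs with hc
    · rfl
    · rcases Nat.eq_zero_or_pos n with h0 | h0
      · rw [h0]; simp
      · exfalso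
        apply hn
        push Not at hc
        have hn0 : (0 : ℝ) < n := by exact_mod_cast h0
        obtain ⟨c1, c2⟩ := abs_le.mp hc
        have d1 : Real.exp (y - δ) ≤ n := by
          rw [← Real.exp_log hn0]; exact Real.exp_le_exp.mpr (by linarith)
        have d2 : (n : ℝ) ≤ Real.exp (y + δ) := by
          rw [← Real.exp_log hn0]; exact Real.exp_le_exp.mpr (by linarith)
        rw [hexp1] at d1
        rw [hexp2] at d2
        have d3 : x < n := by
          refine lt_of_lt_of_le ?_ d1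
          have : 1 < Real.exp δ := Real.one_lt_exp_iff.mpr hδ0
          nlinarith
        have d4 : (n : ℝ) ≤ (1 + η) * x := by nlinarith
        rw [hs, Finset.mem_Ioc]
        exact ⟨(Nat.floor_lt hx.le).mpr d3, Nat.le_floor d4⟩
  rw [hfin] at hin
  have hbound : ∑ n ∈ s, (if δ < |y - Real.log n| then 0 else
        vonMangoldt n / (n : ℝ) * fej T (y - Real.log n)) ≤
      ∑ n ∈ s, vonMangoldt n * (T / x) := by
    refine Finset.sum_le_sum fun n hn => ?_
    rw [hs, Finset.mem_Ioc] at hn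
    have hn1 : x < n := Nat.lt_of_floor_lt hn.1
    split_ifs
    · exact mul_nonneg vonMangoldt_nonneg (by positivity)
    · rw [div_mul_eq_mul_div, mul_div_assoc]
      refine mul_le_mul_of_nonneg_left ?_ vonMangoldt_nonneg
      calc fej T (y - Real.log n) / n ≤ T / n :=
            div_le_div_of_nonneg_right (wpnt1_fej_le hT0 _) (Nat.cast_nonneg n)
        _ ≤ T / x := div_le_div_of_nonneg_left hT0.le hx hn1.le
  rw [← Finset.sum_mul, ← wpnt_psi_diff hη1] at hbound
  have hfinal := hin.trans hbound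
  have e : 1 / (4 * T) * x = 1 / 4 * (x / T) := by field_simp
  rw [e]
  calc 1 / 4 * (x / T) ≤ ((Chebyshev.psi ((1 + η) * x) - Chebyshev.psi x) * (T / x)) *
        (x / T) := mul_le_mul_of_nonneg_right hfinal (by positivity)
    _ = Chebyshev.psi ((1 + η) * x) - Chebyshev.psi x := by
        field_simp

/-- Weak prime number theorem in short multiplicative intervals. -/
theorem weak_pnt {η : ℝ} (hη : 0 < η) : ∃ c : ℝ, 0 < c ∧ ∃ m0 : ℕ, ∀ m ≥ m0,
    c * 2 ^ m ≤ m * (((Finset.Ico (2 ^ m) (2 ^ (m + 1))).filter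
      (fun p : ℕ => p.Prime ∧ (p : ℝ) ≤ (1 + η) * 2 ^ m)).card : ℝ) := by
  set η' : ℝ := min η (1 / 2) with hη'
  have hη'0 : 0 < η' := lt_min hη (by norm_num)
  have hη'1 : η' ≤ η := min_le_left _ _
  have hη'2 : η' ≤ 1 / 2 := min_le_right _ _
  obtain ⟨c, hc, hwin⟩ := psi_window hη'0
  obtain ⟨C, hC⟩ := Chebyshev.psi_sub_theta_le_mul_sqrt
  have hsq : ∀ᶠ x : ℝ in atTop, C * Real.sqrt ((1 + η') * x) ≤ c / 2 * x := by
    have h1 : ∀ᶠ x : ℝ in atTop, (2 * |C| / c) ^ 2 * 2 ≤ x := eventually_ge_atTop _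
    filter_upwards [h1, eventually_gt_atTop 0] with x hx1 hx0
    have h2 : C * Real.sqrt ((1 + η') * x) ≤ |C| * Real.sqrt (2 * x) := by
      refine mul_le_mul (le_abs_self C) (Real.sqrt_le_sqrt ?_) (Real.sqrt_nonneg _)
        (abs_nonneg _)
      nlinarith
    have h3 : |C| * Real.sqrt (2 * x) ≤ c / 2 * x := by
      have h4 : 2 * |C| / c * Real.sqrt (2 * x) ≤ x := by
        have h5 : (2 * |C| / c * Real.sqrt (2 * x)) ^ 2 ≤ x ^ 2 := by
          rw [mul_pow, Real.sq_sqrt (by positivity)]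
          nlinarith
        exact (abs_le_of_sq_le_sq' h5 hx0.le).2
      calc |C| * Real.sqrt (2 * x) = c / 2 * (2 * |C| / c * Real.sqrt (2 * x)) := by
            field_simp
        _ ≤ c / 2 * x := mul_le_mul_of_nonneg_left h4 (by positivity)
    exact h2.trans h3
  have htend : Tendsto (fun m : ℕ => (2 : ℝ) ^ m) atTop atTop :=
    tendsto_pow_atTop_atTop_of_one_lt one_lt_two
  obtain ⟨m0, hm0⟩ := eventually_atTop.mp
    ((htend.eventually hwin).and ((htend.eventually hsq).and (eventually_ge_atTop 1)))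
  refine ⟨c / 4, by positivity, m0, ?_⟩
  intro m hm
  obtain ⟨h1, h2, h3⟩ := hm0 m hm
  set x : ℝ := (2 : ℝ) ^ m with hx
  have hx0 : 0 < x := by positivity
  set S := (Finset.Ico (2 ^ m) (2 ^ (m + 1))).filter
      (fun p : ℕ => p.Prime ∧ (p : ℝ) ≤ (1 + η) * 2 ^ m) with hS
  have hxle : x ≤ (1 + η') * x := by nlinarith
  have hth : c / 2 * x ≤ Chebyshev.theta ((1 + η') * x) - Chebyshev.theta x := by
    have a1 := hC ((1 + η') * x)
    have a2 := Chebyshev.theta_le_psi x
    linarith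
  have hdiff : Chebyshev.theta ((1 + η') * x) - Chebyshev.theta x ≤
      S.card * ((m + 1 : ℝ) * Real.log 2) := by
    have hfl : ⌊x⌋₊ = 2 ^ m := by
      rw [hx]
      exact_mod_cast Nat.floor_natCast (R := ℝ) (2 ^ m)
    have e1 : Chebyshev.theta ((1 + η') * x) - Chebyshev.theta x =
        ∑ p ∈ (Finset.Ioc ⌊x⌋₊ ⌊(1 + η') * x⌋₊).filter Nat.Prime, Real.log p := by
      unfold Chebyshev.theta
      rw [Finset.sum_filter, Finset.sum_filter, Finset.sum_filter,
        ← Finset.sum_Ioc_consecutive _ (Nat.zero_le ⌊x⌋₊) (Nat.floor_le_floor hxle)]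
      ring
    rw [e1]
    have hsub : (Finset.Ioc ⌊x⌋₊ ⌊(1 + η') * x⌋₊).filter Nat.Prime ⊆ S := by
      intro p hp
      rw [Finset.mem_filter, Finset.mem_Ioc, hfl] at hp
      obtain ⟨⟨p1, p2⟩, p3⟩ := hp
      have p4 : (p : ℝ) ≤ (1 + η') * x := (Nat.le_floor_iff (by positivity)).mp p2
      rw [hS, Finset.mem_filter, Finset.mem_Ico]
      refine ⟨⟨p1.le, ?_⟩, p3, ?_⟩
      · have : (p : ℝ) < (2 : ℝ) ^ (m + 1) := by
          rw [pow_succ]
          rw [← hx]
          nlinarith
        exact_mod_cast this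
      · rw [← hx]
        nlinarith
    calc ∑ p ∈ (Finset.Ioc ⌊x⌋₊ ⌊(1 + η') * x⌋₊).filter Nat.Prime, Real.log p
        ≤ ∑ p ∈ S, Real.log p := by
          refine Finset.sum_le_sum_of_subset_of_nonneg hsub (fun p _ _ => ?_)
          exact Real.log_natCast_nonneg p
      _ ≤ ∑ _p ∈ S, ((m + 1 : ℝ) * Real.log 2) := by
          refine Finset.sum_le_sum fun p hp => ?_
          rw [hS, Finset.mem_filter, Finset.mem_Ico] at hp
          have hp1 : (p : ℝ) ≤ (2 : ℝ) ^ (m + 1) := by exact_mod_cast hp.1.2.le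
          have hp0 : (0 : ℝ) < p := by exact_mod_cast hp.2.1.pos
          calc Real.log p ≤ Real.log ((2 : ℝ) ^ (m + 1)) := Real.log_le_log hp0 hp1
            _ = (m + 1 : ℝ) * Real.log 2 := by rw [Real.log_pow]; push_cast; ring
      _ = S.card * ((m + 1 : ℝ) * Real.log 2) := by
          rw [Finset.sum_const, nsmul_eq_mul]
  have hm1 : (1 : ℝ) ≤ m := by exact_mod_cast h3
  have hlog2 : Real.log 2 ≤ 1 := by
    have := Real.log_two_lt_d9; linarith
  have hlog20 : 0 < Real.log 2 := Real.log_pos (by norm_num)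
  have hcard0 : (0 : ℝ) ≤ S.card := Nat.cast_nonneg _
  have hk : (m + 1 : ℝ) * Real.log 2 ≤ 2 * m := by nlinarith
  have := mul_le_mul_of_nonneg_left hk hcard0
  nlinarith

end Pool.MP_67663b_nt.Odd
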