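import Pool.Agent.Lib.MP_67663b_nt.Odd.WordsDefs

set_option autoImplicit false
open Filter Topology
namespace Pool.MP_67663b_nt.Odd

variable {I : Type} [Fintype I] [DecidableEq I]

private theorem bt_dil {a : ℝ} {p m : ℕ} (hp : 0 < p) : bt a (p * m) / p = bt a m := by
  unfold bt
  rw [← Nat.floor_div_natCast]
  congr 1
  have : (p : ℝ) ≠ 0 := by exact_mod_cast hp.ne'
  push_cast
  field_simp

private theorem eventually_le_bt {a : ℝ} (ha : 0 < a) (K : ℕ) : ∀ᶠ n : ℕ in atTop, K ≤ bt a n := by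
  filter_upwards [eventually_ge_atTop ⌈(K : ℝ) / a⌉₊] with n hn
  unfold bt
  apply Nat.le_floor
  have h1 : (K : ℝ) / a ≤ n := (Nat.le_ceil _).trans (by exact_mod_cast hn)
  rwa [div_le_iff₀' ha] at h1

private theorem av_eq_neg_avp {p x m b : ℕ} (hp : p.Prime) (hb : b / p = m) (hm : x ≤ m) :
    av x m = - avp p x b := by
  unfold av avp
  rw [← mul_neg, ← Finset.sum_neg_distrib]
  congr 1
  apply Finset.sum_congr rfl
  intro s hs
  rw [Finset.mem_range] at hs
  have h1 : b - b % p - p * s = p * (m - s) := by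
    have h2 : p * m + b % p = b := by rw [← hb]; exact Nat.div_add_mod b p
    rw [Nat.mul_sub]
    omega
  rw [h1, lam_mul hp.ne_zero (by omega), lam_prime hp]
  ring

/-- The dilation identity. -/
theorem gg_dilate (M : IMean) (α : I → ℝ) (hα : ∀ i, 0 < α i) {p x : ℕ} (hp : p.Prime)
    (hx : 0 < x) :
    gg M α x = (-1) ^ (Fintype.card I + 1) * M.E (phi α p x) := by
  rw [← M.smul _ _ (bdd_phi α p x)]
  unfold gg
  rw [← M.dil p hp.pos _ (bdd_gg α x)]
  have hev : ∀ᶠ n : ℕ in atTop, ∀ i, x * p ≤ bt (α i) n :=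
    eventually_all.mpr fun i => eventually_le_bt (hα i) (x * p)
  refine M.congr (Bdd.ite _ ?_ (Bdd.const 0)) ((bdd_phi α p x).smul _) ?_
  · exact ((bdd_gg α x).comp (fun n => n / p)).smul _
  · filter_upwards [hev, eventually_gt_atTop 0] with n hn hn0
    unfold phi
    split_ifs with hd
    · obtain ⟨m, rfl⟩ := hd
      have hm : m ≠ 0 := by
        rintro rfl
        simp at hn0
      rw [Nat.mul_div_cancel_left m hp.pos, lam_mul hp.ne_zero hm, lam_prime hp]
      have h1 : ∀ i, av x (bt (α i) m) = - avp p x (bt (α i) (p * m)) := by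
        intro i
        refine av_eq_neg_avp hp (bt_dil hp.pos) ?_
        rw [← bt_dil (a := α i) (m := m) hp.pos]
        exact (Nat.le_div_iff_mul_le hp.pos).mpr (hn i)
      simp only [h1, Finset.prod_neg, Finset.card_univ]
      ring
    · simp

end Pool.MP_67663b_nt.Odd
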