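import Pool.Agent.Lib.MP_67663b_nt.Odd.EntBasic

set_option autoImplicit false
open Filter Topology
namespace Pool.MP_67663b_nt.Odd

private theorem ed_range_pair {A B : Type*} {X : ℕ → A} {Y : ℕ → B}
    (hX : (Set.range X).Finite) (hY : (Set.range Y).Finite) :
    (Set.range (fun n => (X n, Y n))).Finite := by
  refine (hX.prod hY).subset ?_
  rintro _ ⟨n, rfl⟩
  exact ⟨⟨n, rfl⟩, ⟨n, rfl⟩⟩

/-- doubling the word -/
private theorem ed_double (M : IMean) {W V : Type*} {x x2 : ℕ → W} {Z : ℕ → V}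
    (hx : (Set.range x).Finite) (hZ : (Set.range Z).Finite) (h : ℕ)
    (hF : ∃ F : W → W → W, ∀ n, x2 n = F (x n) (x (n + h)))
    (hG : ∃ G : V → W → V, ∀ n, Z (n + h) = G (Z n) (x n)) :
    M.H (fun n => (x2 n, Z n)) - M.H Z ≤ 2 * (M.H (fun n => (x n, Z n)) - M.H Z) := by
  obtain ⟨F, hF⟩ := hF
  obtain ⟨G, hG⟩ := hG
  have hx' : (Set.range (fun n => x (n + h))).Finite :=
    hx.subset (by rintro _ ⟨n, rfl⟩; exact ⟨n + h, rfl⟩)
  have hZ' : (Set.range (fun n => Z (n + h))).Finite :=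
    hZ.subset (by rintro _ ⟨n, rfl⟩; exact ⟨n + h, rfl⟩)
  have hxZ := ed_range_pair hx hZ
  have hsub := M.H_submod (X := fun n => (x n, Z n)) (Y := fun n => x (n + h))
    (Z := fun n => Z (n + h)) hxZ hx' hZ'
  have h1 : M.H (fun n => (x2 n, Z n)) ≤
      M.H (fun n => ((x n, Z n), x (n + h), Z (n + h))) := by
    have := M.H_comp_le (X := fun n => ((x n, Z n), x (n + h), Z (n + h)))
      (ed_range_pair hxZ (ed_range_pair hx' hZ'))
      (fun t : (W × V) × W × V => (F t.1.1 t.2.1, t.1.2))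
    refine le_trans (le_of_eq ?_) this
    congr 1
    funext n
    simp [hF]
  have h2 : M.H (fun n => ((x n, Z n), Z (n + h))) ≤ M.H (fun n => (x n, Z n)) := by
    have := M.H_comp_le (X := fun n => (x n, Z n)) hxZ
      (fun t : W × V => (t, G t.2 t.1))
    refine le_trans (le_of_eq ?_) this
    congr 1
    funext n
    simp [hG]
  have h3 : M.H (fun n => (x (n + h), Z (n + h))) = M.H (fun n => (x n, Z n)) :=
    M.H_shift (fun n => (x n, Z n)) h
  have h4 : M.H (fun n => Z (n + h)) = M.H Z := M.H_shift Z h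
  rw [h3, h4] at hsub
  linarith

/-- adding one prime -/
private theorem ed_add (M : IMean) {W V : Type*} {x : ℕ → W} {Zp ZQ ZpQ : ℕ → V}
    (hx : (Set.range x).Finite) (hp : (Set.range Zp).Finite) (hQ : (Set.range ZQ).Finite)
    (hF : ∃ F : V → V → V, ∀ n, ZpQ n = F (Zp n) (ZQ n))
    (hadd : M.H ZpQ = M.H Zp + M.H ZQ) :
    M.H x + M.H Zp - M.H (fun n => (x n, Zp n)) ≤
      (M.H (fun n => (x n, ZQ n)) - M.H ZQ) - (M.H (fun n => (x n, ZpQ n)) - M.H ZpQ) := by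
  obtain ⟨F, hF⟩ := hF
  have hsub := M.H_submod (X := Zp) (Y := ZQ) (Z := x) hp hQ hx
  have h1 : M.H (fun n => (x n, ZpQ n)) ≤ M.H (fun n => (Zp n, ZQ n, x n)) := by
    have := M.H_comp_le (X := fun n => (Zp n, ZQ n, x n))
      (ed_range_pair hp (ed_range_pair hQ hx))
      (fun t : V × V × W => (t.2.2, F t.1 t.2.1))
    refine le_trans (le_of_eq ?_) this
    congr 1
    funext n
    simp [hF]
  have h2 : M.H (fun n => (Zp n, x n)) ≤ M.H (fun n => (x n, Zp n)) :=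
    M.H_comp_le (X := fun n => (x n, Zp n)) (ed_range_pair hx hp) Prod.swap
  have h3 : M.H (fun n => (ZQ n, x n)) ≤ M.H (fun n => (x n, ZQ n)) :=
    M.H_comp_le (X := fun n => (x n, ZQ n)) (ed_range_pair hx hQ) Prod.swap
  rw [hadd]
  linarith

/-- adding a set of primes -/
private theorem ed_add_set (M : IMean) {W V : Type*} {x : ℕ → W} (Z : ℕ → ℕ → V) (D : ℝ)
    (hx : (Set.range x).Finite) (hZfin : ∀ Q, 0 < Q → (Set.range (Z Q)).Finite)
    (hZmul : ∀ p Q, 0 < p → 0 < Q → Nat.Coprime p Q →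
      ∃ F : V → V → V, ∀ n, Z (p * Q) n = F (Z p n) (Z Q n))
    (hZH : ∀ Q, 0 < Q → M.H (Z Q) = D * Real.log Q)
    (T S : Finset ℕ) (hT : ∀ p ∈ T, p.Prime) (hS : ∀ p ∈ S, p.Prime) (hd : Disjoint T S) :
    ∑ p ∈ S, (M.H x + M.H (Z p) - M.H (fun n => (x n, Z p n))) ≤
      (M.H (fun n => (x n, Z (∏ p ∈ T, p) n)) - M.H (Z (∏ p ∈ T, p))) -
      (M.H (fun n => (x n, Z ((∏ p ∈ S, p) * ∏ p ∈ T, p) n)) -
        M.H (Z ((∏ p ∈ S, p) * ∏ p ∈ T, p))) := by
  classical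
  induction S using Finset.induction_on with
  | empty => simp
  | insert a s ha ih =>
    have hs : ∀ p ∈ s, p.Prime := fun p hp => hS p (Finset.mem_insert_of_mem hp)
    have haP : a.Prime := hS a (Finset.mem_insert_self a s)
    have hd' : Disjoint T s := by
      rw [Finset.disjoint_insert_right] at hd
      exact hd.2
    have haT : a ∉ T := by
      rw [Finset.disjoint_insert_right] at hd
      exact hd.1
    have ih' := ih hs hd'
    rw [Finset.sum_insert ha, Finset.prod_insert ha]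
    have hQ0 : 0 < (∏ p ∈ s, p) * ∏ p ∈ T, p :=
      Nat.mul_pos (Finset.prod_pos fun p hp => (hs p hp).pos)
        (Finset.prod_pos fun p hp => (hT p hp).pos)
    have hcop : Nat.Coprime a ((∏ p ∈ s, p) * ∏ p ∈ T, p) := by
      apply Nat.Coprime.mul_right
      · apply Nat.Coprime.prod_right
        intro q hq
        exact (Nat.coprime_primes haP (hs q hq)).2 (fun h => ha (h ▸ hq))
      · apply Nat.Coprime.prod_right
        intro q hq
        exact (Nat.coprime_primes haP (hT q hq)).2 (fun h => haT (h ▸ hq))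
    have hadd : M.H (Z (a * ((∏ p ∈ s, p) * ∏ p ∈ T, p))) =
        M.H (Z a) + M.H (Z ((∏ p ∈ s, p) * ∏ p ∈ T, p)) := by
      rw [hZH _ (Nat.mul_pos haP.pos hQ0), hZH _ haP.pos, hZH _ hQ0, ← mul_add,
        ← Real.log_mul (by exact_mod_cast haP.pos.ne') (by exact_mod_cast hQ0.ne')]
      push_cast
      rfl
    have h := ed_add M (x := x) hx (hZfin a haP.pos) (hZfin _ hQ0)
      (hZmul a _ haP.pos hQ0 hcop) hadd
    rw [mul_assoc]
    linarith

/-- Entropy decrement. `X H` = word of length `H`, `Z Q` = residues modulo `Q`. -/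
theorem entropy_decrement (M : IMean) {W V : Type*} (X : ℕ → ℕ → W) (Z : ℕ → ℕ → V) (D : ℝ)
    (hXfin : ∀ H, (Set.range (X H)).Finite) (hZfin : ∀ Q, 0 < Q → (Set.range (Z Q)).Finite)
    (hX2 : ∀ H, ∃ F : W → W → W, ∀ n, X (2 * H) n = F (X H n) (X H (n + H)))
    (hZX : ∀ H Q, 0 < Q → ∃ G : V → W → V, ∀ n, Z Q (n + H) = G (Z Q n) (X H n))
    (hZmul : ∀ p Q, 0 < p → 0 < Q → Nat.Coprime p Q →
      (∃ F : V → V → V, ∀ n, Z (p * Q) n = F (Z p n) (Z Q n)) ∧
      (∃ F : V → V × V, ∀ n, (Z p n, Z Q n) = F (Z (p * Q) n)))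
    (hZH : ∀ Q, 0 < Q → M.H (Z Q) = D * Real.log Q)
    (K : ℕ) (hK : 0 < K) :
    ∃ u : ℕ → ℝ, (∀ m, 0 ≤ u m) ∧ Summable u ∧ ∀ m,
      ∑ p ∈ (Finset.Ico (2 ^ m) (2 ^ (m + 1))).filter Nat.Prime,
        (M.H (X (K * 2 ^ m)) + M.H (Z p) - M.H (fun n => (X (K * 2 ^ m) n, Z p n)))
        ≤ 2 ^ m * u m := by
  classical
  set T : ℕ → Finset ℕ := fun m => (Finset.range (2 ^ m)).filter Nat.Prime with hTdef
  set S : ℕ → Finset ℕ := fun m => (Finset.Ico (2 ^ m) (2 ^ (m + 1))).filter Nat.Prime with hSdef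
  set Q : ℕ → ℕ := fun m => ∏ p ∈ T m, p with hQdef
  have hTP : ∀ m, ∀ p ∈ T m, p.Prime := fun m p hp => (Finset.mem_filter.1 hp).2
  have hSP : ∀ m, ∀ p ∈ S m, p.Prime := fun m p hp => (Finset.mem_filter.1 hp).2
  have hQ0 : ∀ m, 0 < Q m := fun m => Finset.prod_pos fun p hp => (hTP m p hp).pos
  have hdisj : ∀ m, Disjoint (T m) (S m) := by
    intro m
    rw [Finset.disjoint_left]
    intro p hp hq
    have h1 := Finset.mem_range.1 (Finset.mem_filter.1 hp).1
    have h2 := (Finset.mem_Ico.1 (Finset.mem_filter.1 hq).1).1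
    omega
  have hQS : ∀ m, Q (m + 1) = (∏ p ∈ S m, p) * ∏ p ∈ T m, p := by
    intro m
    rw [mul_comm, ← Finset.prod_union (hdisj m)]
    apply Finset.prod_congr _ (fun _ _ => rfl)
    ext p
    simp only [hTdef, hSdef, Finset.mem_union, Finset.mem_filter, Finset.mem_range,
      Finset.mem_Ico]
    have : 2 ^ m ≤ 2 ^ (m + 1) := Nat.pow_le_pow_right (by norm_num) (by omega)
    constructor
    · rintro ⟨h1, h2⟩
      rcases Nat.lt_or_ge p (2 ^ m) with h | h
      · exact Or.inl ⟨h, h2⟩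
      · exact Or.inr ⟨⟨h, h1⟩, h2⟩
    · rintro (⟨h1, h2⟩ | ⟨⟨h1, h2⟩, h3⟩)
      · exact ⟨by omega, h2⟩
      · exact ⟨h2, h3⟩
  set a : ℕ → ℝ := fun m => M.H (fun n => (X (K * 2 ^ m) n, Z (Q m) n)) - M.H (Z (Q m)) with hadef
  set h : ℕ → ℝ := fun m => a m / 2 ^ m with hhdef
  have ha0 : ∀ m, 0 ≤ a m := by
    intro m
    have := M.H_comp_le (X := fun n => (X (K * 2 ^ m) n, Z (Q m) n))
      (ed_range_pair (hXfin _) (hZfin _ (hQ0 m))) Prod.snd
    simp only [hadef]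
    have h' : M.H (fun n => (Prod.snd (X (K * 2 ^ m) n, Z (Q m) n))) = M.H (Z (Q m)) := rfl
    linarith [this, h'.symm.le]
  have hh0 : ∀ m, 0 ≤ h m := fun m => div_nonneg (ha0 m) (by positivity)
  have hmain : ∀ m, ∑ p ∈ S m,
        (M.H (X (K * 2 ^ m)) + M.H (Z p) - M.H (fun n => (X (K * 2 ^ m) n, Z p n)))
        ≤ 2 ^ m * (h m - h (m + 1)) := by
    intro m
    have h1 := ed_add_set M (x := X (K * 2 ^ m)) Z D (hXfin _) hZfin
      (fun p Q hp hQ hc => (hZmul p Q hp hQ hc).1) hZH (T m) (S m) (hTP m) (hSP m) (hdisj m)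
    rw [← hQS m] at h1
    have hX2' := hX2 (K * 2 ^ m)
    have e2 : 2 * (K * 2 ^ m) = K * 2 ^ (m + 1) := by ring
    rw [e2] at hX2'
    have h2 := ed_double M (x := X (K * 2 ^ m)) (x2 := X (K * 2 ^ (m + 1)))
      (Z := Z (Q (m + 1))) (hXfin _) (hZfin _ (hQ0 _)) (K * 2 ^ m) hX2'
      (hZX _ _ (hQ0 _))
    have h3 : (2:ℝ) ^ m * (h m - h (m + 1)) = a m - a (m + 1) / 2 := by
      simp only [hhdef]
      field_simp
      ring
    rw [h3]
    simp only [hadef]
    have hQm : (∏ p ∈ T m, p) = Q m := rfl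
    rw [hQm] at h1
    linarith
  have hI0 : ∀ m, 0 ≤ ∑ p ∈ S m,
        (M.H (X (K * 2 ^ m)) + M.H (Z p) - M.H (fun n => (X (K * 2 ^ m) n, Z p n))) := by
    intro m
    apply Finset.sum_nonneg
    intro p hp
    have := M.H_pair_le (X := X (K * 2 ^ m)) (Y := Z p) (hXfin _) (hZfin p (hSP m p hp).pos)
    linarith
  have hu0 : ∀ m, 0 ≤ h m - h (m + 1) := by
    intro m
    have h1 := (hI0 m).trans (hmain m)
    have h2 : (0:ℝ) < 2 ^ m := by positivity
    by_contra hneg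
    push Not at hneg
    nlinarith
  refine ⟨fun m => h m - h (m + 1), hu0, ?_, hmain⟩
  refine summable_of_sum_range_le (c := h 0) hu0 ?_
  intro n
  rw [Finset.sum_range_sub']
  linarith [hh0 n]

end Pool.MP_67663b_nt.Odd
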