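import Pool.Agent.Lib.MP_67663b_nt.Odd.WordsDefs

set_option autoImplicit false
open Filter Topology
namespace Pool.MP_67663b_nt.Odd

section aux
open MeasureTheory

/-- Bounded complex sequences. -/
def EqCB (f : ℕ → ℂ) : Prop := ∃ B : ℝ, ∀ n, ‖f n‖ ≤ B

theorem EqCB.re {f : ℕ → ℂ} (hf : EqCB f) (Q a0 : ℕ) :
    Bdd (fun n => if n % Q = a0 then (f n).re else 0) := by
  obtain ⟨B, hB⟩ := hf
  exact Bdd.ite _ ⟨B, fun n => (Complex.abs_re_le_norm _).trans (hB n)⟩ (Bdd.const 0)

theorem EqCB.im {f : ℕ → ℂ} (hf : EqCB f) (Q a0 : ℕ) :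
    Bdd (fun n => if n % Q = a0 then (f n).im else 0) := by
  obtain ⟨B, hB⟩ := hf
  exact Bdd.ite _ ⟨B, fun n => (Complex.abs_im_le_norm _).trans (hB n)⟩ (Bdd.const 0)

/-- Complex mean restricted to a residue class. -/
noncomputable def eqE (M : IMean) (Q a0 : ℕ) (f : ℕ → ℂ) : ℂ :=
  ⟨M.E (fun n => if n % Q = a0 then (f n).re else 0),
    M.E (fun n => if n % Q = a0 then (f n).im else 0)⟩

theorem eqE_add (M : IMean) (Q a0 : ℕ) {f g : ℕ → ℂ} (hf : EqCB f) (hg : EqCB g) :
    eqE M Q a0 (fun n => f n + g n) = eqE M Q a0 f + eqE M Q a0 g := by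
  apply Complex.ext
  · simp only [eqE, Complex.add_re]
    rw [← M.add _ _ (hf.re Q a0) (hg.re Q a0)]
    congr 1
    funext n
    split_ifs <;> simp
  · simp only [eqE, Complex.add_im]
    rw [← M.add _ _ (hf.im Q a0) (hg.im Q a0)]
    congr 1
    funext n
    split_ifs <;> simp

theorem eqE_smul (M : IMean) (Q a0 : ℕ) (c : ℂ) {f : ℕ → ℂ} (hf : EqCB f) :
    eqE M Q a0 (fun n => c * f n) = c * eqE M Q a0 f := by
  apply Complex.ext
  · simp only [eqE, Complex.mul_re]
    rw [← M.smul _ _ (hf.re Q a0), ← M.smul _ _ (hf.im Q a0),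
      ← M.E_sub ((hf.re Q a0).smul _) ((hf.im Q a0).smul _)]
    congr 1
    funext n
    split_ifs <;> simp
  · simp only [eqE, Complex.mul_im]
    rw [← M.smul _ _ (hf.re Q a0), ← M.smul _ _ (hf.im Q a0),
      ← M.add _ _ ((hf.im Q a0).smul _) ((hf.re Q a0).smul _)]
    congr 1
    funext n
    split_ifs <;> simp

theorem eqE_shift (M : IMean) (Q a0 : ℕ) {f : ℕ → ℂ} (hf : EqCB f) :
    eqE M Q a0 (fun n => f (n + Q)) = eqE M Q a0 f := by
  apply Complex.ext
  · simp only [eqE]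
    have := M.E_shift (hf.re Q a0) Q
    simpa only [Nat.add_mod_right] using this
  · simp only [eqE]
    have := M.E_shift (hf.im Q a0) Q
    simpa only [Nat.add_mod_right] using this

theorem eqE_bound (M : IMean) (Q a0 : ℕ) {f : ℕ → ℂ} {B : ℝ} (hf : ∀ n, ‖f n‖ ≤ B) :
    ‖eqE M Q a0 f‖ ≤ 2 * B := by
  have hB0 : 0 ≤ B := (norm_nonneg _).trans (hf 0)
  have h1 : |(eqE M Q a0 f).re| ≤ B := by
    refine M.abs_E_le (EqCB.re ⟨B, hf⟩ Q a0) (Eventually.of_forall fun n => ?_)
    split_ifs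
    · exact (Complex.abs_re_le_norm _).trans (hf n)
    · simpa using hB0
  have h2 : |(eqE M Q a0 f).im| ≤ B := by
    refine M.abs_E_le (EqCB.im ⟨B, hf⟩ Q a0) (Eventually.of_forall fun n => ?_)
    split_ifs
    · exact (Complex.abs_im_le_norm _).trans (hf n)
    · simpa using hB0
  refine (Complex.norm_le_abs_re_add_abs_im _).trans ?_
  linarith

theorem eqE_rot (M : IMean) (Q a0 : ℕ) {f : ℕ → ℂ} (hf : EqCB f) {z : ℂ} (hz : z ≠ 1)
    (h : ∀ n, f (n + Q) = z * f n) : eqE M Q a0 f = 0 := by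
  have h1 := eqE_shift M Q a0 hf
  simp only [h] at h1
  rw [eqE_smul M Q a0 z hf] at h1
  have h2 : (z - 1) * eqE M Q a0 f = 0 := by linear_combination h1
  rcases mul_eq_zero.1 h2 with h3 | h3
  · exact absurd (by linear_combination h3) hz
  · exact h3

theorem eq_E_mod (M : IMean) {Q a0 : ℕ} (hQ : 0 < Q) (ha : a0 < Q) :
    M.E (fun n => if n % Q = a0 then 1 else 0) = 1 / (Q : ℝ) := by
  have hQ' : (0 : ℝ) < Q := by exact_mod_cast hQ
  have h1 := M.dil Q hQ (fun _ => 1) (Bdd.const 1)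
  rw [M.one] at h1
  have hb : Bdd (fun n => if Q ∣ n then (1 : ℝ) else 0) := Bdd.ite _ (Bdd.const 1) (Bdd.const 0)
  have h2 : M.E (fun n => if Q ∣ n then (1 : ℝ) else 0) = 1 / (Q : ℝ) := by
    have h3 := M.smul (Q : ℝ) _ hb
    have h4 : (fun n => if Q ∣ n then (Q : ℝ) * 1 else 0) =
        fun n => (Q : ℝ) * (if Q ∣ n then (1 : ℝ) else 0) := by
      funext n
      split_ifs <;> simp
    rw [h4, h3] at h1
    rw [eq_div_iff hQ'.ne']
    linarith
  rw [← h2, ← M.E_shift hb (Q - a0)]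
  congr 1
  funext n
  have h5 : n % Q = a0 ↔ Q ∣ n + (Q - a0) := by
    constructor
    · intro h
      refine ⟨n / Q + 1, ?_⟩
      have := Nat.div_add_mod n Q
      rw [h] at this
      calc n + (Q - a0) = (Q * (n / Q) + a0) + (Q - a0) := by rw [this]
        _ = Q * (n / Q) + Q := by omega
        _ = Q * (n / Q + 1) := by ring
    · rintro ⟨c, hc⟩
      have hc0 : c ≠ 0 := by
        rintro rfl
        omega
      obtain ⟨d, rfl⟩ := Nat.exists_eq_succ_of_ne_zero hc0
      have h6 : n = a0 + Q * d := by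
        have : Q * (d + 1) = Q * d + Q := by ring
        rw [Nat.succ_eq_add_one, this] at hc
        omega
      rw [h6, Nat.add_mul_mod_self_left, Nat.mod_eq_of_lt ha]
  simp only [h5]

theorem eq_int_fourier {n : ℤ} (hn : n ≠ 0) :
    ∫ x : UnitAddCircle, fourier n x ∂AddCircle.haarAddCircle = 0 :=
  integral_eq_zero_of_add_right_eq_neg (μ := AddCircle.haarAddCircle)
    (fourier_add_half_inv_index hn one_pos)

theorem eq_haar_closedBall (c : UnitAddCircle) {r : ℝ} (hr : 2 * r ≤ 1) :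
    AddCircle.haarAddCircle (Metric.closedBall c r) = ENNReal.ofReal (2 * r) := by
  have h1 := AddCircle.volume_closedBall (T := 1) (x := c) r
  rw [AddCircle.volume_eq_smul_haarAddCircle] at h1
  simpa [min_eq_right hr] using h1

theorem eq_bddP {A : Type*} (X : ℕ → A) (a : A) :
    Bdd (fun n => @ite ℝ (X n = a) (Classical.propDecidable _) 1 0) :=
  @Bdd.ite _ _ (fun n => X n = a) (fun _ => Classical.propDecidable _) (Bdd.const 1) (Bdd.const 0)

section torus
variable {I : Type} [Fintype I]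

/-- Haar measure on the torus. -/
noncomputable def eqMu (I : Type) [Fintype I] : Measure (UnitAddTorus I) :=
  Measure.pi (fun _ : I => (AddCircle.haarAddCircle : Measure UnitAddCircle))

instance eqMu_prob : IsProbabilityMeasure (eqMu I) := by
  unfold eqMu
  infer_instance

/-- the point. -/
noncomputable def eqPt (α : I → ℝ) (Q n : ℕ) : UnitAddTorus I :=
  fun i => ((α i * (n : ℝ) / (Q : ℝ) : ℝ) : UnitAddCircle)

theorem eq_int_mFourier [DecidableEq I] {k : I → ℤ} (hk : k ≠ 0) :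
    ∫ x, UnitAddTorus.mFourier k x ∂(eqMu I) = 0 := by
  unfold eqMu
  have h1 := integral_fintype_prod_eq_prod (𝕜 := ℂ)
    (μ := fun _ : I => (AddCircle.haarAddCircle : Measure UnitAddCircle))
    (fun i (x : UnitAddCircle) => (fourier (k i) x : ℂ))
  refine h1.trans ?_
  obtain ⟨i, hi⟩ := Function.ne_iff.mp hk
  exact Finset.prod_eq_zero (Finset.mem_univ i) (eq_int_fourier hi)

omit [Fintype I] in
theorem eqCB_cont (F : C(UnitAddTorus I, ℂ)) (α : I → ℝ) (Q : ℕ) :
    EqCB (fun n => F (eqPt α Q n)) := ⟨‖F‖, fun _ => F.norm_coe_le_norm _⟩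

theorem eq_int_cont (F : C(UnitAddTorus I, ℂ)) : Integrable (fun x => F x) (eqMu I) :=
  (BoundedContinuousFunction.mkOfCompact F).integrable (eqMu I)

theorem eq_monomial [DecidableEq I] (M : IMean) (α : I → ℝ)
    (hind : ∀ (c0 : ℤ) (c : I → ℤ), (c0 : ℝ) + ∑ i, (c i : ℝ) * α i = 0 → ∀ i, c i = 0)
    {Q a0 : ℕ} (hQ : 0 < Q) (ha : a0 < Q) (k : I → ℤ) :
    eqE M Q a0 (fun n => UnitAddTorus.mFourier k (eqPt α Q n)) =
      (1 / (Q : ℂ)) * ∫ x, UnitAddTorus.mFourier k x ∂(eqMu I) := by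
  by_cases hk : k = 0
  · subst hk
    rw [UnitAddTorus.mFourier_zero]
    apply Complex.ext
    · simp only [eqE, ContinuousMap.one_apply, Complex.one_re]
      rw [eq_E_mod M hQ ha]
      simp
    · simp only [eqE, ContinuousMap.one_apply, Complex.one_im]
      have : M.E (fun n => if n % Q = a0 then (0 : ℝ) else 0) = 0 := by
        simpa using M.E_const 0
      rw [this]
      simp
  · rw [eq_int_mFourier hk, mul_zero]
    have hQ' : (Q : ℂ) ≠ 0 := by exact_mod_cast hQ.ne'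
    refine eqE_rot M Q a0 (eqCB_cont _ α Q)
      (z := Complex.exp (2 * Real.pi * Complex.I * (∑ i, (k i : ℂ) * (α i : ℂ)))) ?_ ?_
    · intro h
      rw [Complex.exp_eq_one_iff] at h
      obtain ⟨m, hm⟩ := h
      have h2 : (∑ i, (k i : ℂ) * (α i : ℂ)) = m := by
        have h3 : (2 * Real.pi * Complex.I : ℂ) ≠ 0 := by
          simp [Real.pi_ne_zero]
        apply mul_left_cancel₀ h3
        rw [hm]
        ring
      have h4 : (∑ i, (k i : ℝ) * α i) = m := by exact_mod_cast h2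
      apply hk
      funext i
      refine hind (-m) k ?_ i
      rw [h4]
      push_cast
      ring
    · intro n
      simp only [UnitAddTorus.mFourier, ContinuousMap.coe_mk, eqPt, fourier_coe_apply]
      rw [← Complex.exp_sum, ← Complex.exp_sum, ← Complex.exp_add]
      congr 1
      rw [Finset.mul_sum, ← Finset.sum_add_distrib]
      refine Finset.sum_congr rfl fun i _ => ?_
      push_cast
      field_simp
      ring

theorem eq_torus [DecidableEq I] (M : IMean) (α : I → ℝ)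
    (hind : ∀ (c0 : ℤ) (c : I → ℤ), (c0 : ℝ) + ∑ i, (c i : ℝ) * α i = 0 → ∀ i, c i = 0)
    {Q a0 : ℕ} (hQ : 0 < Q) (ha : a0 < Q) (F : C(UnitAddTorus I, ℂ)) :
    eqE M Q a0 (fun n => F (eqPt α Q n)) = (1 / (Q : ℂ)) * ∫ x, F x ∂(eqMu I) := by
  have hspan : ∀ G ∈ Submodule.span ℂ (Set.range (UnitAddTorus.mFourier (d := I))),
      eqE M Q a0 (fun n => G (eqPt α Q n)) = (1 / (Q : ℂ)) * ∫ x, G x ∂(eqMu I) := by
    intro G hG
    induction hG using Submodule.span_induction with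
    | mem x hx =>
      obtain ⟨k, rfl⟩ := hx
      exact eq_monomial M α hind hQ ha k
    | zero =>
      have h := eqE_smul M Q a0 0 (eqCB_cont (0 : C(UnitAddTorus I, ℂ)) α Q)
      simpa using h
    | add f g _ _ hf hg =>
      have h := eqE_add M Q a0 (eqCB_cont f α Q) (eqCB_cont g α Q)
      simp only [ContinuousMap.add_apply]
      rw [h, hf, hg, integral_add (eq_int_cont f) (eq_int_cont g)]
      ring
    | smul c f _ hf =>
      have h := eqE_smul M Q a0 c (eqCB_cont f α Q)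
      simp only [ContinuousMap.smul_apply, smul_eq_mul]
      rw [h, hf, integral_const_mul]
      ring
  have hF : F ∈ closure (Submodule.span ℂ (Set.range (UnitAddTorus.mFourier (d := I))) :
      Set C(UnitAddTorus I, ℂ)) := by
    have h := UnitAddTorus.span_mFourier_closure_eq_top (d := I)
    have h2 : F ∈ (Submodule.span ℂ
      (Set.range (UnitAddTorus.mFourier (d := I)))).topologicalClosure := by
      rw [h]
      trivial
    exact h2
  have hQ1 : (1 : ℝ) ≤ Q := by exact_mod_cast hQ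
  have key : ∀ ε : ℝ, 0 < ε →
      ‖eqE M Q a0 (fun n => F (eqPt α Q n)) - (1 / (Q : ℂ)) * ∫ x, F x ∂(eqMu I)‖ ≤ 3 * ε := by
    intro ε hε
    obtain ⟨G, hG, hGF⟩ := Metric.mem_closure_iff.1 hF ε hε
    have hH : ∀ x, ‖(F - G) x‖ ≤ ε := fun x =>
      ((F - G).norm_coe_le_norm x).trans (by rw [← dist_eq_norm]; exact hGF.le)
    have e1 : eqE M Q a0 (fun n => F (eqPt α Q n)) =
        eqE M Q a0 (fun n => (F - G) (eqPt α Q n)) + eqE M Q a0 (fun n => G (eqPt α Q n)) := by
      rw [← eqE_add M Q a0 (eqCB_cont (F - G) α Q) (eqCB_cont G α Q)]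
      simp
    have e2 : ∫ x, F x ∂(eqMu I) = (∫ x, (F - G) x ∂(eqMu I)) + ∫ x, G x ∂(eqMu I) := by
      rw [← integral_add (eq_int_cont (F - G)) (eq_int_cont G)]
      simp
    have e3 : eqE M Q a0 (fun n => F (eqPt α Q n)) - (1 / (Q : ℂ)) * ∫ x, F x ∂(eqMu I) =
        eqE M Q a0 (fun n => (F - G) (eqPt α Q n)) -
          (1 / (Q : ℂ)) * ∫ x, (F - G) x ∂(eqMu I) := by
      rw [e1, e2, hspan G hG]
      ring
    rw [e3]
    have b1 : ‖eqE M Q a0 (fun n => (F - G) (eqPt α Q n))‖ ≤ 2 * ε :=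
      eqE_bound M Q a0 fun n => hH _
    have b2 : ‖∫ x, (F - G) x ∂(eqMu I)‖ ≤ ε := by
      have := norm_integral_le_of_norm_le_const (μ := eqMu I) (f := fun x => (F - G) x)
        (Eventually.of_forall hH)
      simpa using this
    have b3 : ‖(1 / (Q : ℂ))‖ ≤ 1 := by
      rw [norm_div, norm_one, Complex.norm_natCast]
      rw [div_le_one (by linarith)]
      exact hQ1
    calc _ ≤ ‖eqE M Q a0 (fun n => (F - G) (eqPt α Q n))‖ +
          ‖(1 / (Q : ℂ)) * ∫ x, (F - G) x ∂(eqMu I)‖ := norm_sub_le _ _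
      _ ≤ 2 * ε + 1 * ε := by
          rw [norm_mul]
          gcongr
      _ = 3 * ε := by ring
  have h0 : ‖eqE M Q a0 (fun n => F (eqPt α Q n)) - (1 / (Q : ℂ)) * ∫ x, F x ∂(eqMu I)‖ = 0 := by
    refine le_antisymm (le_of_forall_pos_le_add fun ε hε => ?_) (norm_nonneg _)
    have := key (ε / 3) (by positivity)
    linarith
  exact sub_eq_zero.1 (norm_eq_zero.1 h0)

theorem eq_pt_mem (α : I → ℝ) (hα : ∀ i, 0 < α i) {Q : ℕ} (hQ : 0 < Q) {a : ℕ × (I → ℕ)} {n : ℕ}
    (h : res α Q n = a) :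
    eqPt α Q n ∈ Metric.closedBall
      (fun i => ((((a.2 i : ℝ) + 1 / 2) / (Q : ℝ) : ℝ) : UnitAddCircle)) (1 / (2 * (Q : ℝ))) := by
  have hQ' : (0 : ℝ) < Q := by exact_mod_cast hQ
  rw [Metric.mem_closedBall, dist_pi_le_iff (by positivity)]
  intro i
  rw [dist_eq_norm]
  simp only [eqPt]
  rw [← AddCircle.coe_sub, UnitAddCircle.norm_eq]
  refine (round_le _ ((bt (α i) n / Q : ℕ) : ℤ)).trans ?_
  have h1 : bt (α i) n % Q = a.2 i := by
    rw [← h]
    rfl
  have h2 : (Q : ℝ) * ((bt (α i) n / Q : ℕ) : ℝ) + (a.2 i : ℝ) = (bt (α i) n : ℝ) := by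
    have := Nat.div_add_mod (bt (α i) n) Q
    rw [h1] at this
    exact_mod_cast this
  have h3 : (bt (α i) n : ℝ) ≤ α i * n := Nat.floor_le (mul_nonneg (hα i).le (Nat.cast_nonneg _))
  have h4 : α i * n < (bt (α i) n : ℝ) + 1 := Nat.lt_floor_add_one _
  have h5 : α i * (n : ℝ) / (Q : ℝ) - ((a.2 i : ℝ) + 1 / 2) / (Q : ℝ) -
      (((bt (α i) n / Q : ℕ) : ℤ) : ℝ) = (α i * n - bt (α i) n - 1 / 2) / Q := by
    rw [← h2, Int.cast_natCast]
    field_simp
    ring
  rw [h5, abs_div, abs_of_pos hQ', div_le_div_iff₀ hQ' (by positivity)]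
  have h6 : |α i * n - bt (α i) n - 1 / 2| ≤ 1 / 2 := by
    rw [abs_le]
    constructor <;> linarith
  nlinarith

theorem eq_upper [DecidableEq I] (M : IMean) (α : I → ℝ) (hα : ∀ i, 0 < α i)
    (hind : ∀ (c0 : ℤ) (c : I → ℤ), (c0 : ℝ) + ∑ i, (c i : ℝ) * α i = 0 → ∀ i, c i = 0)
    {Q : ℕ} (hQ : 0 < Q) {a : ℕ × (I → ℕ)} (ha : a ∈ box I Q) :
    M.P (res α Q) a ≤ 1 / ((box I Q).card : ℝ) := by
  classical
  have hQ' : (0 : ℝ) < Q := by exact_mod_cast hQ
  have hQ1 : (1 : ℝ) ≤ Q := by exact_mod_cast hQ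
  have ha0 : a.1 < Q := by
    unfold box at ha
    rw [Finset.mem_product] at ha
    exact Finset.mem_range.1 ha.1
  set K := Metric.closedBall
      (fun i => ((((a.2 i : ℝ) + 1 / 2) / (Q : ℝ) : ℝ) : UnitAddCircle) : UnitAddTorus I)
      (1 / (2 * (Q : ℝ))) with hK
  have hKc : IsClosed K := Metric.isClosed_closedBall
  have hKm : eqMu I K = (ENNReal.ofReal (1 / Q)) ^ Fintype.card I := by
    rw [hK]
    unfold eqMu
    rw [Measure.pi_closedBall _ _ (by positivity)]
    have h1 : ∀ c : UnitAddCircle, AddCircle.haarAddCircle (Metric.closedBall c (1 / (2 * (Q : ℝ))))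
        = ENNReal.ofReal (1 / Q) := by
      intro c
      have h2 : 2 * (1 / (2 * (Q : ℝ))) = 1 / Q := by field_simp
      rw [eq_haar_closedBall c (by
        rw [h2, div_le_one hQ']
        exact hQ1), h2]
    simp only [h1, Finset.prod_const, Finset.card_univ]
  have hd : ∀ n : ℕ, (0 : ℝ) < 1 / ((n : ℝ) + 1) := fun n => by positivity
  have hlim := tendsto_lintegral_thickenedIndicator_of_isClosed (eqMu I) hKc hd
    tendsto_one_div_add_atTop_nhds_zero_nat
  have hlim2 := (ENNReal.tendsto_toReal (measure_ne_top (eqMu I) K)).comp hlim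
  have hlim3 := hlim2.const_mul (1 / (Q : ℝ))
  have hcard : 1 / ((box I Q).card : ℝ) = 1 / (Q : ℝ) * (eqMu I K).toReal := by
    rw [hKm]
    simp only [box, Finset.card_product, Finset.card_range, Fintype.card_piFinset,
      Finset.prod_const, Finset.card_univ, ENNReal.toReal_pow]
    rw [ENNReal.toReal_ofReal (by positivity)]
    push_cast
    rw [one_div_pow]
    field_simp
  rw [hcard]
  refine ge_of_tendsto' hlim3 fun m => ?_
  simp only [Function.comp_apply]
  rw [BoundedContinuousFunction.toReal_lintegral_coe_eq_integral]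
  set G : C(UnitAddTorus I, ℂ) :=
    ⟨fun x => (((thickenedIndicator (hd m) K x : NNReal) : ℝ) : ℂ), by
      exact Complex.continuous_ofReal.comp (NNReal.continuous_coe.comp
        (thickenedIndicator (hd m) K).continuous)⟩ with hG
  have hGa : ∀ x, G x = (((thickenedIndicator (hd m) K x : NNReal) : ℝ) : ℂ) := fun x => rfl
  have h1 := eq_torus M α hind hQ ha0 G
  simp only [hGa] at h1
  rw [integral_complex_ofReal] at h1
  have h2 := congrArg Complex.re h1
  have h3 : ((1 / (Q : ℂ)) * ((∫ x, ((thickenedIndicator (hd m) K x : NNReal) : ℝ) ∂(eqMu I) :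
      ℝ) : ℂ)).re = 1 / (Q : ℝ) * ∫ x, ((thickenedIndicator (hd m) K x : NNReal) : ℝ) ∂(eqMu I) := by
    have : (1 / (Q : ℂ)) = ((1 / (Q : ℝ) : ℝ) : ℂ) := by push_cast; rfl
    rw [this, ← Complex.ofReal_mul, Complex.ofReal_re]
  refine le_trans ?_ (h2.trans h3).le
  simp only [eqE, Complex.ofReal_re]
  unfold IMean.P
  have hB : EqCB (fun n => (((thickenedIndicator (hd m) K (eqPt α Q n) : NNReal) : ℝ) : ℂ)) :=
    eqCB_cont G α Q
  refine M.mono _ _ (eq_bddP _ _) (by
    simpa only [Complex.ofReal_re] using hB.re Q a.1) (Eventually.of_forall fun n => ?_)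
  by_cases hn : res α Q n = a
  · have h4 := eq_pt_mem α hα hQ hn
    have h5 : n % Q = a.1 := by
      rw [← hn]
      rfl
    rw [if_pos hn, if_pos h5, thickenedIndicator_one (hd m) K h4]
    simp
  · rw [if_neg hn]
    split_ifs
    · exact NNReal.coe_nonneg _
    · exact le_rfl

end torus

end aux

variable {I : Type} [Fintype I] [DecidableEq I]

/-- Joint equidistribution of the residues of `n, ⌊α_i n⌋` modulo `Q`. -/
theorem equidist (M : IMean) (α : I → ℝ) (hα : ∀ i, 0 < α i)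
    (hind : ∀ (c0 : ℤ) (c : I → ℤ), (c0 : ℝ) + ∑ i, (c i : ℝ) * α i = 0 → ∀ i, c i = 0)
    {Q : ℕ} (hQ : 0 < Q) {a : ℕ × (I → ℕ)} (ha : a ∈ box I Q) :
    M.P (res α Q) a = 1 / ((box I Q).card : ℝ) := by
  classical
  have hsum : ∑ b ∈ box I Q, M.P (res α Q) b = 1 := by
    unfold IMean.P
    refine (M.E_sum (box I Q) fun b _ => eq_bddP _ _).symm.trans (Eq.trans ?_ M.one)
    congr 1
    funext n
    have hmem : res α Q n ∈ box I Q := by
      unfold box res
      rw [Finset.mem_product, Fintype.mem_piFinset]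
      exact ⟨Finset.mem_range.2 (Nat.mod_lt _ hQ), fun i => Finset.mem_range.2 (Nat.mod_lt _ hQ)⟩
    refine (Finset.sum_eq_single_of_mem _ hmem fun b _ hb => if_neg (Ne.symm hb)).trans
      (if_pos rfl)
  have hcard : ∑ _b ∈ box I Q, 1 / ((box I Q).card : ℝ) = 1 := by
    rw [Finset.sum_const, nsmul_eq_mul]
    have : ((box I Q).card : ℝ) ≠ 0 := by
      exact_mod_cast (Finset.card_pos.2 ⟨a, ha⟩).ne'
    field_simp
  by_contra hne
  have hlt : M.P (res α Q) a < 1 / ((box I Q).card : ℝ) :=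
    lt_of_le_of_ne (eq_upper M α hα hind hQ ha) hne
  have := Finset.sum_lt_sum (fun b hb => eq_upper M α hα hind hQ hb) ⟨a, ha, hlt⟩
  rw [hsum, hcard] at this
  exact lt_irrefl _ this

end Pool.MP_67663b_nt.Odd
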