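import Pool.Agent.Lib.MP_67663b_nt.Odd.WordsDefs

set_option autoImplicit false
open Filter Topology
namespace Pool.MP_67663b_nt.Odd

theorem av_lip_le {x y : ℕ} (hx : 0 < x) (hxy : x ≤ y) (m : ℕ) :
    |av x m - av y m| ≤ 2 * ((y : ℝ) - x) / y := by
  have hx' : (0:ℝ) < x := by exact_mod_cast hx
  have hy' : (0:ℝ) < y := by exact_mod_cast lt_of_lt_of_le hx hxy
  have hxy' : (x:ℝ) ≤ y := by exact_mod_cast hxy
  have hsplit : ∑ s ∈ Finset.range y, lam (m - s) =
      ∑ s ∈ Finset.range x, lam (m - s) + ∑ s ∈ Finset.Ico x y, lam (m - s) := by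
    rw [← Finset.sum_range_add_sum_Ico _ hxy]
  have h2 : |∑ s ∈ Finset.Ico x y, lam (m - s)| ≤ (y:ℝ) - x := by
    calc |∑ s ∈ Finset.Ico x y, lam (m - s)| ≤ ∑ s ∈ Finset.Ico x y, |lam (m - s)| :=
          Finset.abs_sum_le_sum_abs _ _
      _ = (y:ℝ) - x := by simp [abs_lam, Nat.cast_sub hxy]
  have h1 : |∑ s ∈ Finset.range x, lam (m - s)| ≤ x := by
    calc |∑ s ∈ Finset.range x, lam (m - s)| ≤ ∑ s ∈ Finset.range x, |lam (m - s)| :=
          Finset.abs_sum_le_sum_abs _ _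
      _ = x := by simp [abs_lam]
  set A := ∑ s ∈ Finset.range x, lam (m - s) with hA
  set B := ∑ s ∈ Finset.Ico x y, lam (m - s) with hB
  have : av x m - av y m = ((y:ℝ) - x) / y * (A / x) - B / y := by
    unfold av
    rw [hsplit]
    field_simp
    ring
  rw [this]
  calc |((y:ℝ) - x) / y * (A / x) - B / y| ≤ |((y:ℝ) - x) / y * (A / x)| + |B / y| := abs_sub _ _
    _ ≤ ((y:ℝ) - x) / y * 1 + ((y:ℝ) - x) / y := by
        have hq : 0 ≤ ((y:ℝ) - x) / y := div_nonneg (sub_nonneg.mpr hxy') hy'.le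
        apply add_le_add
        · rw [abs_mul, abs_of_nonneg hq]
          refine mul_le_mul_of_nonneg_left ?_ hq
          rw [abs_div, abs_of_pos hx']
          exact (div_le_one hx').mpr h1
        · rw [abs_div, abs_of_pos hy']
          exact div_le_div_of_nonneg_right h2 hy'.le
    _ = 2 * ((y : ℝ) - x) / y := by ring

theorem av_lip {x y : ℕ} (hx : 0 < x) (hy : 0 < y) (m : ℕ) {L D : ℝ} (hL : 0 < L)
    (hLx : L ≤ x) (hLy : L ≤ y) (hD : |(x:ℝ) - y| ≤ D) :
    |av x m - av y m| ≤ 2 * D / L := by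
  have hD0 : 0 ≤ D := (abs_nonneg _).trans hD
  have hx' : (0:ℝ) < x := by exact_mod_cast hx
  have hy' : (0:ℝ) < y := by exact_mod_cast hy
  rcases le_total x y with h | h
  · refine (av_lip_le hx h m).trans ?_
    have : (y:ℝ) - x ≤ D := by
      have := neg_abs_le ((x:ℝ) - y)
      linarith
    gcongr
  · rw [abs_sub_comm]
    refine (av_lip_le hy h m).trans ?_
    have : (x:ℝ) - y ≤ D := by
      have := le_abs_self ((x:ℝ) - y)
      linarith
    gcongr

theorem abs_prod_sub_prod_le {J : Type*} (s : Finset J) (a b : J → ℝ) (ha : ∀ i, |a i| ≤ 1)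
    (hb : ∀ i, |b i| ≤ 1) : |∏ i ∈ s, a i - ∏ i ∈ s, b i| ≤ ∑ i ∈ s, |a i - b i| := by
  classical
  induction s using Finset.induction_on with
  | empty => simp
  | insert j s hj ih =>
    rw [Finset.prod_insert hj, Finset.prod_insert hj, Finset.sum_insert hj]
    have h1 : |∏ i ∈ s, a i| ≤ 1 := by
      rw [Finset.abs_prod]
      exact Finset.prod_le_one (fun i _ => abs_nonneg _) (fun i _ => ha i)
    have : a j * ∏ i ∈ s, a i - b j * ∏ i ∈ s, b i =
        (a j - b j) * ∏ i ∈ s, a i + b j * (∏ i ∈ s, a i - ∏ i ∈ s, b i) := by ring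
    rw [this]
    calc |(a j - b j) * ∏ i ∈ s, a i + b j * (∏ i ∈ s, a i - ∏ i ∈ s, b i)|
        ≤ |(a j - b j) * ∏ i ∈ s, a i| + |b j * (∏ i ∈ s, a i - ∏ i ∈ s, b i)| := abs_add_le _ _
      _ ≤ |a j - b j| * 1 + 1 * |∏ i ∈ s, a i - ∏ i ∈ s, b i| := by
          rw [abs_mul, abs_mul]
          gcongr
          exact hb j
      _ ≤ |a j - b j| + ∑ i ∈ s, |a i - b i| := by linarith

theorem gg_lip (M : IMean) {I : Type} [Fintype I] (α : I → ℝ) {x y : ℕ} (hx : 0 < x) (hy : 0 < y)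
    {L D : ℝ} (hL : 0 < L) (hLx : L ≤ x) (hLy : L ≤ y) (hD : |(x:ℝ) - y| ≤ D) :
    |gg M α x - gg M α y| ≤ Fintype.card I * (2 * D / L) := by
  unfold gg
  rw [← M.E_sub (bdd_gg α x) (bdd_gg α y)]
  refine M.abs_E_le ((bdd_gg α x).sub (bdd_gg α y)) (Eventually.of_forall fun n => ?_)
  rw [← mul_sub, abs_mul, abs_lam, one_mul]
  refine (abs_prod_sub_prod_le _ _ _ (fun i => abs_av_le _ _) (fun i => abs_av_le _ _)).trans ?_
  calc ∑ i, |av x (bt (α i) n) - av y (bt (α i) n)| ≤ ∑ _i : I, (2 * D / L) :=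
        Finset.sum_le_sum fun i _ => av_lip hx hy _ hL hLx hLy hD
    _ = Fintype.card I * (2 * D / L) := by simp

end Pool.MP_67663b_nt.Odd
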