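import Pool.Agent.Lib.MP_67663b_nt.Odd.Words

set_option autoImplicit false
open Filter Topology
namespace Pool.MP_67663b_nt.Odd

variable {I : Type} [Fintype I] [DecidableEq I]

private lemma win_mono {a : ℝ} (ha : 0 < a) {m n : ℕ} (hmn : m ≤ n) : bt a m ≤ bt a n := by
  unfold bt
  apply Nat.floor_le_floor
  have : (m : ℝ) ≤ n := by exact_mod_cast hmn
  nlinarith

private lemma win_gap {a : ℝ} (ha : 0 < a) {p x h : ℕ} (hh : (p : ℝ) * x + 1 ≤ a * h) (n : ℕ)
    {j : ℕ} (hj : h ≤ j) : bt a n + (p * x + 1) ≤ bt a (n + j) := by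
  unfold bt
  apply Nat.le_floor
  have h1 : ((⌊a * (n : ℝ)⌋₊ : ℕ) : ℝ) ≤ a * n := Nat.floor_le (by positivity)
  have h2 : (h : ℝ) ≤ j := by exact_mod_cast hj
  have h3 : a * (h : ℝ) ≤ a * j := by nlinarith
  push_cast
  nlinarith

/-- the function of word and residues. -/
private noncomputable def win (p x h : ℕ) (w : (ℕ → ℝ) × (I → ℕ → ℕ) × (I → ℕ → ℝ))
    (b : ℕ × (I → ℕ)) : ℝ :=
  (1 / (h : ℝ)) * ∑ j ∈ Finset.Ico h (2 * h),
    (if p ∣ b.1 + j then (p : ℝ) else 0) * w.1 j *
      ∏ i, ((1 / (x : ℝ)) * ∑ s ∈ Finset.range x,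
        w.2.2 i (w.2.1 i j - (b.2 i + w.2.1 i j) % p - p * s))

omit [Fintype I] [DecidableEq I] in
/-- the terms of the words which occur in `win`. -/
private lemma win_term (α : I → ℝ) (hα : ∀ i, 0 < α i) {p x h : ℕ} (hp : 0 < p)
    (hh : ∀ i, (p : ℝ) * x + 1 ≤ α i * h) (n : ℕ) (i : I) {j : ℕ} (hj : j ∈ Finset.Ico h (2 * h))
    (c : ℕ) {s : ℕ} (hs : s < x) :
    (word α (2 * h) n).2.2 i ((word α (2 * h) n).2.1 i j -
      (c + (word α (2 * h) n).2.1 i j) % p - p * s) =
      lam (bt (α i) (n + j) - (c + (bt (α i) (n + j) - bt (α i) n)) % p - p * s) := by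
  rw [Finset.mem_Ico] at hj
  have h1 := win_gap (hα i) (hh i) n hj.1
  have h2 : bt (α i) (n + j) ≤ bt (α i) (n + 2 * h) := win_mono (hα i) (by omega)
  have hw : (word α (2 * h) n).2.1 i j = bt (α i) (n + j) - bt (α i) n := by
    simp only [word]
    rw [if_pos (by omega)]
  rw [hw]
  have h3 : (c + (bt (α i) (n + j) - bt (α i) n)) % p < p := Nat.mod_lt _ hp
  have h4 : p * s + p ≤ p * x := by
    calc p * s + p = p * (s + 1) := by ring
      _ ≤ p * x := Nat.mul_le_mul_left _ hs
  set u := (c + (bt (α i) (n + j) - bt (α i) n)) % p with hu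
  simp only [word]
  rw [if_pos (by omega)]
  congr 1
  omega

omit [Fintype I] [DecidableEq I] in
private lemma abs_word_le (α : I → ℝ) (H n : ℕ) (i : I) (r : ℕ) : |(word α H n).2.2 i r| ≤ 1 := by
  simp only [word]
  split_ifs
  · rw [abs_lam]
  · simp

omit [Fintype I] [DecidableEq I] in
private lemma abs_word_fst_le (α : I → ℝ) (H n : ℕ) (r : ℕ) : |(word α H n).1 r| ≤ 1 := by
  simp only [word]
  split_ifs
  · rw [abs_lam]
  · simp

/-- the number of multiples in a window. -/
private lemma card_window (p h c : ℕ) (hp : 0 < p) :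
    (((Finset.Ico h (2 * h)).filter (fun j => p ∣ c + j)).card : ℝ) * p ≤ h + p := by
  have h1 : ((Finset.Ico h (2 * h)).filter (fun j => p ∣ c + j)).card ≤ h / p + 1 := by
    have h2 : ((Finset.Ico h (2 * h)).filter (fun j => p ∣ c + j)).card ≤
        ((Finset.Ico (c + h) (c + 2 * h)).filter (fun j => p ∣ j)).card := by
      apply Finset.card_le_card_of_injOn (fun j => c + j)
      · intro j hj
        simp only [Finset.coe_filter, Finset.mem_Ico, Set.mem_ofPred_eq] at hj ⊢
        exact ⟨⟨by omega, by omega⟩, hj.2⟩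
      · intro a _ b _ hab
        simpa using hab
    refine h2.trans ?_
    have h3 : ((Finset.Ico (c + h) (c + 2 * h)).filter (fun j => p ∣ j)).card ≤
        (Finset.Icc ((c + h + (p - 1)) / p) ((c + h + (p - 1)) / p + h / p)).card := by
      apply Finset.card_le_card_of_injOn (fun j => j / p)
      · intro j hj
        simp only [Finset.coe_filter, Finset.mem_Ico, Set.mem_ofPred_eq, Finset.coe_Icc,
          Set.mem_Icc] at hj ⊢
        obtain ⟨⟨hj1, hj2⟩, k, rfl⟩ := hj
        rw [Nat.mul_div_cancel_left _ hp]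
        constructor
        · apply Nat.le_of_lt_succ
          rw [Nat.div_lt_iff_lt_mul hp]
          have : (k + 1) * p = p * k + p := by ring
          rw [Nat.succ_eq_add_one, this]
          omega
        · by_contra hcon
          push Not at hcon
          have e1 : (c + h + (p - 1)) / p + h / p + 1 ≤ k := hcon
          have e2 : p * ((c + h + (p - 1)) / p + h / p + 1) ≤ p * k := Nat.mul_le_mul_left _ e1
          have e3 : c + h + (p - 1) < p * ((c + h + (p - 1)) / p) + p := by
            have := Nat.div_add_mod (c + h + (p - 1)) p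
            have := Nat.mod_lt (c + h + (p - 1)) hp
            omega
          have e4 : h < p * (h / p) + p := by
            have := Nat.div_add_mod h p
            have := Nat.mod_lt h hp
            omega
          have e5 : p * ((c + h + (p - 1)) / p + h / p + 1) =
              p * ((c + h + (p - 1)) / p) + p * (h / p) + p := by ring
          omega
      · intro a ha b hb hab
        simp only [Finset.coe_filter, Finset.mem_Ico, Set.mem_ofPred_eq] at ha hb hab
        obtain ⟨_, k, rfl⟩ := ha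
        obtain ⟨_, l, rfl⟩ := hb
        rw [Nat.mul_div_cancel_left _ hp, Nat.mul_div_cancel_left _ hp] at hab
        rw [hab]
    refine h3.trans ?_
    rw [Nat.card_Icc]
    generalize (c + h + (p - 1)) / p = u
    generalize h / p = v
    omega
  have h5 : (((Finset.Ico h (2 * h)).filter (fun j => p ∣ c + j)).card) * p ≤ h + p := by
    calc _ ≤ (h / p + 1) * p := Nat.mul_le_mul_right _ h1
      _ = h / p * p + p := by ring
      _ ≤ h + p := by
        have := Nat.div_mul_le_self h p
        omega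
  exact_mod_cast h5

omit [DecidableEq I] in
private lemma abs_win_le (α : I → ℝ) {p x h : ℕ} (hp : 0 < p) (hx : 0 < x)
    (hph : p ≤ h) (n : ℕ) (b : ℕ × (I → ℕ)) : |win p x h (word α (2 * h) n) b| ≤ 2 := by
  have hh0 : (0 : ℝ) < h := by
    have : 0 < h := lt_of_lt_of_le hp hph
    exact_mod_cast this
  have hx0 : (0 : ℝ) < x := by exact_mod_cast hx
  unfold win
  rw [abs_mul, abs_of_pos (by positivity : (0:ℝ) < 1 / (h : ℝ))]
  have key : ∀ j, |(if p ∣ b.1 + j then (p : ℝ) else 0) * (word α (2 * h) n).1 j *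
      ∏ i, ((1 / (x : ℝ)) * ∑ s ∈ Finset.range x,
        (word α (2 * h) n).2.2 i ((word α (2 * h) n).2.1 i j -
          (b.2 i + (word α (2 * h) n).2.1 i j) % p - p * s))| ≤
      if p ∣ b.1 + j then (p : ℝ) else 0 := by
    intro j
    rw [abs_mul, abs_mul, Finset.abs_prod]
    have h1 : ∀ i, |(1 / (x : ℝ)) * ∑ s ∈ Finset.range x,
        (word α (2 * h) n).2.2 i ((word α (2 * h) n).2.1 i j -
          (b.2 i + (word α (2 * h) n).2.1 i j) % p - p * s)| ≤ 1 := by
      intro i
      rw [abs_mul, abs_of_pos (by positivity : (0:ℝ) < 1 / (x : ℝ))]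
      have : |∑ s ∈ Finset.range x, (word α (2 * h) n).2.2 i ((word α (2 * h) n).2.1 i j -
          (b.2 i + (word α (2 * h) n).2.1 i j) % p - p * s)| ≤ x := by
        refine (Finset.abs_sum_le_sum_abs _ _).trans ?_
        refine (Finset.sum_le_sum (fun s _ => abs_word_le α (2 * h) n i _)).trans ?_
        simp
      calc 1 / (x:ℝ) * _ ≤ 1 / (x:ℝ) * x := by gcongr
        _ = 1 := by field_simp
    have h2 : ∏ i, |(1 / (x : ℝ)) * ∑ s ∈ Finset.range x,
        (word α (2 * h) n).2.2 i ((word α (2 * h) n).2.1 i j -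
          (b.2 i + (word α (2 * h) n).2.1 i j) % p - p * s)| ≤ 1 :=
      Finset.prod_le_one (fun i _ => abs_nonneg _) (fun i _ => h1 i)
    have h3 := abs_word_fst_le α (2 * h) n j
    have h4 : |if p ∣ b.1 + j then (p : ℝ) else 0| = if p ∣ b.1 + j then (p : ℝ) else 0 := by
      split_ifs
      · exact abs_of_nonneg (Nat.cast_nonneg _)
      · simp
    have h5 : (0 : ℝ) ≤ if p ∣ b.1 + j then (p : ℝ) else 0 := by
      split_ifs
      · positivity
      · exact le_rfl
    rw [h4]
    calc _ ≤ (if p ∣ b.1 + j then (p : ℝ) else 0) * 1 * 1 := by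
          apply mul_le_mul _ h2 (Finset.prod_nonneg fun i _ => abs_nonneg _) (by linarith)
          exact mul_le_mul_of_nonneg_left h3 h5
      _ = _ := by ring
  have h6 : |∑ j ∈ Finset.Ico h (2 * h), (if p ∣ b.1 + j then (p : ℝ) else 0) *
      (word α (2 * h) n).1 j * ∏ i, ((1 / (x : ℝ)) * ∑ s ∈ Finset.range x,
        (word α (2 * h) n).2.2 i ((word α (2 * h) n).2.1 i j -
          (b.2 i + (word α (2 * h) n).2.1 i j) % p - p * s))| ≤ h + p := by
    refine (Finset.abs_sum_le_sum_abs _ _).trans ?_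
    refine (Finset.sum_le_sum (fun j _ => key j)).trans ?_
    rw [← Finset.sum_filter, Finset.sum_const, nsmul_eq_mul]
    exact card_window p h b.1 hp
  have hph' : (p : ℝ) ≤ h := by exact_mod_cast hph
  calc 1 / (h:ℝ) * _ ≤ 1 / (h:ℝ) * (h + p) := by gcongr
    _ ≤ 1 / (h:ℝ) * (h + h) := by gcongr
    _ = 2 := by field_simp; ring

/-- rotation of residues. -/
private lemma sum_rot {p : ℕ} (hp : 0 < p) (w : ℕ) (f : ℕ → ℝ) :
    ∑ c ∈ Finset.range p, f ((c + w) % p) = ∑ c ∈ Finset.range p, f c := by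
  apply Finset.sum_bij (fun c _ => (c + w) % p)
  · intro c _
    exact Finset.mem_range.mpr (Nat.mod_lt _ hp)
  · intro a ha b hb hab
    rw [Finset.mem_range] at ha hb
    have : a ≡ b [MOD p] := Nat.ModEq.add_right_cancel' w hab
    unfold Nat.ModEq at this
    rwa [Nat.mod_eq_of_lt ha, Nat.mod_eq_of_lt hb] at this
  · intro c hc
    rw [Finset.mem_range] at hc
    refine ⟨(c + (p - w % p)) % p, Finset.mem_range.mpr (Nat.mod_lt _ hp), ?_⟩
    have h1 : w % p < p := Nat.mod_lt _ hp
    have h2 : (c + (p - w % p) + w) = c + p * (w / p + 1) := by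
      have := Nat.div_add_mod w p
      have h3 : p * (w / p + 1) = p * (w / p) + p := by ring
      omega
    rw [Nat.mod_add_mod, h2, Nat.add_mul_mod_self_left, Nat.mod_eq_of_lt hc]
  · intro c _
    rfl

/-- the double average is an average over an interval. -/
private lemma sum_av {p x : ℕ} (hp : 0 < p) (m : ℕ) :
    ∑ c ∈ Finset.range p, ∑ s ∈ Finset.range x, lam (m - c - p * s) =
      ∑ t ∈ Finset.range (p * x), lam (m - t) := by
  rw [← Finset.sum_product']
  apply Finset.sum_bij (fun q _ => q.1 + p * q.2)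
  · rintro ⟨c, s⟩ hq
    simp only [Finset.mem_product, Finset.mem_range] at hq ⊢
    have h4 : p * s + p ≤ p * x := by
      calc p * s + p = p * (s + 1) := by ring
        _ ≤ p * x := Nat.mul_le_mul_left _ hq.2
    omega
  · rintro ⟨c, s⟩ hq ⟨c', s'⟩ hq' he
    simp only [Finset.mem_product, Finset.mem_range] at hq hq' he
    have h1 : c = c' := by
      have := congrArg (· % p) he
      simpa [Nat.add_mul_mod_self_left, Nat.mod_eq_of_lt hq.1, Nat.mod_eq_of_lt hq'.1] using this
    subst h1
    have h2 : p * s = p * s' := by omega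
    have h3 := Nat.eq_of_mul_eq_mul_left hp h2
    rw [h3]
  · intro t ht
    rw [Finset.mem_range] at ht
    refine ⟨(t % p, t / p), ?_, ?_⟩
    · simp only [Finset.mem_product, Finset.mem_range]
      exact ⟨Nat.mod_lt _ hp, Nat.div_lt_of_lt_mul ht⟩
    · exact Nat.mod_add_div t p
  · rintro ⟨c, s⟩ _
    simp only
    rw [Nat.sub_sub]

private lemma sum_dvd {p : ℕ} (hp : 0 < p) (j : ℕ) :
    ∑ c ∈ Finset.range p, (if p ∣ c + j then (p : ℝ) else 0) = p := by
  have h1 : ∀ c, (if p ∣ c + j then (p : ℝ) else 0) =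
      (fun r => if r = 0 then (p : ℝ) else 0) ((c + j) % p) := by
    intro c
    simp only [Nat.dvd_iff_mod_eq_zero]
  rw [Finset.sum_congr rfl (fun c _ => h1 c), sum_rot hp j (fun r => if r = 0 then (p : ℝ) else 0)]
  rw [Finset.sum_ite_eq' (Finset.range p) 0 (fun _ => (p : ℝ))]
  rw [if_pos (Finset.mem_range.mpr hp)]

/-- The window average of `phi` is a bounded function of word and residues, whose average over all
residues is the window average of the decoupled correlation. -/
theorem exists_Psi (α : I → ℝ) (hα : ∀ i, 0 < α i) {p x h : ℕ} (hp : p.Prime) (hx : 0 < x)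
    (hh : ∀ i, (p : ℝ) * x + 1 ≤ α i * h) (hph : p ≤ h) :
    ∃ Psi : (ℕ → ℝ) × (I → ℕ → ℕ) × (I → ℕ → ℝ) → ℕ × (I → ℕ) → ℝ,
      (∀ n, (1 / (h : ℝ)) * ∑ j ∈ Finset.Ico h (2 * h), phi α p x (n + j) =
        Psi (word α (2 * h) n) (res α p n)) ∧
      (∀ n, ∀ b ∈ box I p, |Psi (word α (2 * h) n) b| ≤ 2) ∧
      (∀ n, (1 / ((box I p).card : ℝ)) * ∑ b ∈ box I p, Psi (word α (2 * h) n) b =
        (1 / (h : ℝ)) * ∑ j ∈ Finset.Ico h (2 * h),
          lam (n + j) * ∏ i, av (p * x) (bt (α i) (n + j))) := by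
  have hp0 : 0 < p := hp.pos
  have hp0' : (0 : ℝ) < p := by exact_mod_cast hp0
  have hx0' : (0 : ℝ) < x := by exact_mod_cast hx
  refine ⟨win p x h, ?_, ?_, ?_⟩
  · intro n
    unfold win
    congr 1
    apply Finset.sum_congr rfl
    intro j hj
    have hj' := Finset.mem_Ico.mp hj
    unfold phi
    have e1 : (word α (2 * h) n).1 j = lam (n + j) := by
      simp only [word]
      rw [if_pos (by omega)]
    have e2 : (p ∣ (res α p n).1 + j) = (p ∣ n + j) := by
      simp only [res, Nat.dvd_iff_mod_eq_zero, Nat.mod_add_mod]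
    rw [e1]
    simp only [e2]
    congr 1
    apply Finset.prod_congr rfl
    intro i _
    unfold avp
    congr 1
    apply Finset.sum_congr rfl
    intro s hs
    rw [win_term α hα hp0 hh n i hj _ (Finset.mem_range.mp hs)]
    have h1 := win_gap (hα i) (hh i) n hj'.1
    congr 3
    simp only [res, Nat.mod_add_mod]
    congr 1
    omega
  · intro n b _
    exact abs_win_le α hp0 hx hph n b
  · intro n
    unfold win
    rw [← Finset.mul_sum, Finset.sum_comm, mul_left_comm]
    congr 1
    rw [Finset.mul_sum]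
    apply Finset.sum_congr rfl
    intro j hj
    have hj' := Finset.mem_Ico.mp hj
    have e1 : (word α (2 * h) n).1 j = lam (n + j) := by
      simp only [word]
      rw [if_pos (by omega)]
    rw [e1]
    -- the factor of the i-th coordinate
    have e3 : ∀ b : ℕ × (I → ℕ), ∏ i, ((1 / (x : ℝ)) * ∑ s ∈ Finset.range x,
        (word α (2 * h) n).2.2 i ((word α (2 * h) n).2.1 i j -
          (b.2 i + (word α (2 * h) n).2.1 i j) % p - p * s)) =
        ∏ i, ((1 / (x : ℝ)) * ∑ s ∈ Finset.range x,
          lam (bt (α i) (n + j) - (b.2 i + (bt (α i) (n + j) - bt (α i) n)) % p - p * s)) := by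
      intro b
      apply Finset.prod_congr rfl
      intro i _
      congr 1
      apply Finset.sum_congr rfl
      intro s hs
      exact win_term α hα hp0 hh n i hj _ (Finset.mem_range.mp hs)
    simp only [e3]
    unfold box
    rw [Finset.sum_product, Finset.card_product, Fintype.card_piFinset, Finset.card_range]
    have e4 : ∀ c : ℕ, ∑ y ∈ Fintype.piFinset (fun _ : I => Finset.range p),
        (if p ∣ (c, y).1 + j then (p : ℝ) else 0) * lam (n + j) *
        ∏ i, ((1 / (x : ℝ)) * ∑ s ∈ Finset.range x,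
          lam (bt (α i) (n + j) - ((c, y).2 i + (bt (α i) (n + j) - bt (α i) n)) % p - p * s)) =
        (if p ∣ c + j then (p : ℝ) else 0) * (lam (n + j) *
          ∏ i, ∑ c' ∈ Finset.range p, ((1 / (x : ℝ)) * ∑ s ∈ Finset.range x,
          lam (bt (α i) (n + j) - (c' + (bt (α i) (n + j) - bt (α i) n)) % p - p * s))) := by
      intro c
      rw [Finset.prod_univ_sum, ← mul_assoc, Finset.mul_sum]
    rw [Finset.sum_congr rfl (fun c _ => e4 c), ← Finset.sum_mul, sum_dvd hp0 j]
    have e5 : ∀ i : I, ∑ c' ∈ Finset.range p, ((1 / (x : ℝ)) * ∑ s ∈ Finset.range x,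
          lam (bt (α i) (n + j) - (c' + (bt (α i) (n + j) - bt (α i) n)) % p - p * s)) =
          p * av (p * x) (bt (α i) (n + j)) := by
      intro i
      rw [← Finset.mul_sum, sum_rot hp0 (bt (α i) (n + j) - bt (α i) n)
        (fun r => ∑ s ∈ Finset.range x, lam (bt (α i) (n + j) - r - p * s)), sum_av hp0]
      unfold av
      push_cast
      field_simp
    rw [Finset.prod_congr rfl (fun i _ => e5 i), Finset.prod_mul_distrib, Finset.prod_const,
      Finset.prod_const]
    push_cast
    field_simp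

end Pool.MP_67663b_nt.Odd
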