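import Pool.Agent.Lib.MP_67663b_nt.Odd.Pinsker
import Pool.Agent.Lib.MP_67663b_nt.Odd.EntDec
import Pool.Agent.Lib.MP_67663b_nt.Odd.Window
import Pool.Agent.Lib.MP_67663b_nt.Odd.Equi
import Pool.Agent.Lib.MP_67663b_nt.Odd.Dilate
import Pool.Agent.Lib.MP_67663b_nt.Odd.WPNT
import Pool.Agent.Lib.MP_67663b_nt.Odd.Lip

set_option autoImplicit false
open Filter Topology
namespace Pool.MP_67663b_nt.Odd

variable {I : Type} [Fintype I] [DecidableEq I]

/-- mutual information of word and residue -/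
noncomputable def mi (M : IMean) (α : I → ℝ) (H p : ℕ) : ℝ :=
  M.H (word α H) + M.H (res α p) - M.H (fun n => (word α H n, res α p n))

theorem mi_nonneg (M : IMean) (α : I → ℝ) (hα : ∀ i, 0 < α i) (H : ℕ) {p : ℕ} (hp : 0 < p) :
    0 ≤ mi M α H p := by
  have := M.H_pair_le (word_finite α hα H) ((Finset.finite_toSet (box I p)).subset
    (res_mem_box α hp))
  unfold mi
  linarith

theorem decouple_step (M : IMean) (α : I → ℝ) (hα : ∀ i, 0 < α i)
    (hind : ∀ (c0 : ℤ) (c : I → ℤ), (c0 : ℝ) + ∑ i, (c i : ℝ) * α i = 0 → ∀ i, c i = 0)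
    {p x h : ℕ} (hp : p.Prime) (hx : 0 < x)
    (hh : ∀ i, (p : ℝ) * x + 1 ≤ α i * h) (hph : p ≤ h) :
    |gg M α x - (-1) ^ (Fintype.card I + 1) * gg M α (p * x)| ≤
      4 * Real.sqrt (mi M α (2 * h) p) := by
  obtain ⟨Psi, h1, h2, h3⟩ := exists_Psi α hα hp hx hh hph
  have hh0 : 0 < h := lt_of_lt_of_le hp.pos hph
  have hh' : (0:ℝ) < h := by exact_mod_cast hh0
  have hdec := M.decouple (word_finite α hα (2 * h)) (res_mem_box α hp.pos) Psi h2
  have hE1 : M.E (phi α p x) = M.E (fun n => Psi (word α (2 * h) n) (res α p n)) := by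
    have e1 : M.E (fun n => (1 / (h : ℝ)) * ∑ j ∈ Finset.Ico h (2 * h), phi α p x (n + j)) =
        M.E (phi α p x) := by
      rw [M.smul _ _ (Bdd.sum _ fun j _ => (bdd_phi α p x).comp _),
        M.E_sum _ (fun j _ => (bdd_phi α p x).comp _)]
      rw [Finset.sum_congr rfl fun j _ => M.E_shift (bdd_phi α p x) j]
      simp only [Finset.sum_const, Nat.card_Ico, nsmul_eq_mul]
      have : 2 * h - h = h := by omega
      rw [this]
      field_simp
    rw [← e1]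
    congr 1
    funext n
    exact h1 n
  have hE2 : ∑ b ∈ box I p, M.P (res α p) b * M.E (fun n => Psi (word α (2 * h) n) b) =
      gg M α (p * x) := by
    have hb : ∀ b ∈ box I p, Bdd (fun n => Psi (word α (2 * h) n) b) :=
      fun b hb => ⟨2, fun n => h2 n b hb⟩
    rw [Finset.sum_congr rfl fun b hb' => by rw [equidist M α hα hind hp.pos hb'],
      ← Finset.mul_sum, ← M.E_sum _ hb, ← M.smul _ _ (Bdd.sum _ hb)]
    have e2 : (fun n => (1 / ((box I p).card : ℝ)) * ∑ b ∈ box I p, Psi (word α (2 * h) n) b) =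
      fun n => (1 / (h : ℝ)) * ∑ j ∈ Finset.Ico h (2 * h),
          lam (n + j) * ∏ i, av (p * x) (bt (α i) (n + j)) := funext h3
    rw [e2]
    have hbg := bdd_gg α (p * x)
    rw [M.smul _ _ (Bdd.sum _ fun j _ => hbg.comp (fun n => n + j)),
        M.E_sum _ (fun j _ => hbg.comp (fun n => n + j))]
    rw [Finset.sum_congr rfl fun j _ => M.E_shift hbg j]
    simp only [Finset.sum_const, Nat.card_Ico, nsmul_eq_mul]
    have : 2 * h - h = h := by omega
    rw [this]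
    unfold gg
    field_simp
  rw [← hE1, hE2] at hdec
  rw [gg_dilate M α hα hp hx, ← mul_sub, abs_mul, abs_pow, abs_neg, abs_one, one_pow, one_mul]
  have : 2 * (2:ℝ) * Real.sqrt (M.H (word α (2 * h)) + M.H (res α p) -
      M.H (fun n => (word α (2 * h) n, res α p n))) = 4 * Real.sqrt (mi M α (2 * h) p) := by
    unfold mi
    ring
  linarith [hdec]

theorem card_box (p : ℕ) : (box I p).card = p ^ (Fintype.card I + 1) := by
  unfold box
  rw [Finset.card_product]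
  simp [Fintype.card_piFinset, pow_succ, mul_comm]

theorem H_res (M : IMean) (α : I → ℝ) (hα : ∀ i, 0 < α i)
    (hind : ∀ (c0 : ℤ) (c : I → ℤ), (c0 : ℝ) + ∑ i, (c i : ℝ) * α i = 0 → ∀ i, c i = 0)
    {Q : ℕ} (hQ : 0 < Q) : M.H (res α Q) = (Fintype.card I + 1 : ℝ) * Real.log Q := by
  rw [M.H_uniform (res_mem_box α hQ) (fun a ha => equidist M α hα hind hQ ha), card_box]
  push_cast
  rw [Real.log_pow]
  push_cast
  ring

/-- Good scales: some prime `p ∈ [2^m, (1+η) 2^m]` has `|gg x - σ gg (p x)| ≤ ε`. -/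
def Good (M : IMean) (α : I → ℝ) (x : ℕ) (ε η : ℝ) (m : ℕ) : Prop :=
  ∃ p : ℕ, p.Prime ∧ 2 ^ m ≤ p ∧ (p : ℝ) ≤ (1 + η) * 2 ^ m ∧
    |gg M α x - (-1) ^ (Fintype.card I + 1) * gg M α (p * x)| ≤ ε

theorem good_scales (M : IMean) (α : I → ℝ) (hα : ∀ i, 0 < α i)
    (hind : ∀ (c0 : ℤ) (c : I → ℤ), (c0 : ℝ) + ∑ i, (c i : ℝ) * α i = 0 → ∀ i, c i = 0)
    {x : ℕ} (hx : 0 < x) {ε η : ℝ} (hε : 0 < ε) (hη : 0 < η) :
    ∃ v : ℕ → ℝ, (∀ m, 0 ≤ v m) ∧ Summable v ∧ ∃ m0 : ℕ, ∀ m ≥ m0,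
      ¬ Good M α x ε η m → 1 / (m : ℝ) ≤ v m := by
  -- choose K'
  obtain ⟨K, hK2, hK⟩ : ∃ K : ℕ, 2 ≤ K ∧ ∀ i, 2 * (x : ℝ) + 1 ≤ α i * K := by
    have : ∀ i, ∃ k : ℕ, 2 * (x:ℝ) + 1 ≤ α i * k := fun i => by
      obtain ⟨k, hk⟩ := exists_nat_ge ((2 * (x:ℝ) + 1) / α i)
      refine ⟨k, ?_⟩
      rw [div_le_iff₀ (hα i)] at hk
      linarith
    choose k hk using this
    refine ⟨2 + ∑ i, k i, by omega, fun i => ?_⟩
    have h1 : k i ≤ 2 + ∑ i, k i := by
      have := Finset.single_le_sum (f := k) (fun i _ => Nat.zero_le _) (Finset.mem_univ i)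
      omega
    have h2 : (k i : ℝ) ≤ ((2 + ∑ i, k i : ℕ) : ℝ) := by exact_mod_cast h1
    exact (hk i).trans (mul_le_mul_of_nonneg_left h2 (hα i).le)
  have hZfin : ∀ Q, 0 < Q → (Set.range (res α Q)).Finite := fun Q hQ =>
    (Finset.finite_toSet (box I Q)).subset (res_mem_box α hQ)
  obtain ⟨u, hu0, hus, hu⟩ := entropy_decrement M (word α) (res α) (Fintype.card I + 1)
    (word_finite α hα) hZfin (word_double α hα) (fun H Q hQ => res_shift α hα H Q hQ)
    (fun p Q hp hQ h => res_mul α p Q hp hQ h) (fun Q hQ => H_res M α hα hind hQ)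
    (2 * K) (by omega)
  obtain ⟨c, hc, m0, hm0⟩ := weak_pnt hη
  refine ⟨fun m => 16 / (c * ε ^ 2) * u m, fun m => by have := hu0 m; positivity,
    hus.mul_left _, max m0 1, fun m hm hbad => ?_⟩
  have hm1 : 1 ≤ m := le_of_max_le_right hm
  have hmm0 : m0 ≤ m := le_of_max_le_left hm
  have hmpos : (0:ℝ) < m := by exact_mod_cast hm1
  set s := (Finset.Ico (2 ^ m) (2 ^ (m + 1))).filter Nat.Prime with hs
  set s' := (Finset.Ico (2 ^ m) (2 ^ (m + 1))).filter
      (fun p : ℕ => p.Prime ∧ (p : ℝ) ≤ (1 + η) * 2 ^ m) with hs'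
  have hsub : s' ⊆ s := by
    intro p hp
    simp only [hs', Finset.mem_filter] at hp
    simp only [hs, Finset.mem_filter]
    exact ⟨hp.1, hp.2.1⟩
  have hlow : ∀ p ∈ s', ε ^ 2 / 16 ≤ mi M α (2 * K * 2 ^ m) p := by
    intro p hp
    simp only [hs', Finset.mem_filter, Finset.mem_Ico] at hp
    obtain ⟨⟨hp1, hp2⟩, hpp, hp3⟩ := hp
    by_contra hlt
    push Not at hlt
    apply hbad
    refine ⟨p, hpp, hp1, hp3, ?_⟩
    have hple : (p:ℝ) ≤ 2 * 2 ^ m := by
      have : p ≤ 2 * 2 ^ m := by rw [← pow_succ']; exact hp2.le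
      exact_mod_cast this
    have hcond : ∀ i, (p : ℝ) * x + 1 ≤ α i * ((K * 2 ^ m : ℕ) : ℝ) := by
      intro i
      push_cast
      have h1 : (1:ℝ) ≤ 2 ^ m := one_le_pow₀ (by norm_num)
      have hx0 : (0:ℝ) ≤ x := Nat.cast_nonneg x
      calc (p : ℝ) * x + 1 ≤ (2 * 2 ^ m) * x + 2 ^ m := by gcongr
        _ = (2 * x + 1) * 2 ^ m := by ring
        _ ≤ (α i * K) * 2 ^ m := by gcongr; exact hK i
        _ = α i * (K * 2 ^ m) := by ring
    have hph : p ≤ K * 2 ^ m := by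
      have : p ≤ 2 * 2 ^ m := by rw [← pow_succ']; exact hp2.le
      exact this.trans (Nat.mul_le_mul_right _ hK2)
    have hst := decouple_step M α hα hind hpp hx hcond hph
    have e : 2 * (K * 2 ^ m) = 2 * K * 2 ^ m := by ring
    rw [e] at hst
    refine hst.trans ?_
    have hsq : Real.sqrt (mi M α (2 * K * 2 ^ m) p) ≤ ε / 4 := by
      rw [Real.sqrt_le_left (by positivity)]
      have : (ε / 4) ^ 2 = ε ^ 2 / 16 := by ring
      rw [this]
      exact hlt.le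
    linarith
  have hsum : (s'.card : ℝ) * (ε ^ 2 / 16) ≤ 2 ^ m * u m := by
    calc (s'.card : ℝ) * (ε ^ 2 / 16) = ∑ p ∈ s', ε ^ 2 / 16 := by simp
      _ ≤ ∑ p ∈ s', mi M α (2 * K * 2 ^ m) p := Finset.sum_le_sum hlow
      _ ≤ ∑ p ∈ s, mi M α (2 * K * 2 ^ m) p := by
          refine Finset.sum_le_sum_of_subset_of_nonneg hsub fun p hp _ => ?_
          simp only [hs, Finset.mem_filter] at hp
          exact mi_nonneg M α hα _ hp.2.pos
      _ ≤ 2 ^ m * u m := hu m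
  have hcard := hm0 m hmm0
  rw [← hs'] at hcard
  -- c 2^m ≤ m card;  card * ε²/16 ≤ 2^m u
  have h2m : (0:ℝ) < 2 ^ m := by positivity
  have key : c * (ε ^ 2 / 16) ≤ m * u m := by
    have h1 : c * 2 ^ m * (ε ^ 2 / 16) ≤ m * (2 ^ m * u m) := by
      calc c * 2 ^ m * (ε ^ 2 / 16) ≤ m * s'.card * (ε ^ 2 / 16) := by gcongr
        _ = m * (s'.card * (ε ^ 2 / 16)) := by ring
        _ ≤ m * (2 ^ m * u m) := by gcongr
    have h3 : (c * (ε ^ 2 / 16)) * 2 ^ m ≤ (m * u m) * 2 ^ m := by nlinarith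
    exact le_of_mul_le_mul_right h3 h2m
  rw [div_le_iff₀ hmpos]
  have : 16 / (c * ε ^ 2) * u m * m = (m * u m) / (c * (ε ^ 2 / 16)) := by
    field_simp
  rw [this, le_div_iff₀ (by positivity)]
  linarith

end Pool.MP_67663b_nt.Odd
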