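import Pool.Agent.Lib.MP_67663b_nt.Odd.Defs

set_option autoImplicit false
open Filter Topology
namespace Pool.MP_67663b_nt.Odd

variable {I : Type}

/-- The word of length `H` at `n` (padded by zeros). -/
noncomputable def word (α : I → ℝ) (H n : ℕ) : (ℕ → ℝ) × (I → ℕ → ℕ) × (I → ℕ → ℝ) :=
  (fun j => if j < H then lam (n + j) else 0,
   fun i j => if j ≤ H then bt (α i) (n + j) - bt (α i) n else 0,
   fun i r => if r ≤ bt (α i) (n + H) - bt (α i) n then lam (bt (α i) n + r) else 0)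

/-- The residues modulo `Q`. -/
noncomputable def res (α : I → ℝ) (Q n : ℕ) : ℕ × (I → ℕ) :=
  (n % Q, fun i => bt (α i) n % Q)

/-- All possible residues. -/
def box (I : Type) [Fintype I] [DecidableEq I] (Q : ℕ) : Finset (ℕ × (I → ℕ)) :=
  Finset.range Q ×ˢ Fintype.piFinset (fun _ => Finset.range Q)

/-- `av x m` = average of `lam` over the `x` integers `m, m-1, ..., m-x+1`. -/
noncomputable def av (x m : ℕ) : ℝ := (1 / (x : ℝ)) * ∑ s ∈ Finset.range x, lam (m - s)

/-- The decoupled correlation. -/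
noncomputable def gg (M : IMean) [Fintype I] (α : I → ℝ) (x : ℕ) : ℝ :=
  M.E (fun n => lam n * ∏ i, av x (bt (α i) n))

/-- average along the progression `m - (m % p) - p s`. -/
noncomputable def avp (p x m : ℕ) : ℝ :=
  (1 / (x : ℝ)) * ∑ s ∈ Finset.range x, lam (m - m % p - p * s)

/-- the dilated correlation function. -/
noncomputable def phi [Fintype I] (α : I → ℝ) (p x n : ℕ) : ℝ :=
  (if p ∣ n then (p : ℝ) else 0) * lam n * ∏ i, avp p x (bt (α i) n)

theorem abs_av_le (x m : ℕ) : |av x m| ≤ 1 := by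
  unfold av
  rw [abs_mul]
  rcases Nat.eq_zero_or_pos x with rfl | hx
  · simp
  have hx' : (0:ℝ) < x := by exact_mod_cast hx
  have h1 : |∑ s ∈ Finset.range x, lam (m - s)| ≤ x := by
    calc |∑ s ∈ Finset.range x, lam (m - s)| ≤ ∑ s ∈ Finset.range x, |lam (m - s)| :=
          Finset.abs_sum_le_sum_abs _ _
      _ = x := by simp [abs_lam]
  rw [abs_of_pos (by positivity)]
  calc 1 / (x:ℝ) * |∑ s ∈ Finset.range x, lam (m - s)| ≤ 1 / (x:ℝ) * x := by gcongr
    _ = 1 := by field_simp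

theorem abs_avp_le (p x m : ℕ) : |avp p x m| ≤ 1 := by
  unfold avp
  rw [abs_mul]
  rcases Nat.eq_zero_or_pos x with rfl | hx
  · simp
  have hx' : (0:ℝ) < x := by exact_mod_cast hx
  have h1 : |∑ s ∈ Finset.range x, lam (m - m % p - p * s)| ≤ x := by
    calc |∑ s ∈ Finset.range x, lam (m - m % p - p * s)|
        ≤ ∑ s ∈ Finset.range x, |lam (m - m % p - p * s)| := Finset.abs_sum_le_sum_abs _ _
      _ = x := by simp [abs_lam]
  rw [abs_of_pos (by positivity)]
  calc 1 / (x:ℝ) * |∑ s ∈ Finset.range x, lam (m - m % p - p * s)| ≤ 1 / (x:ℝ) * x := by gcongr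
    _ = 1 := by field_simp

theorem bdd_prod_av [Fintype I] (α : I → ℝ) (x : ℕ) : Bdd (fun n => ∏ i, av x (bt (α i) n)) :=
  Bdd.prod _ fun _ _ => ⟨1, fun _ => abs_av_le _ _⟩

theorem bdd_gg [Fintype I] (α : I → ℝ) (x : ℕ) :
    Bdd (fun n => lam n * ∏ i, av x (bt (α i) n)) := bdd_lam.mul (bdd_prod_av α x)

theorem bdd_phi [Fintype I] (α : I → ℝ) (p x : ℕ) : Bdd (phi α p x) :=
  ((Bdd.ite _ (Bdd.const (p:ℝ)) (Bdd.const 0)).mul bdd_lam).mul
    (Bdd.prod _ fun _ _ => ⟨1, fun _ => abs_avp_le _ _ _⟩)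

end Pool.MP_67663b_nt.Odd
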