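import Mathlib

/-!
# Odd order Liouville correlations along Beatty sequences: definitions

`IMean` = invariant mean: a positive normalised linear functional on bounded functions `ℕ → ℝ`
which ignores finitely many values, is invariant under the shift, and satisfies the dilation rule
of the logarithmic averages.
-/

set_option autoImplicit false

open Filter Topology

namespace Pool.MP_67663b_nt.Odd

/-- The Liouville function, with the (irrelevant) value `1` at `0`. -/
noncomputable def lam (n : ℕ) : ℝ := (-1 : ℝ) ^ ArithmeticFunction.cardFactors n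

/-- `bt a n = ⌊a n⌋`. -/
noncomputable def bt (a : ℝ) (n : ℕ) : ℕ := ⌊a * (n : ℝ)⌋₊

/-- Bounded functions. -/
def Bdd (f : ℕ → ℝ) : Prop := ∃ B : ℝ, ∀ n, |f n| ≤ B

/-- Logarithmic mean. -/
noncomputable def logMean (f : ℕ → ℝ) (N : ℕ) : ℝ :=
  (1 / Real.log (N : ℝ)) * ∑ n ∈ Finset.Icc 1 N, (1 / (n : ℝ)) * f n

/-- An invariant mean with the dilation rule of log averages. -/
structure IMean where
  E : (ℕ → ℝ) → ℝ
  add : ∀ f g, Bdd f → Bdd g → E (fun n => f n + g n) = E f + E g
  smul : ∀ (c : ℝ) f, Bdd f → E (fun n => c * f n) = c * E f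
  mono : ∀ f g, Bdd f → Bdd g → (∀ᶠ n in atTop, f n ≤ g n) → E f ≤ E g
  one : E (fun _ => 1) = 1
  shift : ∀ f, Bdd f → E (fun n => f (n + 1)) = E f
  dil : ∀ p : ℕ, 0 < p → ∀ f, Bdd f →
    E (fun n => if p ∣ n then (p : ℝ) * f (n / p) else 0) = E f

/-- Probability of the event `X = a` (X a random variable on `ℕ`). -/
noncomputable def IMean.P (M : IMean) {A : Type*} (X : ℕ → A) (a : A) : ℝ :=
  open Classical in M.E (fun n => if X n = a then 1 else 0)

/-- Shannon entropy of a random variable with finite range. -/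
noncomputable def IMean.H (M : IMean) {A : Type*} (X : ℕ → A) : ℝ :=
  ∑ᶠ a, Real.negMulLog (M.P X a)

/-! ### basic facts -/

theorem Bdd.add {f g : ℕ → ℝ} (hf : Bdd f) (hg : Bdd g) : Bdd (fun n => f n + g n) := by
  obtain ⟨B, hB⟩ := hf
  obtain ⟨C, hC⟩ := hg
  exact ⟨B + C, fun n => (abs_add_le _ _).trans (add_le_add (hB n) (hC n))⟩

theorem Bdd.const (c : ℝ) : Bdd (fun _ => c) := ⟨|c|, fun _ => le_rfl⟩

theorem Bdd.mul {f g : ℕ → ℝ} (hf : Bdd f) (hg : Bdd g) : Bdd (fun n => f n * g n) := by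
  obtain ⟨B, hB⟩ := hf
  obtain ⟨C, hC⟩ := hg
  refine ⟨B * C, fun n => ?_⟩
  rw [abs_mul]
  exact mul_le_mul (hB n) (hC n) (abs_nonneg _) ((abs_nonneg _).trans (hB n))

theorem Bdd.smul {f : ℕ → ℝ} (c : ℝ) (hf : Bdd f) : Bdd (fun n => c * f n) :=
  (Bdd.const c).mul hf

theorem Bdd.neg {f : ℕ → ℝ} (hf : Bdd f) : Bdd (fun n => - f n) := by
  obtain ⟨B, hB⟩ := hf
  exact ⟨B, fun n => by rw [abs_neg]; exact hB n⟩

theorem Bdd.sub {f g : ℕ → ℝ} (hf : Bdd f) (hg : Bdd g) : Bdd (fun n => f n - g n) := by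
  simpa [sub_eq_add_neg] using hf.add hg.neg

theorem Bdd.sum {I : Type*} (s : Finset I) {f : I → ℕ → ℝ} (hf : ∀ i ∈ s, Bdd (f i)) :
    Bdd (fun n => ∑ i ∈ s, f i n) := by
  classical
  induction s using Finset.induction_on with
  | empty => simpa using Bdd.const 0
  | insert a s ha ih =>
    simp only [Finset.sum_insert ha]
    exact (hf a (Finset.mem_insert_self a s)).add
      (ih fun i hi => hf i (Finset.mem_insert_of_mem hi))

theorem Bdd.prod {I : Type*} (s : Finset I) {f : I → ℕ → ℝ} (hf : ∀ i ∈ s, Bdd (f i)) :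
    Bdd (fun n => ∏ i ∈ s, f i n) := by
  classical
  induction s using Finset.induction_on with
  | empty => simpa using Bdd.const 1
  | insert a s ha ih =>
    simp only [Finset.prod_insert ha]
    exact (hf a (Finset.mem_insert_self a s)).mul
      (ih fun i hi => hf i (Finset.mem_insert_of_mem hi))

theorem Bdd.comp {f : ℕ → ℝ} (hf : Bdd f) (g : ℕ → ℕ) : Bdd (fun n => f (g n)) := by
  obtain ⟨B, hB⟩ := hf
  exact ⟨B, fun n => hB _⟩

theorem Bdd.ite {f g : ℕ → ℝ} (p : ℕ → Prop) [DecidablePred p] (hf : Bdd f) (hg : Bdd g) :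
    Bdd (fun n => if p n then f n else g n) := by
  obtain ⟨B, hB⟩ := hf
  obtain ⟨C, hC⟩ := hg
  refine ⟨max B C, fun n => ?_⟩
  dsimp only
  split_ifs
  · exact (hB n).trans (le_max_left _ _)
  · exact (hC n).trans (le_max_right _ _)

theorem abs_lam (n : ℕ) : |lam n| = 1 := by
  simp [lam, abs_pow]

theorem bdd_lam : Bdd lam := ⟨1, fun n => (abs_lam n).le⟩

theorem lam_mul {m n : ℕ} (hm : m ≠ 0) (hn : n ≠ 0) : lam (m * n) = lam m * lam n := by
  simp [lam, ArithmeticFunction.cardFactors_mul hm hn, pow_add]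

theorem lam_prime {p : ℕ} (hp : p.Prime) : lam p = -1 := by
  simp [lam, ArithmeticFunction.cardFactors_apply_prime hp]

namespace IMean

variable (M : IMean)

theorem congr {f g : ℕ → ℝ} (hf : Bdd f) (hg : Bdd g) (h : ∀ᶠ n in atTop, f n = g n) :
    M.E f = M.E g :=
  le_antisymm (M.mono f g hf hg (h.mono fun _ hn => hn.le))
    (M.mono g f hg hf (h.mono fun _ hn => hn.ge))

theorem E_const (c : ℝ) : M.E (fun _ => c) = c := by
  have := M.smul c (fun _ => 1) (Bdd.const 1)
  simpa [M.one] using this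

theorem E_neg {f : ℕ → ℝ} (hf : Bdd f) : M.E (fun n => - f n) = - M.E f := by
  have := M.smul (-1) f hf
  simpa using this

theorem E_sub {f g : ℕ → ℝ} (hf : Bdd f) (hg : Bdd g) :
    M.E (fun n => f n - g n) = M.E f - M.E g := by
  have := M.add f (fun n => - g n) hf hg.neg
  rw [M.E_neg hg] at this
  simpa [sub_eq_add_neg] using this

theorem E_sum {I : Type*} (s : Finset I) {f : I → ℕ → ℝ} (hf : ∀ i ∈ s, Bdd (f i)) :
    M.E (fun n => ∑ i ∈ s, f i n) = ∑ i ∈ s, M.E (f i) := by
  classical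
  induction s using Finset.induction_on with
  | empty => simpa using M.E_const 0
  | insert a s ha ih =>
    simp only [Finset.sum_insert ha]
    rw [M.add _ _ (hf a (Finset.mem_insert_self a s))
      (Bdd.sum s fun i hi => hf i (Finset.mem_insert_of_mem hi)),
      ih fun i hi => hf i (Finset.mem_insert_of_mem hi)]

theorem E_nonneg {f : ℕ → ℝ} (hf : Bdd f) (h : ∀ᶠ n in atTop, 0 ≤ f n) : 0 ≤ M.E f := by
  have := M.mono (fun _ => 0) f (Bdd.const 0) hf h
  simpa [M.E_const] using this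

theorem E_le {f : ℕ → ℝ} (hf : Bdd f) {c : ℝ} (h : ∀ᶠ n in atTop, f n ≤ c) : M.E f ≤ c := by
  have := M.mono f (fun _ => c) hf (Bdd.const c) h
  simpa [M.E_const] using this

theorem abs_E_le {f : ℕ → ℝ} (hf : Bdd f) {c : ℝ} (h : ∀ᶠ n in atTop, |f n| ≤ c) :
    |M.E f| ≤ c := by
  rw [abs_le]
  constructor
  · have := M.mono (fun _ => -c) f (Bdd.const _) hf (h.mono fun n hn => (abs_le.mp hn).1)
    simpa [M.E_const] using this
  · exact M.E_le hf (h.mono fun n hn => (abs_le.mp hn).2)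

theorem E_shift {f : ℕ → ℝ} (hf : Bdd f) (h : ℕ) : M.E (fun n => f (n + h)) = M.E f := by
  induction h with
  | zero => simp
  | succ k ih =>
    have h1 := M.shift (fun n => f (n + k)) (hf.comp _)
    rw [ih] at h1
    rw [← h1]
    congr 1
    funext n
    congr 1
    ring

theorem P_nonneg {A : Type*} (X : ℕ → A) (a : A) : 0 ≤ M.P X a := by
  classical
  unfold P
  refine M.E_nonneg (Bdd.ite _ (Bdd.const 1) (Bdd.const 0)) (Eventually.of_forall fun n => ?_)
  split_ifs <;> norm_num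

theorem P_le_one {A : Type*} (X : ℕ → A) (a : A) : M.P X a ≤ 1 := by
  classical
  unfold P
  refine M.E_le (Bdd.ite _ (Bdd.const 1) (Bdd.const 0)) (Eventually.of_forall fun n => ?_)
  split_ifs <;> norm_num

theorem P_eq_zero {A : Type*} {X : ℕ → A} {a : A} (h : a ∉ Set.range X) : M.P X a = 0 := by
  classical
  unfold P
  have : (fun n => if X n = a then (1:ℝ) else 0) = fun _ => 0 := by
    funext n
    rw [if_neg]
    exact fun hn => h ⟨n, hn⟩
  rw [this, M.E_const]

/-- Entropy as a sum over any finset containing the range. -/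
theorem H_eq_sum {A : Type*} {X : ℕ → A} {s : Finset A} (h : Set.range X ⊆ s) :
    M.H X = ∑ a ∈ s, Real.negMulLog (M.P X a) := by
  unfold H
  refine finsum_eq_sum_of_support_subset _ ?_
  intro a ha
  refine h ?_
  by_contra hn
  apply ha
  simp [M.P_eq_zero hn]

theorem H_nonneg {A : Type*} (X : ℕ → A) : 0 ≤ M.H X :=
  finsum_nonneg fun a => Real.negMulLog_nonneg (M.P_nonneg X a) (M.P_le_one X a)

/-- Shift invariance of the law. -/
theorem P_shift {A : Type*} (X : ℕ → A) (h : ℕ) (a : A) : M.P (fun n => X (n + h)) a = M.P X a := by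
  classical
  unfold P
  exact M.E_shift (f := fun n => if X n = a then (1:ℝ) else 0)
    (Bdd.ite _ (Bdd.const 1) (Bdd.const 0)) h

theorem H_shift {A : Type*} (X : ℕ → A) (h : ℕ) : M.H (fun n => X (n + h)) = M.H X := by
  unfold H
  simp only [M.P_shift]

end IMean

end Pool.MP_67663b_nt.Odd
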