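import Pool.Agent.Lib.MP_67663b_nt.Odd.Defs

set_option autoImplicit false
open Filter Topology
namespace Pool.MP_67663b_nt.Odd
namespace IMean
variable (M : IMean)

theorem bdd_ind {A : Type*} (X : ℕ → A) (a : A) :
    Bdd (fun n => open Classical in if X n = a then (1:ℝ) else 0) := by
  classical
  exact Bdd.ite _ (Bdd.const 1) (Bdd.const 0)

/-- Law of a function of `X`. -/
theorem P_comp {A B : Type*} [DecidableEq B] {X : ℕ → A} {s : Finset A} (hs : Set.range X ⊆ s)
    (f : A → B) (b : B) : M.P (fun n => f (X n)) b = ∑ a ∈ s with f a = b, M.P X a := by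
  classical
  unfold P
  rw [← M.E_sum _ fun i _ => bdd_ind X i]
  congr 1
  funext n
  rw [Finset.sum_ite_eq]
  have hX : X n ∈ s := hs ⟨n, rfl⟩
  simp [hX]

theorem sum_P {A : Type*} {X : ℕ → A} {s : Finset A} (hs : Set.range X ⊆ s) :
    ∑ a ∈ s, M.P X a = 1 := by
  classical
  unfold P
  rw [← M.E_sum _ fun i _ => bdd_ind X i]
  refine Eq.trans ?_ M.one
  congr 1
  funext n
  rw [Finset.sum_ite_eq]
  have hX : X n ∈ s := hs ⟨n, rfl⟩
  simp [hX]

/-- Law of an injective function of `X`. -/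
theorem P_inj {A B : Type*} {X : ℕ → A} {g : A → B} (hg : Function.Injective g) (a : A) :
    M.P (fun n => g (X n)) (g a) = M.P X a := by
  unfold P
  congr 1
  funext n
  by_cases h : X n = a
  · rw [if_pos h, if_pos (congrArg g h)]
  · rw [if_neg h, if_neg fun h' => h (hg h')]

/-- Marginals. -/
theorem P_marg {A B : Type*} {X : ℕ → A} {Y : ℕ → B} {t : Finset B} (ht : Set.range Y ⊆ t)
    (a : A) : M.P X a = ∑ b ∈ t, M.P (fun n => (X n, Y n)) (a, b) := by
  classical
  unfold P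
  rw [← M.E_sum _ fun i _ => bdd_ind (fun n => (X n, Y n)) (a, i)]
  congr 1
  funext n
  have hY : Y n ∈ t := ht ⟨n, rfl⟩
  by_cases h : X n = a
  · simp [h, hY]
  · simp [h]

/-- Data processing for entropy. -/
theorem H_comp_le {A B : Type*} {X : ℕ → A} (hX : (Set.range X).Finite) (f : A → B) :
    M.H (fun n => f (X n)) ≤ M.H X := by
  classical
  set s := hX.toFinset with hsdef
  have hs : Set.range X ⊆ s := by rw [hsdef, Set.Finite.coe_toFinset]
  have ht : Set.range (fun n => f (X n)) ⊆ (s.image f : Finset B) := by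
    rintro _ ⟨n, rfl⟩
    exact Finset.mem_coe.2 (Finset.mem_image_of_mem f (hs ⟨n, rfl⟩))
  rw [M.H_eq_sum hs, M.H_eq_sum ht,
    ← Finset.sum_fiberwise_of_maps_to (s := s) (t := s.image f) (g := f)
      (fun a ha => Finset.mem_image_of_mem f ha)]
  refine Finset.sum_le_sum fun b _ => ?_
  rw [M.P_comp hs f b, Real.negMulLog, neg_mul, Finset.sum_mul, ← Finset.sum_neg_distrib]
  refine Finset.sum_le_sum fun a ha => ?_
  rw [Real.negMulLog, neg_mul, neg_le_neg_iff]
  rcases eq_or_lt_of_le (M.P_nonneg X a) with h0 | h0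
  · rw [← h0]; simp
  · refine mul_le_mul_of_nonneg_left (Real.log_le_log h0 ?_) h0.le
    exact Finset.single_le_sum (f := fun a => M.P X a) (fun i _ => M.P_nonneg X i) ha

theorem submod_aux {r u v w : ℝ} (hr : 0 ≤ r) (hu : r ≤ u) (hv : r ≤ v) (hw : u ≤ w) :
    Real.negMulLog r - r * Real.log w + r * Real.log u + r * Real.log v ≤ u * v / w - r := by
  rcases eq_or_lt_of_le hr with h0 | h0
  · subst h0
    have : 0 ≤ u * v / w := div_nonneg (mul_nonneg hu hv) (hu.trans hw)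
    simpa using this
  · have hu0 : 0 < u := h0.trans_le hu
    have hv0 : 0 < v := h0.trans_le hv
    have hw0 : 0 < w := hu0.trans_le hw
    have h1 : Real.log (u * v / (r * w)) ≤ u * v / (r * w) - 1 :=
      Real.log_le_sub_one_of_pos (by positivity)
    rw [Real.log_div (by positivity) (by positivity), Real.log_mul hu0.ne' hv0.ne',
      Real.log_mul h0.ne' hw0.ne'] at h1
    have h2 := mul_le_mul_of_nonneg_left h1 h0.le
    have h3 : r * (u * v / (r * w) - 1) = u * v / w - r := by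
      field_simp
    rw [h3] at h2
    rw [Real.negMulLog]
    linarith

/-- Submodularity (nonnegativity of conditional mutual information). -/
theorem H_submod {A B C : Type*} {X : ℕ → A} {Y : ℕ → B} {Z : ℕ → C}
    (hX : (Set.range X).Finite) (hY : (Set.range Y).Finite) (hZ : (Set.range Z).Finite) :
    M.H (fun n => (X n, Y n, Z n)) + M.H Z ≤
      M.H (fun n => (X n, Z n)) + M.H (fun n => (Y n, Z n)) := by
  classical
  set s := hX.toFinset with hsdef
  set t := hY.toFinset with htdef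
  set u := hZ.toFinset with hudef
  have hs : Set.range X ⊆ s := by rw [hsdef, Set.Finite.coe_toFinset]
  have ht : Set.range Y ⊆ t := by rw [htdef, Set.Finite.coe_toFinset]
  have hu : Set.range Z ⊆ u := by rw [hudef, Set.Finite.coe_toFinset]
  have hstu : Set.range (fun n => (X n, Y n, Z n)) ⊆ (s ×ˢ t ×ˢ u : Finset (A × B × C)) := by
    rintro _ ⟨n, rfl⟩
    simp only [Finset.mem_coe, Finset.mem_product]
    exact ⟨hs ⟨n, rfl⟩, ht ⟨n, rfl⟩, hu ⟨n, rfl⟩⟩
  have hsu : Set.range (fun n => (X n, Z n)) ⊆ (s ×ˢ u : Finset (A × C)) := by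
    rintro _ ⟨n, rfl⟩
    simp only [Finset.mem_coe, Finset.mem_product]
    exact ⟨hs ⟨n, rfl⟩, hu ⟨n, rfl⟩⟩
  have htu : Set.range (fun n => (Y n, Z n)) ⊆ (t ×ˢ u : Finset (B × C)) := by
    rintro _ ⟨n, rfl⟩
    simp only [Finset.mem_coe, Finset.mem_product]
    exact ⟨ht ⟨n, rfl⟩, hu ⟨n, rfl⟩⟩
  set r : A → B → C → ℝ := fun a b c => M.P (fun n => (X n, Y n, Z n)) (a, b, c) with hr
  have hr0 : ∀ a b c, 0 ≤ r a b c := fun a b c => M.P_nonneg _ _
  have hxz : ∀ a c, M.P (fun n => (X n, Z n)) (a, c) = ∑ b ∈ t, r a b c := by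
    intro a c
    rw [M.P_marg ht (a, c)]
    refine Finset.sum_congr rfl fun b _ => ?_
    exact M.P_inj (X := fun n => (X n, Y n, Z n))
      (g := fun q : A × B × C => ((q.1, q.2.2), q.2.1))
      (fun q q' h => by
        simp only [Prod.mk.injEq] at h
        obtain ⟨⟨h1, h2⟩, h3⟩ := h
        exact Prod.ext h1 (Prod.ext h3 h2)) (a, b, c)
  have hyz : ∀ b c, M.P (fun n => (Y n, Z n)) (b, c) = ∑ a ∈ s, r a b c := by
    intro b c
    rw [M.P_marg hs (b, c)]
    refine Finset.sum_congr rfl fun a _ => ?_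
    exact M.P_inj (X := fun n => (X n, Y n, Z n))
      (g := fun q : A × B × C => ((q.2.1, q.2.2), q.1))
      (fun q q' h => by
        simp only [Prod.mk.injEq] at h
        obtain ⟨⟨h1, h2⟩, h3⟩ := h
        exact Prod.ext h3 (Prod.ext h1 h2)) (a, b, c)
  have hzc : ∀ c, M.P Z c = ∑ a ∈ s, ∑ b ∈ t, r a b c := by
    intro c
    rw [M.P_marg hs c]
    refine Finset.sum_congr rfl fun a _ => ?_
    rw [← hxz]
    exact M.P_inj (X := fun n => (X n, Z n)) (g := fun q : A × C => (q.2, q.1))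
      (fun q q' h => by
        simp only [Prod.mk.injEq] at h
        exact Prod.ext h.2 h.1) (a, c)
  have hzc' : ∀ c, M.P Z c = ∑ b ∈ t, ∑ a ∈ s, r a b c := by
    intro c
    rw [hzc, Finset.sum_comm]
  rw [M.H_eq_sum hstu, M.H_eq_sum hu, M.H_eq_sum hsu, M.H_eq_sum htu]
  have e1 : ∑ q ∈ s ×ˢ t ×ˢ u, Real.negMulLog (M.P (fun n => (X n, Y n, Z n)) q) =
      ∑ c ∈ u, ∑ a ∈ s, ∑ b ∈ t, Real.negMulLog (r a b c) := by
    rw [Finset.sum_product]
    trans ∑ a ∈ s, ∑ c ∈ u, ∑ b ∈ t, Real.negMulLog (r a b c)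
    · refine Finset.sum_congr rfl fun a _ => ?_
      rw [Finset.sum_product, Finset.sum_comm]
    · rw [Finset.sum_comm]
  have e2 : ∑ q ∈ s ×ˢ u, Real.negMulLog (M.P (fun n => (X n, Z n)) q) =
      ∑ c ∈ u, ∑ a ∈ s, Real.negMulLog (∑ b ∈ t, r a b c) := by
    rw [Finset.sum_product, Finset.sum_comm]
    exact Finset.sum_congr rfl fun c _ => Finset.sum_congr rfl fun a _ => by rw [hxz]
  have e3 : ∑ q ∈ t ×ˢ u, Real.negMulLog (M.P (fun n => (Y n, Z n)) q) =
      ∑ c ∈ u, ∑ b ∈ t, Real.negMulLog (∑ a ∈ s, r a b c) := by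
    rw [Finset.sum_product, Finset.sum_comm]
    exact Finset.sum_congr rfl fun c _ => Finset.sum_congr rfl fun a _ => by rw [hyz]
  rw [e1, e2, e3, ← Finset.sum_add_distrib, ← Finset.sum_add_distrib]
  refine Finset.sum_le_sum fun c _ => ?_
  rw [hzc]
  set w : ℝ := ∑ a ∈ s, ∑ b ∈ t, r a b c with hw
  have hw' : w = ∑ b ∈ t, ∑ a ∈ s, r a b c := by rw [hw, Finset.sum_comm]
  have key : ∑ a ∈ s, ∑ b ∈ t, (Real.negMulLog (r a b c) - r a b c * Real.log w +
      r a b c * Real.log (∑ b' ∈ t, r a b' c) + r a b c * Real.log (∑ a' ∈ s, r a' b c)) ≤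
      ∑ a ∈ s, ∑ b ∈ t, ((∑ b' ∈ t, r a b' c) * (∑ a' ∈ s, r a' b c) / w - r a b c) := by
    refine Finset.sum_le_sum fun a ha => Finset.sum_le_sum fun b hb => ?_
    refine submod_aux (hr0 a b c) ?_ ?_ ?_
    · exact Finset.single_le_sum (f := fun b' => r a b' c) (fun i _ => hr0 a i c) hb
    · exact Finset.single_le_sum (f := fun a' => r a' b c) (fun i _ => hr0 i b c) ha
    · exact Finset.single_le_sum (f := fun a' => ∑ b' ∈ t, r a' b' c)
        (fun i _ => Finset.sum_nonneg fun j _ => hr0 i j c) ha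
  have h1 : ∑ a ∈ s, ∑ b ∈ t, ((∑ b' ∈ t, r a b' c) * (∑ a' ∈ s, r a' b c) / w - r a b c) = 0 := by
    simp only [Finset.sum_sub_distrib, ← Finset.sum_div, ← Finset.mul_sum, ← Finset.sum_mul]
    rw [← hw, ← hw']
    rcases eq_or_ne w 0 with h | h
    · rw [h]; simp
    · field_simp
      ring
  have h2 : ∑ a ∈ s, ∑ b ∈ t, (Real.negMulLog (r a b c) - r a b c * Real.log w +
      r a b c * Real.log (∑ b' ∈ t, r a b' c) + r a b c * Real.log (∑ a' ∈ s, r a' b c)) =
      ∑ a ∈ s, ∑ b ∈ t, Real.negMulLog (r a b c) - w * Real.log w +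
      ∑ a ∈ s, (∑ b ∈ t, r a b c) * Real.log (∑ b ∈ t, r a b c) +
      ∑ b ∈ t, (∑ a ∈ s, r a b c) * Real.log (∑ a ∈ s, r a b c) := by
    simp only [Finset.sum_add_distrib, Finset.sum_sub_distrib, ← Finset.sum_mul]
    rw [← hw]
    congr 1
    rw [Finset.sum_comm]
    simp only [← Finset.sum_mul]
  rw [h1, h2] at key
  have h3 : ∑ a ∈ s, Real.negMulLog (∑ b ∈ t, r a b c) =
      - ∑ a ∈ s, (∑ b ∈ t, r a b c) * Real.log (∑ b ∈ t, r a b c) := by
    rw [← Finset.sum_neg_distrib]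
    exact Finset.sum_congr rfl fun a _ => by rw [Real.negMulLog]; ring
  have h4 : ∑ b ∈ t, Real.negMulLog (∑ a ∈ s, r a b c) =
      - ∑ b ∈ t, (∑ a ∈ s, r a b c) * Real.log (∑ a ∈ s, r a b c) := by
    rw [← Finset.sum_neg_distrib]
    exact Finset.sum_congr rfl fun a _ => by rw [Real.negMulLog]; ring
  have h5 : Real.negMulLog w = - (w * Real.log w) := by rw [Real.negMulLog]; ring
  rw [h3, h4, h5]
  linarith

theorem H_pair_le {A B : Type*} {X : ℕ → A} {Y : ℕ → B}
    (hX : (Set.range X).Finite) (hY : (Set.range Y).Finite) :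
    M.H (fun n => (X n, Y n)) ≤ M.H X + M.H Y := by
  have hXY : (Set.range (fun n => (X n, Y n, ()))).Finite :=
    (hX.prod (hY.prod (Set.finite_singleton ()))).subset (by
      rintro _ ⟨n, rfl⟩
      exact ⟨⟨n, rfl⟩, ⟨n, rfl⟩, rfl⟩)
  have h1 := M.H_submod hX hY (Z := fun _ => ()) (Set.finite_range_const)
  have h2 := M.H_comp_le hXY (fun q : A × B × Unit => (q.1, q.2.1))
  have h3 := M.H_comp_le hX (fun a => (a, ()))
  have h4 := M.H_comp_le hY (fun a => (a, ()))
  have h5 := M.H_nonneg (fun _ => ())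
  simp only at h1 h2 h3 h4 h5
  linarith

theorem H_uniform {A : Type*} {X : ℕ → A} {s : Finset A} (hs : Set.range X ⊆ s)
    (h : ∀ a ∈ s, M.P X a = 1 / (s.card : ℝ)) : M.H X = Real.log s.card := by
  have hc : 0 < s.card := Finset.card_pos.2 ⟨X 0, hs ⟨0, rfl⟩⟩
  have hc' : (s.card : ℝ) ≠ 0 := by exact_mod_cast hc.ne'
  rw [M.H_eq_sum hs, Finset.sum_congr rfl fun a ha => by rw [h a ha], Finset.sum_const,
    Real.negMulLog, Real.log_div one_ne_zero hc', Real.log_one, nsmul_eq_mul]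
  field_simp
  ring

end IMean
end Pool.MP_67663b_nt.Odd
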