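import Pool.Agent.Lib.MP_67663b_nt.Odd.Step
import Pool.Agent.Lib.MP_67663b_nt.Odd.MeanExists

set_option autoImplicit false
open Filter Topology
namespace Pool.MP_67663b_nt.Odd

variable {I : Type} [Fintype I] [DecidableEq I]

theorem not_summable_of_tail {v : ℕ → ℝ} (a : ℕ) {m0 : ℕ}
    (h : ∀ m ≥ m0, 1 / ((a + m : ℕ) : ℝ) ≤ v m) : ¬ Summable v := by
  intro hs
  have h1 : Summable (fun m : ℕ => 1 / ((a + (m + m0) : ℕ) : ℝ)) := by
    refine Summable.of_nonneg_of_le (fun m => by positivity) (fun m => h (m + m0) (by omega))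
      ((summable_nat_add_iff m0).mpr hs)
  have h2 : Summable (fun m : ℕ => 1 / ((m + (m0 + a) : ℕ) : ℝ)) := by
    refine h1.congr fun m => ?_
    congr 2
    ring
  have h3 := (summable_nat_add_iff (f := fun n : ℕ => 1 / (n : ℝ)) (m0 + a)).mp h2
  exact Real.not_summable_one_div_natCast h3

/-- The key: the correlation vanishes when the number of Beatty factors is even. -/
theorem gg_one_small (M : IMean) (α : I → ℝ) (hα : ∀ i, 0 < α i)
    (hind : ∀ (c0 : ℤ) (c : I → ℤ), (c0 : ℝ) + ∑ i, (c i : ℝ) * α i = 0 → ∀ i, c i = 0)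
    (heven : Even (Fintype.card I)) {ε η : ℝ} (hε : 0 < ε) (hη : 0 < η) (hη1 : η ≤ 1) :
    |2 * gg M α 1| ≤ 3 * ε + Fintype.card I * (6 * η) := by
  have hsign : ∀ t : ℝ, (-1 : ℝ) ^ (Fintype.card I + 1) * t = - t := by
    intro t
    rw [pow_succ, heven.neg_one_pow]
    ring
  obtain ⟨v1, hv10, hv1s, m1, hm1⟩ := good_scales M α hα hind (x := 1) one_pos hε hη
  -- first prime
  obtain ⟨a, q1, hq1p, ha1, ha2, hq1⟩ : ∃ a, Good M α 1 ε η a := by
    by_contra hno
    push Not at hno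
    refine not_summable_of_tail (v := v1) 0 (m0 := m1) (fun m hm => ?_) hv1s
    simpa using hm1 m hm (hno m)
  obtain ⟨v2, hv20, hv2s, m2, hm2⟩ := good_scales M α hα hind (x := q1) hq1p.pos hε hη
  obtain ⟨b, hb, hab⟩ : ∃ b, Good M α q1 ε η b ∧ Good M α 1 ε η (a + b) := by
    by_contra hno
    push Not at hno
    refine not_summable_of_tail (v := fun m => v2 m + v1 (a + m)) a (m0 := max m1 m2 + 1)
      (fun m hm => ?_) (hv2s.add ?_)
    · by_cases hg : Good M α q1 ε η m
      · have h1 := hm1 (a + m) (by omega) (hno m hg)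
        have h2 := hv20 m
        show _ ≤ v2 m + v1 (a + m)
        linarith
      · have h1 := hm2 m (by omega) hg
        have h2 := hv10 (a + m)
        have h3 : 1 / ((a + m : ℕ) : ℝ) ≤ 1 / (m : ℝ) := by
          have hmpos : (0:ℝ) < m := by
            have : 0 < m := by omega
            exact_mod_cast this
          apply one_div_le_one_div_of_le hmpos
          push_cast
          have : (0:ℝ) ≤ a := Nat.cast_nonneg a
          linarith
        show _ ≤ v2 m + v1 (a + m)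
        linarith
    · have := (summable_nat_add_iff a).mpr hv1s
      refine this.congr fun m => ?_
      rw [add_comm]
  obtain ⟨q2, hq2p, hb1, hb2, hq2⟩ := hb
  obtain ⟨q3, hq3p, hc1, hc2, hq3⟩ := hab
  rw [hsign, sub_neg_eq_add] at hq1 hq2 hq3
  rw [mul_one] at hq1 hq3
  -- Lipschitz
  have hA : (0:ℝ) < 2 ^ a := by positivity
  have hB : (0:ℝ) < 2 ^ b := by positivity
  have ha1' : (2:ℝ) ^ a ≤ q1 := by exact_mod_cast ha1
  have hb1' : (2:ℝ) ^ b ≤ q2 := by exact_mod_cast hb1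
  have hc1' : (2:ℝ) ^ (a + b) ≤ q3 := by exact_mod_cast hc1
  have hL : (0:ℝ) < 2 ^ (a + b) := by positivity
  have hprod1 : (2:ℝ) ^ (a + b) ≤ ((q2 * q1 : ℕ) : ℝ) := by
    push_cast
    rw [pow_add, mul_comm]
    gcongr
  have hprod2 : ((q2 * q1 : ℕ) : ℝ) ≤ (1 + η) ^ 2 * 2 ^ (a + b) := by
    push_cast
    calc (q2:ℝ) * q1 ≤ ((1 + η) * 2 ^ b) * ((1 + η) * 2 ^ a) := by gcongr
      _ = (1 + η) ^ 2 * 2 ^ (a + b) := by rw [pow_add]; ring
  have hdist : |((q2 * q1 : ℕ) : ℝ) - q3| ≤ 3 * η * 2 ^ (a + b) := by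
    rw [abs_le]
    constructor
    · nlinarith
    · have : (1 + η) ^ 2 ≤ 1 + 3 * η := by nlinarith
      have h5 : (1 + η) ^ 2 * (2:ℝ) ^ (a + b) ≤ (1 + 3 * η) * 2 ^ (a + b) := by gcongr
      nlinarith
  have hlip := gg_lip M α (x := q2 * q1) (y := q3) (Nat.mul_pos hq2p.pos hq1p.pos) hq3p.pos hL
    hprod1 hc1' hdist
  have hsimp : (2:ℝ) * (3 * η * 2 ^ (a + b)) / 2 ^ (a + b) = 6 * η := by
    field_simp
    ring
  rw [hsimp] at hlip
  have hfin : 2 * gg M α 1 = (gg M α 1 + gg M α q1) - (gg M α q1 + gg M α (q2 * q1)) +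
      (gg M α (q2 * q1) - gg M α q3) + (gg M α 1 + gg M α q3) := by ring
  rw [hfin]
  calc |(gg M α 1 + gg M α q1) - (gg M α q1 + gg M α (q2 * q1)) +
      (gg M α (q2 * q1) - gg M α q3) + (gg M α 1 + gg M α q3)|
      ≤ |gg M α 1 + gg M α q1| + |gg M α q1 + gg M α (q2 * q1)| +
        |gg M α (q2 * q1) - gg M α q3| + |gg M α 1 + gg M α q3| := by
        refine (abs_add_le _ _).trans (add_le_add ((abs_add_le _ _).trans
          (add_le_add (abs_sub _ _) le_rfl)) le_rfl)
    _ ≤ ε + ε + Fintype.card I * (6 * η) + ε := by gcongr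
    _ = 3 * ε + Fintype.card I * (6 * η) := by ring

theorem gg_one_eq_zero (M : IMean) (α : I → ℝ) (hα : ∀ i, 0 < α i)
    (hind : ∀ (c0 : ℤ) (c : I → ℤ), (c0 : ℝ) + ∑ i, (c i : ℝ) * α i = 0 → ∀ i, c i = 0)
    (heven : Even (Fintype.card I)) : gg M α 1 = 0 := by
  by_contra hne
  have hpos : 0 < |2 * gg M α 1| := abs_pos.mpr (mul_ne_zero two_ne_zero hne)
  set C := |2 * gg M α 1| with hC
  set d : ℝ := ((Fintype.card I : ℕ) : ℝ) with hd
  have hd0 : 0 ≤ d := Nat.cast_nonneg _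
  have h1 := gg_one_small M α hα hind heven (ε := C / 12) (η := min 1 (C / (24 * (d + 1))))
    (by positivity) (lt_min one_pos (by positivity)) (min_le_left _ _)
  have h2 : d * (6 * min 1 (C / (24 * (d + 1)))) ≤ C / 4 := by
    calc d * (6 * min 1 (C / (24 * (d + 1)))) ≤ (d + 1) * (6 * (C / (24 * (d + 1)))) := by
          gcongr
          · linarith
          · exact min_le_right _ _
      _ = C / 4 := by field_simp; norm_num
  rw [← hC, ← hd] at h1
  linarith

/-- Main theorem, general index type. -/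
theorem main {I : Type} [Fintype I] (α : I → ℝ) (hα : ∀ i, 0 < α i)
    (hind : ∀ (c0 : ℤ) (c : I → ℤ), (c0 : ℝ) + ∑ i, (c i : ℝ) * α i = 0 → ∀ i, c i = 0)
    (heven : Even (Fintype.card I)) :
    Tendsto (logMean (fun n => lam n * ∏ i, lam (bt (α i) n))) atTop (𝓝 0) := by
  classical
  refine tendsto_of_imean ?_ fun M => ?_
  · exact bdd_lam.mul (Bdd.prod _ fun i _ => bdd_lam.comp _)
  · have h := gg_one_eq_zero M α hα hind heven
    have e : ∀ m, av 1 m = lam m := fun m => by simp [av]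
    unfold gg at h
    simpa only [e] using h

end Pool.MP_67663b_nt.Odd
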