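import Pool.Agent.Lib.MP_67663b_nt.Odd.EntBasic

set_option autoImplicit false
open Filter Topology
namespace Pool.MP_67663b_nt.Odd
namespace IMean
variable (M : IMean)

theorem pinsker_aux {ι : Type*} (u : Finset ι) (p q : ι → ℝ) (K : ℝ)
    (hp : ∀ i ∈ u, 0 ≤ p i) (hq : ∀ i ∈ u, 0 ≤ q i) (hsp : ∑ i ∈ u, p i = 1)
    (hsq : ∑ i ∈ u, q i = 1)
    (hK : ∑ i ∈ u, (2 * p i - 2 * Real.sqrt (p i * q i)) ≤ K) :
    ∑ i ∈ u, |p i - q i| ≤ 2 * Real.sqrt K := by
  have hD : ∑ i ∈ u, |Real.sqrt (p i) - Real.sqrt (q i)| ^ 2 ≤ K := by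
    have h1 : ∑ i ∈ u, |Real.sqrt (p i) - Real.sqrt (q i)| ^ 2 =
        ∑ i ∈ u, (p i + q i - 2 * Real.sqrt (p i * q i)) := by
      refine Finset.sum_congr rfl fun i hi => ?_
      rw [sq_abs, Real.sqrt_mul (hp i hi), sub_sq, Real.sq_sqrt (hp i hi),
        Real.sq_sqrt (hq i hi)]
      ring
    rw [h1]
    refine le_trans (le_of_eq ?_) hK
    simp only [Finset.sum_sub_distrib, Finset.sum_add_distrib, ← Finset.mul_sum, hsp, hsq]
    ring
  have hG : ∑ i ∈ u, (Real.sqrt (p i) + Real.sqrt (q i)) ^ 2 ≤ 4 := by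
    have h1 : ∑ i ∈ u, (Real.sqrt (p i) + Real.sqrt (q i)) ^ 2 ≤
        ∑ i ∈ u, 2 * (p i + q i) := by
      refine Finset.sum_le_sum fun i hi => ?_
      have h2 := Real.sq_sqrt (hp i hi)
      have h3 := Real.sq_sqrt (hq i hi)
      nlinarith [sq_nonneg (Real.sqrt (p i) - Real.sqrt (q i))]
    refine h1.trans (le_of_eq ?_)
    rw [← Finset.mul_sum, Finset.sum_add_distrib, hsp, hsq]
    norm_num
  have hK0 : 0 ≤ K := le_trans (Finset.sum_nonneg fun i _ => by positivity) hD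
  have hCS := Finset.sum_mul_sq_le_sq_mul_sq u
    (fun i => |Real.sqrt (p i) - Real.sqrt (q i)|) (fun i => Real.sqrt (p i) + Real.sqrt (q i))
  have hl1 : ∑ i ∈ u, |p i - q i| =
      ∑ i ∈ u, |Real.sqrt (p i) - Real.sqrt (q i)| * (Real.sqrt (p i) + Real.sqrt (q i)) := by
    refine Finset.sum_congr rfl fun i hi => ?_
    have h0 : 0 ≤ Real.sqrt (p i) + Real.sqrt (q i) := by positivity
    have h1 : |Real.sqrt (p i) - Real.sqrt (q i)| * (Real.sqrt (p i) + Real.sqrt (q i)) =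
        |(Real.sqrt (p i) - Real.sqrt (q i)) * (Real.sqrt (p i) + Real.sqrt (q i))| := by
      rw [abs_mul, abs_of_nonneg h0]
    rw [h1]
    congr 1
    have h2 := Real.sq_sqrt (hp i hi)
    have h3 := Real.sq_sqrt (hq i hi)
    nlinarith
  rw [hl1]
  have hsq2 : (∑ i ∈ u, |Real.sqrt (p i) - Real.sqrt (q i)| *
      (Real.sqrt (p i) + Real.sqrt (q i))) ^ 2 ≤ (2 * Real.sqrt K) ^ 2 := by
    refine hCS.trans ?_
    have h1 : (2 * Real.sqrt K) ^ 2 = K * 4 := by
      rw [mul_pow, Real.sq_sqrt hK0]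
      ring
    rw [h1]
    exact mul_le_mul hD hG (Finset.sum_nonneg fun i _ => by positivity) hK0
  exact le_of_sq_le_sq hsq2 (by positivity)

theorem pinsker_marg_fst {A B : Type*} {X : ℕ → A} {Y : ℕ → B} {s : Finset A} {t : Finset B}
    (hs : Set.range X ⊆ s) (ht : Set.range Y ⊆ t) {a : A} (ha : a ∈ s) :
    M.P X a = ∑ b ∈ t, M.P (fun n => (X n, Y n)) (a, b) := by
  classical
  have hst : Set.range (fun n => (X n, Y n)) ⊆ ((s ×ˢ t : Finset (A × B)) : Set (A × B)) := by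
    rintro _ ⟨n, rfl⟩
    simp only [Finset.coe_product, Set.mem_prod]
    exact ⟨hs ⟨n, rfl⟩, ht ⟨n, rfl⟩⟩
  have h1 := M.P_comp hst (fun x => x.1) a
  have h2 : (fun n => (fun x : A × B => x.1) (X n, Y n)) = X := rfl
  have h3 : M.P X a = ∑ x ∈ s ×ˢ t with x.1 = a, M.P (fun n => (X n, Y n)) x := h1
  rw [h3]
  refine Finset.sum_bij' (fun x _ => x.2) (fun b _ => (a, b)) ?_ ?_ ?_ ?_ ?_
  · intro x hx
    simp only [Finset.mem_filter, Finset.mem_product] at hx
    exact hx.1.2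
  · intro b hb
    simp only [Finset.mem_filter, Finset.mem_product]
    exact ⟨⟨ha, hb⟩, trivial⟩
  · intro x hx
    simp only [Finset.mem_filter, Finset.mem_product] at hx
    exact Prod.ext hx.2.symm rfl
  · intro b hb
    rfl
  · intro x hx
    simp only [Finset.mem_filter, Finset.mem_product] at hx
    congr 1
    exact Prod.ext hx.2 rfl

theorem pinsker_marg_snd {A B : Type*} {X : ℕ → A} {Y : ℕ → B} {s : Finset A} {t : Finset B}
    (hs : Set.range X ⊆ s) (ht : Set.range Y ⊆ t) {b : B} (hb : b ∈ t) :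
    M.P Y b = ∑ a ∈ s, M.P (fun n => (X n, Y n)) (a, b) := by
  classical
  have hst : Set.range (fun n => (X n, Y n)) ⊆ ((s ×ˢ t : Finset (A × B)) : Set (A × B)) := by
    rintro _ ⟨n, rfl⟩
    simp only [Finset.coe_product, Set.mem_prod]
    exact ⟨hs ⟨n, rfl⟩, ht ⟨n, rfl⟩⟩
  have h1 := M.P_comp hst (fun x => x.2) b
  have h3 : M.P Y b = ∑ x ∈ s ×ˢ t with x.2 = b, M.P (fun n => (X n, Y n)) x := h1
  rw [h3]
  refine Finset.sum_bij' (fun x _ => x.1) (fun a _ => (a, b)) ?_ ?_ ?_ ?_ ?_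
  · intro x hx
    simp only [Finset.mem_filter, Finset.mem_product] at hx
    exact hx.1.1
  · intro a ha
    simp only [Finset.mem_filter, Finset.mem_product]
    exact ⟨⟨ha, hb⟩, trivial⟩
  · intro x hx
    simp only [Finset.mem_filter, Finset.mem_product] at hx
    exact Prod.ext rfl hx.2.symm
  · intro a ha
    rfl
  · intro x hx
    simp only [Finset.mem_filter, Finset.mem_product] at hx
    congr 1
    exact Prod.ext rfl hx.2

theorem pinsker_pt {p x y : ℝ} (hp : 0 ≤ p) (hx : p ≤ x) (hy : p ≤ y) :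
    2 * p - 2 * Real.sqrt (p * (x * y)) ≤
      p * Real.log p - p * Real.log x - p * Real.log y := by
  rcases hp.eq_or_lt with rfl | hp0
  · simp
  · have hx0 : 0 < x := hp0.trans_le hx
    have hy0 : 0 < y := hp0.trans_le hy
    have hq : 0 < x * y / p := by positivity
    have h1 := Real.log_le_sub_one_of_pos (Real.sqrt_pos.2 hq)
    have h2 : Real.log (Real.sqrt (x * y / p)) =
        (Real.log x + Real.log y - Real.log p) / 2 := by
      rw [Real.log_sqrt hq.le, Real.log_div (by positivity) hp0.ne',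
        Real.log_mul hx0.ne' hy0.ne']
    have h3 : p * Real.sqrt (x * y / p) = Real.sqrt (p * (x * y)) := by
      have h4 : p * (x * y) = p ^ 2 * (x * y / p) := by
        field_simp
      rw [h4, Real.sqrt_mul (by positivity), Real.sqrt_sq hp0.le]
    rw [h2] at h1
    have h5 := mul_le_mul_of_nonneg_left h1 hp0.le
    rw [mul_sub, h3] at h5
    nlinarith

/-- Weak Pinsker inequality for the mutual information. -/
theorem pinsker {A B : Type*} {X : ℕ → A} {Y : ℕ → B} {s : Finset A} {t : Finset B}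
    (hs : Set.range X ⊆ s) (ht : Set.range Y ⊆ t) :
    ∑ a ∈ s, ∑ b ∈ t, |M.P (fun n => (X n, Y n)) (a, b) - M.P X a * M.P Y b| ≤
      2 * Real.sqrt (M.H X + M.H Y - M.H (fun n => (X n, Y n))) := by
  classical
  have hst : Set.range (fun n => (X n, Y n)) ⊆ ((s ×ˢ t : Finset (A × B)) : Set (A × B)) := by
    rintro _ ⟨n, rfl⟩
    simp only [Finset.coe_product, Set.mem_prod]
    exact ⟨hs ⟨n, rfl⟩, ht ⟨n, rfl⟩⟩
  set R : A × B → ℝ := fun x => M.P (fun n => (X n, Y n)) x with hR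
  have hmx : ∀ a ∈ s, M.P X a = ∑ b ∈ t, R (a, b) := fun a ha => M.pinsker_marg_fst hs ht ha
  have hmy : ∀ b ∈ t, M.P Y b = ∑ a ∈ s, R (a, b) := fun b hb => M.pinsker_marg_snd hs ht hb
  have hle1 : ∀ a ∈ s, ∀ b ∈ t, R (a, b) ≤ M.P X a := by
    intro a ha b hb
    rw [hmx a ha]
    exact Finset.single_le_sum (f := fun b => R (a, b)) (fun b _ => M.P_nonneg _ _) hb
  have hle2 : ∀ a ∈ s, ∀ b ∈ t, R (a, b) ≤ M.P Y b := by
    intro a ha b hb
    rw [hmy b hb]
    exact Finset.single_le_sum (f := fun a => R (a, b)) (fun a _ => M.P_nonneg _ _) ha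
  have hHX : M.H X = ∑ x ∈ s ×ˢ t, -(R x * Real.log (M.P X x.1)) := by
    rw [M.H_eq_sum hs, Finset.sum_product]
    refine Finset.sum_congr rfl fun a ha => ?_
    simp only [Real.negMulLog]
    rw [Finset.sum_neg_distrib, ← Finset.sum_mul, ← hmx a ha]
    ring
  have hHY : M.H Y = ∑ x ∈ s ×ˢ t, -(R x * Real.log (M.P Y x.2)) := by
    rw [M.H_eq_sum ht, Finset.sum_product_right]
    refine Finset.sum_congr rfl fun b hb => ?_
    simp only [Real.negMulLog]
    rw [Finset.sum_neg_distrib, ← Finset.sum_mul, ← hmy b hb]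
    ring
  have hHXY : M.H (fun n => (X n, Y n)) = ∑ x ∈ s ×ˢ t, -(R x * Real.log (R x)) := by
    rw [M.H_eq_sum hst]
    refine Finset.sum_congr rfl fun x _ => ?_
    simp only [Real.negMulLog, hR]
    ring
  have hmain := pinsker_aux (s ×ˢ t) R (fun x => M.P X x.1 * M.P Y x.2)
    (M.H X + M.H Y - M.H (fun n => (X n, Y n)))
    (fun x _ => M.P_nonneg _ _)
    (fun x _ => mul_nonneg (M.P_nonneg _ _) (M.P_nonneg _ _))
    (M.sum_P hst)
    (by
      rw [Finset.sum_product]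
      simp only [← Finset.mul_sum, M.sum_P ht, mul_one, M.sum_P hs])
    (by
      rw [hHX, hHY, hHXY, ← Finset.sum_add_distrib, ← Finset.sum_sub_distrib]
      refine Finset.sum_le_sum fun x hx => ?_
      rw [Finset.mem_product] at hx
      have h1 := pinsker_pt (M.P_nonneg (fun n => (X n, Y n)) x) (hle1 x.1 hx.1 x.2 hx.2)
        (hle2 x.1 hx.1 x.2 hx.2)
      refine h1.trans (le_of_eq ?_)
      simp only [hR]
      ring)
  rw [Finset.sum_product] at hmain
  exact hmain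

theorem pinsker_E_fun {A : Type*} {X : ℕ → A} {s : Finset A} (hs : Set.range X ⊆ s)
    (f : A → ℝ) : M.E (fun n => f (X n)) = ∑ a ∈ s, M.P X a * f a := by
  classical
  have h1 : (fun n => f (X n)) = fun n => ∑ a ∈ s, f a * (if X n = a then (1:ℝ) else 0) := by
    funext n
    simp only [mul_ite, mul_one, mul_zero]
    have hn : X n ∈ s := hs ⟨n, rfl⟩
    rw [Finset.sum_ite_eq, if_pos hn]
  have hb : ∀ a : A, Bdd (fun n => if X n = a then (1:ℝ) else 0) := fun a =>
    Bdd.ite _ (Bdd.const 1) (Bdd.const 0)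
  rw [h1, M.E_sum s (fun a _ => (hb a).smul (f a))]
  refine Finset.sum_congr rfl fun a _ => ?_
  rw [M.smul _ _ (hb a), mul_comm]
  congr 1

/-- Decoupling of `X` and `Y` when the mutual information is small. -/
theorem decouple {A B : Type*} {X : ℕ → A} {Y : ℕ → B} (hX : (Set.range X).Finite)
    {t : Finset B} (ht : Set.range Y ⊆ t) (Psi : A → B → ℝ) {C : ℝ}
    (hPsi : ∀ n, ∀ b ∈ t, |Psi (X n) b| ≤ C) :
    |M.E (fun n => Psi (X n) (Y n)) - ∑ b ∈ t, M.P Y b * M.E (fun n => Psi (X n) b)| ≤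
      2 * C * Real.sqrt (M.H X + M.H Y - M.H (fun n => (X n, Y n))) := by
  classical
  set s := hX.toFinset with hsdef
  have hs : Set.range X ⊆ s := by simp [hsdef]
  have hC : 0 ≤ C := (abs_nonneg _).trans (hPsi 0 (Y 0) (ht ⟨0, rfl⟩))
  have hst : Set.range (fun n => (X n, Y n)) ⊆ ((s ×ˢ t : Finset (A × B)) : Set (A × B)) := by
    rintro _ ⟨n, rfl⟩
    simp only [Finset.coe_product, Set.mem_prod]
    exact ⟨hs ⟨n, rfl⟩, ht ⟨n, rfl⟩⟩
  have h1 : M.E (fun n => Psi (X n) (Y n)) =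
      ∑ a ∈ s, ∑ b ∈ t, M.P (fun n => (X n, Y n)) (a, b) * Psi a b := by
    have := M.pinsker_E_fun hst (fun x => Psi x.1 x.2)
    rw [Finset.sum_product] at this
    exact this
  have h2 : ∑ b ∈ t, M.P Y b * M.E (fun n => Psi (X n) b) =
      ∑ a ∈ s, ∑ b ∈ t, M.P X a * M.P Y b * Psi a b := by
    rw [Finset.sum_comm]
    refine Finset.sum_congr rfl fun b _ => ?_
    rw [M.pinsker_E_fun hs (fun a => Psi a b), Finset.mul_sum]
    refine Finset.sum_congr rfl fun a _ => ?_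
    ring
  rw [h1, h2, ← Finset.sum_sub_distrib]
  simp only [← Finset.sum_sub_distrib, ← sub_mul]
  have h3 : |∑ a ∈ s, ∑ b ∈ t,
      (M.P (fun n => (X n, Y n)) (a, b) - M.P X a * M.P Y b) * Psi a b| ≤
      ∑ a ∈ s, ∑ b ∈ t, |M.P (fun n => (X n, Y n)) (a, b) - M.P X a * M.P Y b| * C := by
    refine (Finset.abs_sum_le_sum_abs _ _).trans (Finset.sum_le_sum fun a ha => ?_)
    refine (Finset.abs_sum_le_sum_abs _ _).trans (Finset.sum_le_sum fun b hb => ?_)
    rw [abs_mul]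
    refine mul_le_mul_of_nonneg_left ?_ (abs_nonneg _)
    obtain ⟨n, rfl⟩ : a ∈ Set.range X := by simpa [hsdef] using ha
    exact hPsi n b hb
  refine h3.trans ?_
  have h4 := M.pinsker hs ht
  simp only [← Finset.sum_mul]
  calc _ ≤ 2 * Real.sqrt (M.H X + M.H Y - M.H (fun n => (X n, Y n))) * C :=
        mul_le_mul_of_nonneg_right h4 hC
    _ = _ := by ring

end IMean
end Pool.MP_67663b_nt.Odd
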