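import Mathlib

set_option autoImplicit false
open Filter Topology ArithmeticFunction
namespace Pool.MP_67663b_nt.Odd

/-- `ζ(s) - 1/(s-1)` extended to `s = 1`. -/
private noncomputable def wz (s : ℂ) : ℂ :=
  Function.update (fun s : ℂ => riemannZeta s - 1 / (s - 1)) 1 (Real.eulerMascheroniConstant : ℂ) s

private theorem wz_cont : Continuous wz := by
  rw [continuous_iff_continuousAt]
  intro s
  by_cases hs : s = 1
  · subst hs
    unfold wz
    rw [continuousAt_update_same]
    exact tendsto_riemannZeta_sub_one_div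
  · have h1 : ContinuousAt (fun s : ℂ => riemannZeta s - 1 / (s - 1)) s := by
      apply ContinuousAt.sub
      · exact (differentiableAt_riemannZeta hs).continuousAt
      · apply ContinuousAt.div continuousAt_const
        · fun_prop
        · exact sub_ne_zero.2 hs
    unfold wz
    exact (continuousAt_update_of_ne hs).2 h1

/-- `-ζ'/ζ - ζ` extends continuously to `Re s ≥ 1`. -/
theorem exists_cont : ∃ F : ℂ → ℂ, ContinuousOn F {s | 1 ≤ s.re} ∧
    ∀ s : ℂ, 1 < s.re → F s = LSeries (fun n => ((vonMangoldt n : ℝ) : ℂ) - 1) s := by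
  refine ⟨fun s => vonMangoldt.LFunctionResidueClassAux (1 : ZMod 1) s - wz s, ?_, ?_⟩
  · exact (vonMangoldt.continuousOn_LFunctionResidueClassAux (1 : ZMod 1)).sub wz_cont.continuousOn
  · intro s hs
    have h1 := vonMangoldt.eqOn_LFunctionResidueClassAux (a := (1 : ZMod 1)) isUnit_one
      (Set.mem_ofPred.2 hs)
    have hs1 : s ≠ 1 := by
      rintro rfl
      simp at hs
    have h2 : wz s = riemannZeta s - 1 / (s - 1) := by
      unfold wz
      rw [Function.update_of_ne hs1]
    have h3 : (fun n : ℕ => ((vonMangoldt.residueClass (1 : ZMod 1) n : ℝ) : ℂ)) =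
        (fun n : ℕ => ((vonMangoldt n : ℝ) : ℂ)) := by
      funext n
      congr 1
      unfold vonMangoldt.residueClass
      rw [Set.indicator_of_mem]
      exact Subsingleton.elim _ _
    have h4 : LSeries (fun n => ((vonMangoldt n : ℝ) : ℂ) - 1) s =
        LSeries (fun n => ((vonMangoldt n : ℝ) : ℂ)) s - riemannZeta s := by
      rw [← LSeries_one_eq_riemannZeta hs]
      exact LSeries_sub (LSeriesSummable_vonMangoldt hs) (LSeriesSummable_one_iff.2 hs)
    show vonMangoldt.LFunctionResidueClassAux (1 : ZMod 1) s - wz s = _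
    rw [h1, h2, h4]
    simp only [h3]
    simp

/-- Fejer kernel. -/
noncomputable def fej (T u : ℝ) : ℝ := T * (Real.sinc (T * u / 2)) ^ 2

private theorem wf_int_zero {T : ℝ} (hT : 0 < T) :
    ∫ t in (-T)..T, ((1 - |t| / T : ℝ) : ℂ) = (T : ℂ) := by
  rw [intervalIntegral.integral_ofReal]
  congr 1
  have hi : ∀ a b : ℝ, IntervalIntegrable (fun t : ℝ => 1 - |t| / T) MeasureTheory.volume a b := by
    intro a b
    apply Continuous.intervalIntegrable
    fun_prop
  rw [← intervalIntegral.integral_add_adjacent_intervals (hi (-T) 0) (hi 0 T)]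
  have h1 : ∫ t in (-T)..0, (1 - |t| / T) = ∫ t in (-T)..0, (1 + t / T) := by
    apply intervalIntegral.integral_congr
    intro t ht
    rw [Set.uIcc_of_le (by linarith)] at ht
    simp only
    rw [abs_of_nonpos ht.2]
    ring
  have h2 : ∫ t in (0 : ℝ)..T, (1 - |t| / T) = ∫ t in (0 : ℝ)..T, (1 - t / T) := by
    apply intervalIntegral.integral_congr
    intro t ht
    rw [Set.uIcc_of_le hT.le] at ht
    simp only
    rw [abs_of_nonneg ht.1]
  rw [h1, h2, intervalIntegral.integral_add, intervalIntegral.integral_sub]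
  · simp only [intervalIntegral.integral_div, integral_id, intervalIntegral.integral_const,
      smul_eq_mul]
    field_simp
    ring
  all_goals (apply Continuous.intervalIntegrable; fun_prop)

private theorem wf_int_ne {T : ℝ} (hT : 0 < T) {u : ℝ} (hu : u ≠ 0) :
    ∫ t in (-T)..T, ((1 - |t| / T : ℝ) : ℂ) * Complex.exp (Complex.I * t * u) =
      ((2 * (1 - Real.cos (T * u)) / (T * u ^ 2) : ℝ) : ℂ) := by
  have hi : ∀ a b : ℝ, IntervalIntegrable
      (fun t : ℝ => ((1 - |t| / T : ℝ) : ℂ) * Complex.exp (Complex.I * t * u))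
      MeasureTheory.volume a b := by
    intro a b
    apply Continuous.intervalIntegrable
    fun_prop
  have hT' : (T : ℂ) ≠ 0 := by exact_mod_cast hT.ne'
  have hu' : (u : ℂ) ≠ 0 := by exact_mod_cast hu
  have hiu : Complex.I * (u : ℂ) ≠ 0 := mul_ne_zero Complex.I_ne_zero hu'
  rw [← intervalIntegral.integral_add_adjacent_intervals (hi (-T) 0) (hi 0 T)]
  have h1 : ∫ t in (-T)..0, ((1 - |t| / T : ℝ) : ℂ) * Complex.exp (Complex.I * t * u) =
      ∫ t in (-T)..0, (1 + (t : ℂ) / T) * Complex.exp (Complex.I * t * u) := by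
    apply intervalIntegral.integral_congr
    intro t ht
    rw [Set.uIcc_of_le (by linarith)] at ht
    simp only
    rw [abs_of_nonpos ht.2]
    push_cast
    ring
  have h2 : ∫ t in (0 : ℝ)..T, ((1 - |t| / T : ℝ) : ℂ) * Complex.exp (Complex.I * t * u) =
      ∫ t in (0 : ℝ)..T, (1 - (t : ℂ) / T) * Complex.exp (Complex.I * t * u) := by
    apply intervalIntegral.integral_congr
    intro t ht
    rw [Set.uIcc_of_le hT.le] at ht
    simp only
    rw [abs_of_nonneg ht.1]
    push_cast
    ring
  have hexp : ∀ t : ℝ, HasDerivAt (fun t : ℝ => Complex.exp (Complex.I * t * u))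
      (Complex.exp (Complex.I * t * u) * (Complex.I * u)) t := by
    intro t
    have h3 : HasDerivAt (fun t : ℝ => Complex.I * (t : ℂ) * u) (Complex.I * 1 * u) t :=
      ((hasDerivAt_id t).ofReal_comp.const_mul Complex.I).mul_const _
    have h4 := h3.cexp
    simpa using h4
  have hlin : ∀ (r : ℂ) (t : ℝ), HasDerivAt (fun t : ℝ => (1 + r * (t : ℂ) / T)) (r / T) t := by
    intro r t
    have h3 : HasDerivAt (fun t : ℝ => (1 + r * (t : ℂ) / T)) (r * 1 / T) t :=
      (((hasDerivAt_id t).ofReal_comp.const_mul r).div_const _).const_add 1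
    simpa using h3
  have hG : ∀ (r : ℂ) (t : ℝ), HasDerivAt
      (fun t : ℝ => (1 + r * (t : ℂ) / T) * Complex.exp (Complex.I * t * u) / (Complex.I * u) -
        r / T * Complex.exp (Complex.I * t * u) / (Complex.I * u) ^ 2)
      ((1 + r * (t : ℂ) / T) * Complex.exp (Complex.I * t * u)) t := by
    intro r t
    have h3 := (((hlin r t).mul (hexp t)).div_const (Complex.I * u)).sub
      (((hexp t).const_mul (r / T)).div_const ((Complex.I * u) ^ 2))
    refine h3.congr_deriv ?_
    field_simp
    ring
  have h3 : ∫ t in (-T)..0, (1 + (t : ℂ) / T) * Complex.exp (Complex.I * t * u) = _ :=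
    intervalIntegral.integral_eq_sub_of_hasDerivAt (fun t _ => by simpa using hG 1 t) (by
      apply Continuous.intervalIntegrable
      fun_prop)
  have h4 : ∫ t in (0 : ℝ)..T, (1 - (t : ℂ) / T) * Complex.exp (Complex.I * t * u) = _ :=
    intervalIntegral.integral_eq_sub_of_hasDerivAt
      (fun t _ => by
        have := hG (-1) t
        simp only [neg_mul, one_mul, neg_div, ← sub_eq_add_neg] at this
        exact this) (by
      apply Continuous.intervalIntegrable
      fun_prop)
  rw [h1, h2, h3, h4]
  have h5 : ((2 * (1 - Real.cos (T * u)) / (T * u ^ 2) : ℝ) : ℂ) =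
      (2 * (1 - (Complex.exp (T * u * Complex.I) + Complex.exp (-(T * u) * Complex.I)) / 2)) /
        (T * u ^ 2) := by
    push_cast
    rw [Complex.cos]
  rw [h5]
  have h6 : Complex.I * ((T : ℝ) : ℂ) * u = T * u * Complex.I := by ring
  have h7 : Complex.I * ((-T : ℝ) : ℂ) * u = -(T * u) * Complex.I := by
    push_cast
    ring
  rw [h6, h7]
  have h8 : Complex.exp (Complex.I * ((0 : ℝ) : ℂ) * u) = 1 := by simp
  rw [h8]
  have h9 : (Complex.I * (u : ℂ)) ^ 2 = -(u : ℂ) ^ 2 := by
    rw [mul_pow, Complex.I_sq]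
    ring
  rw [h9]
  push_cast
  have hI : (Complex.I : ℂ) ≠ 0 := Complex.I_ne_zero
  field_simp
  ring

theorem fej_integral {T : ℝ} (hT : 0 < T) (u : ℝ) :
    ∫ t in (-T)..T, ((1 - |t| / T : ℝ) : ℂ) * Complex.exp (Complex.I * t * u) = (fej T u : ℂ) := by
  by_cases hu : u = 0
  · subst hu
    have : (fej T 0 : ℂ) = (T : ℂ) := by
      unfold fej
      simp
    rw [this, ← wf_int_zero hT]
    simp
  · rw [wf_int_ne hT hu]
    congr 1
    unfold fej
    have hne : T * u / 2 ≠ 0 := by positivity
    rw [Real.sinc_of_ne_zero hne, div_pow, Real.sin_sq_eq_half_sub]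
    have h2 : 2 * (T * u / 2) = T * u := by ring
    rw [h2]
    field_simp

/-- the basic identity for `σ > 1` -/
theorem fej_identity {F : ℂ → ℂ}
    (hF : ∀ s : ℂ, 1 < s.re → F s = LSeries (fun n => ((vonMangoldt n : ℝ) : ℂ) - 1) s)
    {T : ℝ} (hT : 0 < T) {σ : ℝ} (hσ : 1 < σ) (y : ℝ) :
    ((∑' n : ℕ, (vonMangoldt n - 1) * (n : ℝ) ^ (-σ) * fej T (y - Real.log n) : ℝ) : ℂ) =
      ∫ t in (-T)..T, ((1 - |t| / T : ℝ) : ℂ) * Complex.exp (Complex.I * t * y) *
        F (σ + Complex.I * t) := by
  set f : ℕ → ℂ := fun n => ((vonMangoldt n : ℝ) : ℂ) - 1 with hf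
  have hsum : ∀ s : ℂ, 1 < s.re → LSeriesSummable f s := fun s hs =>
    (LSeriesSummable_vonMangoldt hs).sub (LSeriesSummable_one_iff.2 hs)
  have hre : ∀ t : ℝ, ((σ : ℂ) + Complex.I * t).re = σ := by
    intro t
    simp
  have hnorm : ∀ (n : ℕ) (t : ℝ), ‖LSeries.term f (σ + Complex.I * t) n‖ =
      ‖LSeries.term f (σ : ℂ) n‖ := by
    intro n t
    rw [LSeries.norm_term_eq, LSeries.norm_term_eq, hre]
    simp
  have hterm : ∀ n : ℕ, Continuous (fun t : ℝ => LSeries.term f (σ + Complex.I * t) n) := by
    intro n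
    rcases Nat.eq_zero_or_pos n with rfl | hn
    · simp only [LSeries.term_zero]
      exact continuous_const
    · have hn' : (n : ℂ) ≠ 0 := by exact_mod_cast hn.ne'
      simp only [LSeries.term_of_ne_zero hn.ne']
      apply Continuous.div continuous_const
      · apply Continuous.const_cpow
        · fun_prop
        · exact Or.inl hn'
      · intro t
        rw [Complex.cpow_ne_zero_iff]
        exact Or.inl hn'
  have key := intervalIntegral.hasSum_integral_of_dominated_convergence
    (μ := MeasureTheory.volume) (a := -T) (b := T)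
    (F := fun (n : ℕ) (t : ℝ) => ((1 - |t| / T : ℝ) : ℂ) * Complex.exp (Complex.I * t * y) *
      LSeries.term f (σ + Complex.I * t) n)
    (f := fun t : ℝ => ((1 - |t| / T : ℝ) : ℂ) * Complex.exp (Complex.I * t * y) *
        F (σ + Complex.I * t))
    (fun (n : ℕ) (_ : ℝ) => ‖LSeries.term f (σ : ℂ) n‖)
    (by
      intro n
      apply Continuous.aestronglyMeasurable
      exact Continuous.mul (by fun_prop) (hterm n))
    (by
      intro n
      refine Filter.Eventually.of_forall ?_
      intro t ht
      rw [Set.uIoc_of_le (by linarith)] at ht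
      rw [norm_mul, norm_mul, hnorm]
      have h1 : ‖Complex.exp (Complex.I * t * y)‖ = 1 := by
        have : Complex.I * t * y = ((t * y : ℝ) : ℂ) * Complex.I := by
          push_cast
          ring
        rw [this, Complex.norm_exp_ofReal_mul_I]
      have h2 : ‖((1 - |t| / T : ℝ) : ℂ)‖ ≤ 1 := by
        rw [Complex.norm_real, Real.norm_eq_abs, abs_le]
        have h3 : |t| / T ≤ 1 := by
          rw [div_le_one hT, abs_le]
          exact ⟨ht.1.le, ht.2⟩
        have h4 : 0 ≤ |t| / T := by positivity
        constructor <;> linarith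
      rw [h1, mul_one]
      exact mul_le_of_le_one_left (norm_nonneg _) h2)
    (by
      refine Filter.Eventually.of_forall ?_
      intro t _
      exact (hsum σ (by simpa using hσ)).norm)
    (by
      exact intervalIntegrable_const)
    (by
      refine Filter.Eventually.of_forall ?_
      intro t _
      have h1 := (hsum (σ + Complex.I * t) (by rw [hre]; exact hσ)).hasSum
      have h2 : F (σ + Complex.I * t) = ∑' n, LSeries.term f (σ + Complex.I * t) n :=
        hF _ (by rw [hre]; exact hσ)
      rw [h2]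
      exact h1.mul_left _)
  rw [← key.tsum_eq, Complex.ofReal_tsum]
  congr 1
  funext n
  rcases Nat.eq_zero_or_pos n with rfl | hn
  · simp only [LSeries.term_zero, mul_zero, intervalIntegral.integral_zero, Nat.cast_zero]
    rw [Real.zero_rpow (by linarith)]
    simp
  · have hn' : (n : ℂ) ≠ 0 := by exact_mod_cast hn.ne'
    have hnR : (0 : ℝ) < n := by exact_mod_cast hn
    have h1 : ∀ t : ℝ, ((1 - |t| / T : ℝ) : ℂ) * Complex.exp (Complex.I * t * y) *
        LSeries.term f (σ + Complex.I * t) n =
        ((((vonMangoldt n - 1) * (n : ℝ) ^ (-σ) : ℝ)) : ℂ) * (((1 - |t| / T : ℝ) : ℂ) *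
          Complex.exp (Complex.I * t * ((y - Real.log n : ℝ) : ℂ))) := by
      intro t
      rw [LSeries.term_of_ne_zero hn.ne']
      have h2 : ((n : ℂ) ^ ((σ : ℂ) + Complex.I * t))⁻¹ =
          (((n : ℝ) ^ (-σ) : ℝ) : ℂ) * Complex.exp (-(Complex.I * t * Real.log n)) := by
        rw [← Complex.cpow_neg, neg_add, Complex.cpow_add _ _ hn']
        congr 1
        · rw [Complex.ofReal_cpow hnR.le]
          push_cast
          rfl
        · rw [Complex.cpow_def_of_ne_zero hn', ← Complex.natCast_log]
          congr 1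
          ring
      have h3 : Complex.exp (Complex.I * t * ((y - Real.log n : ℝ) : ℂ)) =
          Complex.exp (Complex.I * t * y) * Complex.exp (-(Complex.I * t * Real.log n)) := by
        rw [← Complex.exp_add]
        congr 1
        push_cast
        ring
      rw [div_eq_mul_inv (f n), h2, h3, hf]
      push_cast
      ring
    simp only [h1]
    rw [intervalIntegral.integral_const_mul, fej_integral hT]
    push_cast
    ring

end Pool.MP_67663b_nt.Odd
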