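import Pool.Agent.Lib.MP_67663b_nt.Odd.WPNT0

set_option autoImplicit false
open Filter Topology ArithmeticFunction
namespace Pool.MP_67663b_nt.Odd

/-- Chebyshev on unit intervals of the log scale. -/
theorem cheb_unit : ∃ C : ℝ, 0 < C ∧ ∀ v : ℝ, ∀ s : Finset ℕ,
    (∀ n ∈ s, 0 < n ∧ v ≤ Real.log n ∧ Real.log n ≤ v + 1) →
    ∑ n ∈ s, (vonMangoldt n + 1) / (n : ℝ) ≤ C := by
  have hlog4 : 0 < Real.log 4 := Real.log_pos (by norm_num)
  refine ⟨Real.exp 1 * (Real.log 4 + 4 + 1), by positivity, ?_⟩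
  intro v s hs
  set x : ℝ := Real.exp (v + 1) with hx
  have hx0 : 0 < x := Real.exp_pos _
  have hle : ∀ n ∈ s, (n : ℝ) ≤ x := by
    intro n hn
    obtain ⟨h1, _, h3⟩ := hs n hn
    have : (0 : ℝ) < n := by exact_mod_cast h1
    calc (n : ℝ) = Real.exp (Real.log n) := (Real.exp_log this).symm
      _ ≤ x := Real.exp_le_exp.mpr h3
  have hge : ∀ n ∈ s, x / Real.exp 1 ≤ n := by
    intro n hn
    obtain ⟨h1, h2, _⟩ := hs n hn
    have : (0 : ℝ) < n := by exact_mod_cast h1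
    calc x / Real.exp 1 = Real.exp v := by rw [hx, Real.exp_add]; field_simp
      _ ≤ Real.exp (Real.log n) := Real.exp_le_exp.mpr h2
      _ = n := Real.exp_log this
  have hsub : s ⊆ Finset.Ioc 0 ⌊x⌋₊ := by
    intro n hn
    rw [Finset.mem_Ioc]
    exact ⟨(hs n hn).1, Nat.le_floor (hle n hn)⟩
  have h1 : ∑ n ∈ s, (vonMangoldt n + 1) ≤ (Real.log 4 + 4 + 1) * x := by
    calc ∑ n ∈ s, (vonMangoldt n + 1) ≤ ∑ n ∈ Finset.Ioc 0 ⌊x⌋₊, (vonMangoldt n + 1) :=
          Finset.sum_le_sum_of_subset_of_nonneg hsub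
            (fun n _ _ => add_nonneg vonMangoldt_nonneg zero_le_one)
      _ = Chebyshev.psi x + ⌊x⌋₊ := by
          rw [Finset.sum_add_distrib]
          simp [Chebyshev.psi]
      _ ≤ (Real.log 4 + 4) * x + x :=
          add_le_add (Chebyshev.psi_le_const_mul_self hx0.le) (Nat.floor_le hx0.le)
      _ = (Real.log 4 + 4 + 1) * x := by ring
  calc ∑ n ∈ s, (vonMangoldt n + 1) / (n : ℝ)
      ≤ ∑ n ∈ s, (vonMangoldt n + 1) / (x / Real.exp 1) := by
        refine Finset.sum_le_sum fun n hn => ?_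
        exact div_le_div_of_nonneg_left (add_nonneg vonMangoldt_nonneg zero_le_one)
          (by positivity) (hge n hn)
    _ = (∑ n ∈ s, (vonMangoldt n + 1)) / (x / Real.exp 1) := by rw [Finset.sum_div]
    _ ≤ ((Real.log 4 + 4 + 1) * x) / (x / Real.exp 1) :=
        div_le_div_of_nonneg_right h1 (by positivity)
    _ = Real.exp 1 * (Real.log 4 + 4 + 1) := by field_simp

theorem wpnt1_fej_nonneg {T : ℝ} (hT : 0 < T) (u : ℝ) : 0 ≤ fej T u :=
  mul_nonneg hT.le (sq_nonneg _)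

theorem wpnt1_fej_le {T : ℝ} (hT : 0 < T) (u : ℝ) : fej T u ≤ T := by
  unfold fej
  have h := Real.abs_sinc_le_one (T * u / 2)
  have h2 : (Real.sinc (T * u / 2)) ^ 2 ≤ 1 := by
    rw [← sq_abs]
    exact pow_le_one₀ (abs_nonneg _) h
  nlinarith

theorem wpnt1_fej_le' {T : ℝ} (hT : 0 < T) {u : ℝ} (hu : u ≠ 0) :
    fej T u ≤ 4 / T * (1 / u ^ 2) := by
  unfold fej
  have h0 : T * u / 2 ≠ 0 := by
    apply div_ne_zero (mul_ne_zero hT.ne' hu) two_ne_zero
  have h2 : (Real.sinc (T * u / 2)) ^ 2 ≤ 4 / (T ^ 2 * u ^ 2) := by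
    rw [Real.sinc_of_ne_zero h0, div_pow]
    have h3 : (T * u / 2) ^ 2 = T ^ 2 * u ^ 2 / 4 := by ring
    rw [h3, div_div_eq_mul_div]
    apply div_le_div_of_nonneg_right _ (by positivity)
    nlinarith [Real.sin_sq_le_one (T * u / 2)]
  calc T * (Real.sinc (T * u / 2)) ^ 2 ≤ T * (4 / (T ^ 2 * u ^ 2)) :=
        mul_le_mul_of_nonneg_left h2 hT.le
    _ = 4 / T * (1 / u ^ 2) := by field_simp

/-- the decay in terms of the integer part -/
theorem wpnt1_inv_sq_le {u η : ℝ} (hη : 0 < η) (hη1 : η ≤ 1) (hu : η ≤ |u|) :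
    1 / u ^ 2 ≤ 4 / η ^ 2 * (1 / ((⌊|u|⌋₊ : ℝ) + 1) ^ 2) := by
  have hu0 : 0 < |u| := lt_of_lt_of_le hη hu
  set k : ℕ := ⌊|u|⌋₊ with hk
  have hk1 : (k : ℝ) ≤ |u| := Nat.floor_le hu0.le
  have hmain : η * ((k : ℝ) + 1) ≤ 2 * |u| := by
    rcases Nat.eq_zero_or_pos k with h0 | h0
    · rw [h0]; push_cast; linarith
    · have : (1 : ℝ) ≤ k := by exact_mod_cast h0
      nlinarith
  have hsq : (η * ((k : ℝ) + 1)) ^ 2 ≤ (2 * |u|) ^ 2 :=
    pow_le_pow_left₀ (by positivity) hmain 2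
  have hu2 : 0 < u ^ 2 := by
    have : u ≠ 0 := abs_pos.mp hu0
    positivity
  have e : (2 * |u|) ^ 2 = 4 * u ^ 2 := by rw [mul_pow, sq_abs]; norm_num
  rw [e] at hsq
  rw [div_mul_div_comm, mul_one, div_le_div_iff₀ hu2 (by positivity)]
  nlinarith

/-- general summation lemma -/
theorem wpnt1_sum : ∃ C : ℝ, 0 < C ∧ ∀ (y D : ℝ) (f : ℕ → ℝ), 0 ≤ D → (∀ n, 0 ≤ f n) →
    (∀ n, f n ≤ (vonMangoldt n + 1) / (n : ℝ) *
      (D * (1 / ((⌊|y - Real.log n|⌋₊ : ℝ) + 1) ^ 2))) →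
    Summable f ∧ ∑' n, f n ≤ C * D := by
  obtain ⟨C, hC, hcheb⟩ := cheb_unit
  have hsum : Summable (fun k : ℕ => 1 / ((k : ℝ) + 1) ^ 2) := by
    have := (summable_nat_add_iff 1).mpr (Real.summable_one_div_nat_pow.mpr (one_lt_two))
    simpa using this
  set S : ℝ := ∑' k : ℕ, 1 / ((k : ℝ) + 1) ^ 2 with hS
  have hS0 : 0 < S := by
    have h0 : ∀ k : ℕ, 0 ≤ 1 / ((k : ℝ) + 1) ^ 2 := fun k => by positivity
    exact hsum.tsum_pos h0 0 (by norm_num)
  refine ⟨2 * C * S, by positivity, ?_⟩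
  intro y D f hD hf0 hf
  have hfin : ∀ s : Finset ℕ, ∑ n ∈ s, f n ≤ 2 * C * S * D := by
    intro s
    classical
    set κ : ℕ → ℕ := fun n => ⌊|y - Real.log n|⌋₊ with hκ
    have h1 : ∑ n ∈ s, f n = ∑ k ∈ s.image κ, ∑ n ∈ s with κ n = k, f n :=
      (Finset.sum_fiberwise_of_maps_to (fun n hn => Finset.mem_image_of_mem κ hn) f).symm
    have h2 : ∀ k ∈ s.image κ, ∑ n ∈ s with κ n = k, f n ≤
        2 * C * D * (1 / ((k : ℝ) + 1) ^ 2) := by
      intro k _
      have h3 : ∑ n ∈ s with κ n = k, f n ≤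
          ∑ n ∈ s with κ n = k, ((vonMangoldt n + 1) / (n : ℝ)) *
            (D * (1 / ((k : ℝ) + 1) ^ 2)) := by
        refine Finset.sum_le_sum fun n hn => ?_
        have hk : κ n = k := (Finset.mem_filter.mp hn).2
        have := hf n
        rw [← hk]
        exact this
      rw [← Finset.sum_mul] at h3
      have h4 : ∑ n ∈ s with κ n = k, ((vonMangoldt n + 1) / (n : ℝ)) ≤ 2 * C := by
        set s' := s.filter (fun n => κ n = k) with hs'
        set s0 := s'.filter (fun n => 0 < n) with hs0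
        have h5 : ∑ n ∈ s', ((vonMangoldt n + 1) / (n : ℝ)) =
            ∑ n ∈ s0, ((vonMangoldt n + 1) / (n : ℝ)) := by
          symm
          refine Finset.sum_filter_of_ne (fun n _ hne => ?_)
          by_contra hn
          have h0 : n = 0 := by omega
          apply hne
          rw [h0]; simp
        rw [h5, ← Finset.sum_filter_add_sum_filter_not s0 (fun n => y ≤ Real.log n)]
        have hmem : ∀ n ∈ s0, 0 < n ∧ (k : ℝ) ≤ |y - Real.log n| ∧
            |y - Real.log n| ≤ k + 1 := by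
          intro n hn
          rw [hs0, Finset.mem_filter, hs', Finset.mem_filter] at hn
          obtain ⟨⟨_, hn2⟩, hn3⟩ := hn
          refine ⟨hn3, ?_, ?_⟩
          · rw [← hn2]; exact Nat.floor_le (abs_nonneg _)
          · rw [← hn2]; exact (Nat.lt_floor_add_one _).le
        have h6 := hcheb (y + k) (s0.filter (fun n => y ≤ Real.log n)) (by
          intro n hn
          rw [Finset.mem_filter] at hn
          obtain ⟨a1, a2, a3⟩ := hmem n hn.1
          have e : |y - Real.log n| = Real.log n - y := by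
            rw [abs_sub_comm]; exact abs_of_nonneg (by linarith [hn.2])
          rw [e] at a2 a3
          exact ⟨a1, by linarith, by linarith⟩)
        have h7 := hcheb (y - k - 1) (s0.filter (fun n => ¬ y ≤ Real.log n)) (by
          intro n hn
          rw [Finset.mem_filter, not_le] at hn
          obtain ⟨a1, a2, a3⟩ := hmem n hn.1
          have e : |y - Real.log n| = y - Real.log n := abs_of_nonneg (by linarith [hn.2])
          rw [e] at a2 a3
          exact ⟨a1, by linarith, by linarith⟩)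
        linarith
      have h8 : 0 ≤ D * (1 / ((k : ℝ) + 1) ^ 2) := by positivity
      calc ∑ n ∈ s with κ n = k, f n ≤ _ := h3
        _ ≤ (2 * C) * (D * (1 / ((k : ℝ) + 1) ^ 2)) := mul_le_mul_of_nonneg_right h4 h8
        _ = 2 * C * D * (1 / ((k : ℝ) + 1) ^ 2) := by ring
    calc ∑ n ∈ s, f n = ∑ k ∈ s.image κ, ∑ n ∈ s with κ n = k, f n := h1
      _ ≤ ∑ k ∈ s.image κ, 2 * C * D * (1 / ((k : ℝ) + 1) ^ 2) := Finset.sum_le_sum h2
      _ = 2 * C * D * ∑ k ∈ s.image κ, (1 / ((k : ℝ) + 1) ^ 2) := by rw [Finset.mul_sum]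
      _ ≤ 2 * C * D * S := by
          refine mul_le_mul_of_nonneg_left ?_ (by positivity)
          exact hsum.sum_le_tsum _ (fun k _ => by positivity)
      _ = 2 * C * S * D := by ring
  exact ⟨summable_of_sum_le hf0 hfin, Real.tsum_le_of_sum_le hf0 hfin⟩

theorem fej_summable {T : ℝ} (hT : 0 < T) (y : ℝ) :
    Summable (fun n : ℕ => (vonMangoldt n + 1) / (n : ℝ) * fej T (y - Real.log n)) := by
  obtain ⟨C, _, h⟩ := wpnt1_sum
  refine (h y (T + 16 / T) _ (by positivity) ?_ ?_).1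
  · intro n
    exact mul_nonneg (div_nonneg (add_nonneg vonMangoldt_nonneg zero_le_one)
      (Nat.cast_nonneg n)) (wpnt1_fej_nonneg hT _)
  · intro n
    refine mul_le_mul_of_nonneg_left ?_ (div_nonneg (add_nonneg vonMangoldt_nonneg zero_le_one)
      (Nat.cast_nonneg n))
    set u := y - Real.log n with hu
    by_cases h1 : 1 ≤ |u|
    · have hu0 : u ≠ 0 := by
        intro h0; rw [h0] at h1; norm_num at h1
      have h2 := wpnt1_inv_sq_le one_pos le_rfl h1
      have h3 := wpnt1_fej_le' hT hu0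
      set w : ℝ := 1 / ((⌊|u|⌋₊ : ℝ) + 1) ^ 2 with hw
      have hw0 : 0 ≤ w := by positivity
      have h4 : 4 / T * (1 / u ^ 2) ≤ 4 / T * (4 / 1 ^ 2 * w) :=
        mul_le_mul_of_nonneg_left h2 (by positivity)
      have h5 : 4 / T * (4 / 1 ^ 2 * w) = 16 / T * w := by ring
      nlinarith
    · push Not at h1
      have h0 : ⌊|u|⌋₊ = 0 := Nat.floor_eq_zero.mpr h1
      rw [h0]
      have := wpnt1_fej_le hT u
      have h16 : 0 ≤ 16 / T := by positivity
      norm_num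
      linarith

/-- Tail bound: the mass outside the window of radius `η`. -/
theorem fej_tail : ∃ C : ℝ, 0 < C ∧ ∀ T : ℝ, 0 < T → ∀ η : ℝ, 0 < η → η ≤ 1 → ∀ y : ℝ,
    ∑' n : ℕ, (if η < |y - Real.log n| then
      (vonMangoldt n + 1) / (n : ℝ) * fej T (y - Real.log n) else 0) ≤ C / (T * η ^ 2) := by
  obtain ⟨C, hC, h⟩ := wpnt1_sum
  refine ⟨C * 16, by positivity, ?_⟩
  intro T hT η hη hη1 y
  have h1 : C * 16 / (T * η ^ 2) = C * (16 / (T * η ^ 2)) := by ring
  rw [h1]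
  refine (h y (16 / (T * η ^ 2)) _ (by positivity) ?_ ?_).2
  · intro n
    split_ifs
    · exact mul_nonneg (div_nonneg (add_nonneg vonMangoldt_nonneg zero_le_one)
        (Nat.cast_nonneg n)) (wpnt1_fej_nonneg hT _)
    · exact le_rfl
  · intro n
    have hw : 0 ≤ (vonMangoldt n + 1) / (n : ℝ) := div_nonneg
      (add_nonneg vonMangoldt_nonneg zero_le_one) (Nat.cast_nonneg n)
    split_ifs with hc
    · refine mul_le_mul_of_nonneg_left ?_ hw
      set u := y - Real.log n with hu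
      have hu0 : u ≠ 0 := by
        intro h0; rw [h0, abs_zero] at hc; linarith
      have h2 := wpnt1_inv_sq_le hη hη1 hc.le
      have h3 := wpnt1_fej_le' hT hu0
      calc fej T u ≤ 4 / T * (1 / u ^ 2) := h3
        _ ≤ 4 / T * (4 / η ^ 2 * (1 / ((⌊|u|⌋₊ : ℝ) + 1) ^ 2)) :=
            mul_le_mul_of_nonneg_left h2 (by positivity)
        _ = 16 / (T * η ^ 2) * (1 / ((⌊|u|⌋₊ : ℝ) + 1) ^ 2) := by
            field_simp; ring
    · exact mul_nonneg hw (by positivity)

end Pool.MP_67663b_nt.Odd
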