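import Pool.Agent.Lib.MP_67663b_nt.Odd.WPNT1

set_option autoImplicit false
open Filter Topology ArithmeticFunction
namespace Pool.MP_67663b_nt.Odd

private theorem w2_fej_nonneg {T : ℝ} (hT : 0 < T) (u : ℝ) : 0 ≤ fej T u := by
  unfold fej
  positivity

private theorem w2_lhs {T : ℝ} (hT : 0 < T) (y : ℝ) :
    Tendsto (fun σ : ℝ => ∑' n : ℕ, (vonMangoldt n - 1) * (n : ℝ) ^ (-σ) *
        fej T (y - Real.log n)) (𝓝[>] 1)
      (𝓝 (∑' n : ℕ, (vonMangoldt n - 1) / (n : ℝ) * fej T (y - Real.log n))) := by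
  apply tendsto_tsum_of_dominated_convergence (fej_summable hT y)
  · intro n
    rcases Nat.eq_zero_or_pos n with rfl | hn
    · have h0 : (vonMangoldt 0 - 1) / ((0 : ℕ) : ℝ) * fej T (y - Real.log ((0 : ℕ) : ℝ)) = 0 := by
        simp
      rw [h0]
      apply tendsto_const_nhds.congr'
      filter_upwards [self_mem_nhdsWithin] with σ hσ
      rw [Set.mem_Ioi] at hσ
      rw [Nat.cast_zero, Real.zero_rpow (by linarith)]
      simp
    · have hnR : (0 : ℝ) < n := by exact_mod_cast hn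
      have h1 : Tendsto (fun σ : ℝ => (n : ℝ) ^ (-σ)) (𝓝[>] 1) (𝓝 ((n : ℝ) ^ (-(1 : ℝ)))) := by
        have h2 : ContinuousAt (fun σ : ℝ => (n : ℝ) ^ (-σ)) 1 := by
          apply ContinuousAt.rpow continuousAt_const continuousAt_id.neg
          exact Or.inl hnR.ne'
        exact h2.tendsto.mono_left nhdsWithin_le_nhds
      rw [div_eq_mul_inv, ← Real.rpow_neg_one]
      exact (h1.const_mul _).mul_const _
  · filter_upwards [self_mem_nhdsWithin] with σ hσ n
    rw [Set.mem_Ioi] at hσ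
    have hf := w2_fej_nonneg hT (y - Real.log n)
    rcases Nat.eq_zero_or_pos n with rfl | hn
    · rw [Nat.cast_zero, Real.zero_rpow (by linarith)]
      simp
    · have hn1 : (1 : ℝ) ≤ n := by exact_mod_cast hn
      have hnR : (0 : ℝ) < n := by linarith
      have h1 : (n : ℝ) ^ (-σ) ≤ (n : ℝ)⁻¹ := by
        rw [← Real.rpow_neg_one]
        apply Real.rpow_le_rpow_of_exponent_le hn1
        linarith
      have h2 : 0 ≤ (n : ℝ) ^ (-σ) := Real.rpow_nonneg hnR.le _
      have h3 : |vonMangoldt n - 1| ≤ vonMangoldt n + 1 := by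
        have := @vonMangoldt_nonneg n
        rw [abs_le]
        constructor <;> linarith
      rw [Real.norm_eq_abs, abs_mul, abs_mul, abs_of_nonneg h2, abs_of_nonneg hf]
      apply mul_le_mul_of_nonneg_right _ hf
      rw [div_eq_mul_inv]
      exact mul_le_mul h3 h1 h2 ((abs_nonneg _).trans h3)

private theorem w2_rhs {F : ℂ → ℂ} (hF : ContinuousOn F {s | 1 ≤ s.re}) {T : ℝ} (hT : 0 < T)
    (y : ℝ) :
    Tendsto (fun σ : ℝ => ∫ t in (-T)..T, ((1 - |t| / T : ℝ) : ℂ) *
        Complex.exp (Complex.I * t * y) * F (σ + Complex.I * t)) (𝓝[>] 1)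
      (𝓝 (∫ t in (-T)..T, ((1 - |t| / T : ℝ) : ℂ) *
        Complex.exp (Complex.I * t * y) * F (((1 : ℝ) : ℂ) + Complex.I * t))) := by
  have hmem : ∀ (σ : ℝ), 1 ≤ σ → ∀ t : ℝ, (σ : ℂ) + Complex.I * t ∈ {s : ℂ | 1 ≤ s.re} := by
    intro σ hσ t
    simpa using hσ
  -- a bound for F
  obtain ⟨B, hB⟩ : ∃ B : ℝ, ∀ q ∈ (Set.Icc (1 : ℝ) 2) ×ˢ (Set.Icc (-T) T),
      ‖F ((q.1 : ℂ) + Complex.I * (q.2 : ℂ))‖ ≤ B := by
    apply IsCompact.exists_bound_of_continuousOn (isCompact_Icc.prod isCompact_Icc)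
    apply hF.comp (f := fun q : ℝ × ℝ => (q.1 : ℂ) + Complex.I * (q.2 : ℂ))
    · fun_prop
    · rintro ⟨a, b⟩ hab
      exact hmem a hab.1.1 b
  have hev : ∀ᶠ σ : ℝ in 𝓝[>] 1, 1 < σ ∧ σ ≤ 2 := by
    filter_upwards [Ioc_mem_nhdsGT (show (1 : ℝ) < 2 by norm_num)] with σ hσ
    exact hσ
  apply intervalIntegral.tendsto_integral_filter_of_dominated_convergence (fun _ => B)
  · filter_upwards [hev] with σ hσ
    apply Continuous.aestronglyMeasurable
    apply Continuous.mul (by fun_prop)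
    exact hF.comp_continuous (f := fun t : ℝ => (σ : ℂ) + Complex.I * (t : ℂ)) (by fun_prop)
      (fun t => hmem σ hσ.1.le t)
  · filter_upwards [hev] with σ hσ
    refine Filter.Eventually.of_forall ?_
    intro t ht
    rw [Set.uIoc_of_le (by linarith)] at ht
    rw [norm_mul, norm_mul]
    have h1 : ‖Complex.exp (Complex.I * t * y)‖ = 1 := by
      have : Complex.I * t * y = ((t * y : ℝ) : ℂ) * Complex.I := by
        push_cast
        ring
      rw [this, Complex.norm_exp_ofReal_mul_I]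
    have h2 : ‖((1 - |t| / T : ℝ) : ℂ)‖ ≤ 1 := by
      rw [Complex.norm_real, Real.norm_eq_abs, abs_le]
      have h3 : |t| / T ≤ 1 := by
        rw [div_le_one hT, abs_le]
        exact ⟨ht.1.le, ht.2⟩
      have h4 : 0 ≤ |t| / T := by positivity
      constructor <;> linarith
    rw [h1, mul_one]
    refine (mul_le_of_le_one_left (norm_nonneg _) h2).trans ?_
    exact hB (σ, t) ⟨⟨hσ.1.le, hσ.2⟩, ⟨ht.1.le, ht.2⟩⟩
  · exact intervalIntegrable_const
  · refine Filter.Eventually.of_forall ?_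
    intro t _
    apply Tendsto.const_mul
    have h1 : Tendsto (fun σ : ℝ => (σ : ℂ) + Complex.I * t) (𝓝[>] 1)
        (𝓝[{s : ℂ | 1 ≤ s.re}] (((1 : ℝ) : ℂ) + Complex.I * t)) := by
      rw [tendsto_nhdsWithin_iff]
      constructor
      · have : Continuous (fun σ : ℝ => (σ : ℂ) + Complex.I * t) := by fun_prop
        exact (this.tendsto 1).mono_left nhdsWithin_le_nhds
      · filter_upwards [hev] with σ hσ
        exact hmem σ hσ.1.le t
    exact (hF _ (hmem 1 le_rfl t)).tendsto.comp h1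

private theorem w2_rl (g : ℝ → ℂ) (T : ℝ) (hT : 0 < T) :
    Tendsto (fun y : ℝ => ∫ t in (-T)..T, Complex.exp (Complex.I * t * y) * g t) atTop (𝓝 0) := by
  have h1 := Real.tendsto_integral_exp_smul_cocompact ((Set.Ioc (-T) T).indicator g)
  have h2 : Tendsto (fun y : ℝ => -(y / (2 * Real.pi))) atTop (cocompact ℝ) := by
    refine Tendsto.mono_right ?_ atBot_le_cocompact
    apply tendsto_neg_atTop_atBot.comp
    exact tendsto_id.atTop_div_const (by positivity)
  have h3 := h1.comp h2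
  refine h3.congr ?_
  intro y
  rw [Function.comp_apply, intervalIntegral.integral_of_le (by linarith),
    ← MeasureTheory.integral_indicator measurableSet_Ioc]
  congr 1
  funext v
  by_cases hv : v ∈ Set.Ioc (-T) T
  · rw [Set.indicator_of_mem hv, Set.indicator_of_mem hv, Circle.smul_def, Real.fourierChar_apply,
      smul_eq_mul]
    congr 2
    push_cast
    have : (Real.pi : ℂ) ≠ 0 := by exact_mod_cast Real.pi_ne_zero
    field_simp
  · rw [Set.indicator_of_notMem hv, Set.indicator_of_notMem hv, smul_zero]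

theorem fej_tendsto {T : ℝ} (hT : 0 < T) :
    Tendsto (fun y : ℝ => ∑' n : ℕ, (vonMangoldt n - 1) / (n : ℝ) * fej T (y - Real.log n))
      atTop (𝓝 0) := by
  obtain ⟨F, hFc, hF⟩ := exists_cont
  have key : ∀ y : ℝ, ((∑' n : ℕ, (vonMangoldt n - 1) / (n : ℝ) * fej T (y - Real.log n) : ℝ) : ℂ)
      = ∫ t in (-T)..T, Complex.exp (Complex.I * t * y) * (((1 - |t| / T : ℝ) : ℂ) *
        F (((1 : ℝ) : ℂ) + Complex.I * t)) := by
    intro y
    have h1 := (Complex.continuous_ofReal.tendsto _).comp (w2_lhs hT y)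
    have h2 := w2_rhs hFc hT y
    have h3 : ((fun σ : ℝ => ∫ t in (-T)..T, ((1 - |t| / T : ℝ) : ℂ) *
        Complex.exp (Complex.I * t * y) * F (σ + Complex.I * t)) =ᶠ[𝓝[>] (1 : ℝ)]
        ((fun x : ℝ => (x : ℂ)) ∘ (fun σ : ℝ => ∑' n : ℕ, (vonMangoldt n - 1) * (n : ℝ) ^ (-σ) *
        fej T (y - Real.log n)))) := by
      filter_upwards [self_mem_nhdsWithin] with σ hσ
      rw [Set.mem_Ioi] at hσ
      exact (fej_identity hF hT hσ y).symm
    have h4 := tendsto_nhds_unique h1 (h2.congr' h3)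
    rw [h4]
    congr 1
    funext t
    ring
  have h5 := w2_rl (fun t : ℝ => ((1 - |t| / T : ℝ) : ℂ) * F (((1 : ℝ) : ℂ) + Complex.I * t)) T hT
  have h6 : Tendsto (fun y : ℝ => ((∑' n : ℕ, (vonMangoldt n - 1) / (n : ℝ) *
      fej T (y - Real.log n) : ℝ) : ℂ)) atTop (𝓝 ((0 : ℝ) : ℂ)) := by
    rw [Complex.ofReal_zero]
    refine h5.congr ?_
    intro y
    exact (key y).symm
  have h7 := (Complex.continuous_re.tendsto _).comp h6
  rw [Complex.ofReal_re] at h7
  refine h7.congr ?_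
  intro y
  exact Complex.ofReal_re _

end Pool.MP_67663b_nt.Odd
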