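import Pool.Agent.Lib.MP_67663b_nt.Odd.WordsDefs

set_option autoImplicit false
open Filter Topology
namespace Pool.MP_67663b_nt.Odd

variable {I : Type} [Fintype I] [DecidableEq I]

theorem bt_mono {a : ℝ} (ha : 0 < a) : Monotone (bt a) := by
  intro m n hmn
  unfold bt
  refine Nat.floor_mono ?_
  have : (m : ℝ) ≤ n := by exact_mod_cast hmn
  exact mul_le_mul_of_nonneg_left this ha.le

private theorem bt_add_le {a : ℝ} (ha : 0 < a) (n j : ℕ) :
    bt a (n + j) ≤ bt a n + (bt a j + 1) := by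
  unfold bt
  have h1 : a * (n : ℝ) < ⌊a * (n : ℝ)⌋₊ + 1 := Nat.lt_floor_add_one _
  have h2 : a * (j : ℝ) < ⌊a * (j : ℝ)⌋₊ + 1 := Nat.lt_floor_add_one _
  have h0 : 0 ≤ a * ((n + j : ℕ) : ℝ) := by positivity
  have h3 : a * ((n + j : ℕ) : ℝ) < ((⌊a * (n : ℝ)⌋₊ + (⌊a * (j : ℝ)⌋₊ + 1) + 1 : ℕ) : ℝ) := by
    push_cast
    linarith
  have h4 := (Nat.floor_lt h0).mpr h3
  omega

private theorem lam_mem (n : ℕ) : lam n ∈ ({0, 1, -1} : Set ℝ) := by
  unfold lam
  rcases neg_one_pow_eq_or ℝ (ArithmeticFunction.cardFactors n) with h | h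
  · rw [h]; simp
  · rw [h]; simp

private theorem finite_fun {β : Type*} (K : Set β) (hK : K.Finite) (z : β) (C : ℕ) :
    {f : ℕ → β | (∀ j, f j ∈ K) ∧ ∀ j, C ≤ j → f j = z}.Finite := by
  have h1 : (Set.pi Set.univ (fun _ : Fin C => K)).Finite := Set.Finite.pi (fun _ => hK)
  refine (h1.image (fun (g : Fin C → β) (j : ℕ) => if h : j < C then g ⟨j, h⟩ else z)).subset ?_
  rintro f ⟨hf1, hf2⟩
  refine ⟨fun j => f j, fun j _ => hf1 j, ?_⟩
  funext j
  by_cases h : j < C
  · simp [h]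
  · simp only [h, dite_false]
    exact (hf2 j (not_lt.mp h)).symm

theorem word_finite (α : I → ℝ) (hα : ∀ i, 0 < α i) (H : ℕ) :
    (Set.range (word α H)).Finite := by
  have hK : ({0, 1, -1} : Set ℝ).Finite := by simp
  have f1 := finite_fun ({0, 1, -1} : Set ℝ) hK 0 H
  have f2 : (Set.pi Set.univ (fun i : I =>
      {f : ℕ → ℕ | (∀ j, f j ∈ Set.Iic (bt (α i) H + 1)) ∧ ∀ j, H + 1 ≤ j → f j = 0})).Finite :=
    Set.Finite.pi (fun i => finite_fun _ (Set.finite_Iic _) 0 (H + 1))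
  have f3 : (Set.pi Set.univ (fun i : I =>
      {f : ℕ → ℝ | (∀ j, f j ∈ ({0, 1, -1} : Set ℝ)) ∧ ∀ j, bt (α i) H + 2 ≤ j → f j = 0})).Finite :=
    Set.Finite.pi (fun i => finite_fun _ hK 0 (bt (α i) H + 2))
  refine (f1.prod (f2.prod f3)).subset ?_
  rintro _ ⟨n, rfl⟩
  refine ⟨⟨fun j => ?_, fun j hj => ?_⟩, fun i _ => ⟨fun j => ?_, fun j hj => ?_⟩,
    fun i _ => ⟨fun r => ?_, fun r hr => ?_⟩⟩
  · simp only [word]
    split_ifs
    · exact lam_mem _
    · simp
  · simp only [word]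
    rw [if_neg (by omega)]
  · simp only [word, Set.mem_Iic]
    split_ifs with h
    · have h1 := bt_add_le (hα i) n j
      have h2 := bt_mono (hα i) h
      omega
    · exact Nat.zero_le _
  · simp only [word]
    rw [if_neg (by omega)]
  · simp only [word]
    split_ifs
    · exact lam_mem _
    · simp
  · simp only [word]
    rw [if_neg]
    have h1 := bt_add_le (hα i) n H
    omega

theorem res_mem_box (α : I → ℝ) {Q : ℕ} (hQ : 0 < Q) : Set.range (res α Q) ⊆ box I Q := by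
  rintro _ ⟨n, rfl⟩
  simp only [box, res, Finset.coe_product, Set.mem_prod, Finset.mem_coe, Finset.mem_range,
    Fintype.mem_piFinset]
  exact ⟨Nat.mod_lt _ hQ, fun i => Nat.mod_lt _ hQ⟩

omit [Fintype I] [DecidableEq I] in
private theorem word_double' (α : I → ℝ) (hα : ∀ i, 0 < α i) (H n : ℕ) :
    word α (2 * H) n =
      (fun j => if j < H then (word α H n).1 j else
          if j < 2 * H then (word α H (n + H)).1 (j - H) else 0,
        fun i j => if j ≤ H then (word α H n).2.1 i j else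
          if j ≤ 2 * H then (word α H n).2.1 i H + (word α H (n + H)).2.1 i (j - H) else 0,
        fun i r => if r ≤ (word α H n).2.1 i H then (word α H n).2.2 i r else
          if r ≤ (word α H n).2.1 i H + (word α H (n + H)).2.1 i H then
            (word α H (n + H)).2.2 i (r - (word α H n).2.1 i H) else 0) := by
  have e1 : ∀ j, H ≤ j → n + H + (j - H) = n + j := fun j hj => by omega
  unfold word
  refine Prod.ext ?_ (Prod.ext ?_ ?_)
  · funext j
    dsimp only
    by_cases h1 : j < H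
    · rw [if_pos (by omega), if_pos h1, if_pos h1]
    · by_cases h2 : j < 2 * H
      · rw [if_pos h2, if_neg h1, if_pos h2, if_pos (by omega), e1 j (by omega)]
      · rw [if_neg h2, if_neg h1, if_neg h2]
  · funext i j
    have m1 : bt (α i) n ≤ bt (α i) (n + H) := bt_mono (hα i) (by omega)
    dsimp only
    by_cases h1 : j ≤ H
    · rw [if_pos (by omega), if_pos h1, if_pos h1]
    · by_cases h2 : j ≤ 2 * H
      · have m2 : bt (α i) (n + H) ≤ bt (α i) (n + j) := bt_mono (hα i) (by omega)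
        rw [if_pos h2, if_neg h1, if_pos h2, if_pos le_rfl, if_pos (by omega), e1 j (by omega)]
        omega
      · rw [if_neg h2, if_neg h1, if_neg h2]
  · funext i r
    have m1 : bt (α i) n ≤ bt (α i) (n + H) := bt_mono (hα i) (by omega)
    have m2 : bt (α i) (n + H) ≤ bt (α i) (n + H + H) := bt_mono (hα i) (by omega)
    have e2 : n + 2 * H = n + H + H := by ring
    dsimp only
    simp only [le_refl, if_true]
    rw [e2]
    by_cases h1 : r ≤ bt (α i) (n + H) - bt (α i) n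
    · rw [if_pos (by omega), if_pos h1, if_pos h1]
    · rw [if_neg h1]
      by_cases h2 : r ≤ bt (α i) (n + H + H) - bt (α i) n
      · rw [if_pos h2, if_pos (by omega), if_pos (by omega)]
        congr 1
        omega
      · rw [if_neg h2, if_neg (by omega)]

theorem word_double (α : I → ℝ) (hα : ∀ i, 0 < α i) (H : ℕ) :
    ∃ F : (ℕ → ℝ) × (I → ℕ → ℕ) × (I → ℕ → ℝ) → (ℕ → ℝ) × (I → ℕ → ℕ) × (I → ℕ → ℝ) →
      (ℕ → ℝ) × (I → ℕ → ℕ) × (I → ℕ → ℝ),
      ∀ n, word α (2 * H) n = F (word α H n) (word α H (n + H)) :=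
  ⟨fun w v => (fun j => if j < H then w.1 j else if j < 2 * H then v.1 (j - H) else 0,
    fun i j => if j ≤ H then w.2.1 i j else
      if j ≤ 2 * H then w.2.1 i H + v.2.1 i (j - H) else 0,
    fun i r => if r ≤ w.2.1 i H then w.2.2 i r else
      if r ≤ w.2.1 i H + v.2.1 i H then v.2.2 i (r - w.2.1 i H) else 0),
    fun n => word_double' α hα H n⟩

theorem res_shift (α : I → ℝ) (hα : ∀ i, 0 < α i) (H Q : ℕ) (hQ : 0 < Q) :
    ∃ G : ℕ × (I → ℕ) → (ℕ → ℝ) × (I → ℕ → ℕ) × (I → ℕ → ℝ) → ℕ × (I → ℕ),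
      ∀ n, res α Q (n + H) = G (res α Q n) (word α H n) := by
  refine ⟨fun r w => ((r.1 + H) % Q, fun i => (r.2 i + w.2.1 i H) % Q), fun n => ?_⟩
  unfold res word
  refine Prod.ext ?_ ?_
  · simp
  · funext i
    have m1 : bt (α i) n ≤ bt (α i) (n + H) := bt_mono (hα i) (by omega)
    dsimp only
    rw [if_pos le_rfl, Nat.mod_add_mod]
    congr 1
    omega

theorem res_mul (α : I → ℝ) (p Q : ℕ) (hp : 0 < p) (hQ : 0 < Q) (h : Nat.Coprime p Q) :
    (∃ F : ℕ × (I → ℕ) → ℕ × (I → ℕ) → ℕ × (I → ℕ),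
      ∀ n, res α (p * Q) n = F (res α p n) (res α Q n)) ∧
    (∃ F : ℕ × (I → ℕ) → (ℕ × (I → ℕ)) × (ℕ × (I → ℕ)),
      ∀ n, (res α p n, res α Q n) = F (res α (p * Q) n)) := by
  have key : ∀ x : ℕ, x % (p * Q) = (Nat.chineseRemainder h (x % p) (x % Q) : ℕ) % (p * Q) := by
    intro x
    have h1 := (Nat.chineseRemainder h (x % p) (x % Q)).2
    have h2 : x ≡ (Nat.chineseRemainder h (x % p) (x % Q) : ℕ) [MOD p] :=
      (h1.1.trans (Nat.mod_modEq x p)).symm
    have h3 : x ≡ (Nat.chineseRemainder h (x % p) (x % Q) : ℕ) [MOD Q] :=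
      (h1.2.trans (Nat.mod_modEq x Q)).symm
    exact (Nat.modEq_and_modEq_iff_modEq_mul h).mp ⟨h2, h3⟩
  constructor
  · refine ⟨fun a b => ((Nat.chineseRemainder h a.1 b.1 : ℕ) % (p * Q),
      fun i => (Nat.chineseRemainder h (a.2 i) (b.2 i) : ℕ) % (p * Q)), fun n => ?_⟩
    unfold res
    refine Prod.ext ?_ ?_
    · exact key n
    · funext i
      exact key _
  · refine ⟨fun a => ((a.1 % p, fun i => a.2 i % p), (a.1 % Q, fun i => a.2 i % Q)),
      fun n => ?_⟩
    unfold res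
    simp [Nat.mod_mul_right_mod, Nat.mod_mul_left_mod]

end Pool.MP_67663b_nt.Odd
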